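import Pool.Agent.Work.MP_2738db_nt_Y.Interface

set_option autoImplicit false

/-!
Block STB of theorem Y (MP_2738db_nt, helper63): three logarithms.
-/

namespace Pool.Agent.Work.MP_2738db_nt_Y.helper63

open Finset Polynomial

theorem neg_log_one_sub_le {t : ℝ} (h1 : t ≤ 1 / 2) (h0 : 0 ≤ t) :
    -Real.log (1 - t) ≤ 2 * t := by
  have h2 : 0 < 1 - t := by linarith
  have h3 : Real.log (1 - t)⁻¹ ≤ (1 - t)⁻¹ - 1 := Real.log_le_sub_one_of_pos (inv_pos.mpr h2)
  rw [Real.log_inv] at h3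
  have h4 : (1 - t)⁻¹ ≤ 2 * t + 1 := by
    rw [inv_le_iff_one_le_mul₀ h2]
    nlinarith
  linarith

/-- upper bound for the linear form -/
theorem lam_upper (p q x y z : ℕ) (P : ℝ) (hp : 1 ≤ p) (hq : 1 ≤ q) (hx : 1 ≤ x) (hy : 1 ≤ y)
    (hz : 1 ≤ z) (hle : z ^ (p * q) ≤ y ^ q) (heq : y ^ q + z ^ (p * q) = x ^ p)
    (hpP : (p : ℝ) ≤ P) (hqP : (q : ℝ) ≤ P)
    (D : ℝ) (hD : D = p * Real.log x - p * q * Real.log z) (hD2 : Real.exp (-(D / p)) ≤ 1 / 2) :
    |(p : ℝ) * Real.log ((x : ℝ) - (z : ℝ) ^ q) - q * Real.log ((y : ℝ) + (z : ℝ) ^ p)|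
      ≤ 6 * P * Real.exp (-(D / P)) := by
  have hp0 : (0 : ℝ) < p := by exact_mod_cast hp
  have hq0 : (0 : ℝ) < q := by exact_mod_cast hq
  have hp1 : (1 : ℝ) ≤ p := by exact_mod_cast hp
  have hx0 : (0 : ℝ) < x := by exact_mod_cast hx
  have hy0 : (0 : ℝ) < y := by exact_mod_cast hy
  have hz0 : (0 : ℝ) < z := by exact_mod_cast hz
  have hP0 : (0 : ℝ) < P := by linarith
  have hP1 : (1 : ℝ) ≤ P := by linarith
  have heqR : (y : ℝ) ^ q + (z : ℝ) ^ (p * q) = (x : ℝ) ^ p := by exact_mod_cast heq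
  have hleR : (z : ℝ) ^ (p * q) ≤ (y : ℝ) ^ q := by exact_mod_cast hle
  -- exp(-D)
  have hlogz : Real.log ((z : ℝ) ^ (p * q)) = p * q * Real.log z := by
    rw [Real.log_pow]; push_cast; ring
  have hlogx : Real.log ((x : ℝ) ^ p) = p * Real.log x := by rw [Real.log_pow]
  have hlogy : Real.log ((y : ℝ) ^ q) = q * Real.log y := by rw [Real.log_pow]
  have hxp : (0 : ℝ) < (x : ℝ) ^ p := by positivity
  have hzp : (0 : ℝ) < (z : ℝ) ^ (p * q) := by positivity
  have hyp : (0 : ℝ) < (y : ℝ) ^ q := by positivity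
  have hE : Real.exp (-D) = (z : ℝ) ^ (p * q) / (x : ℝ) ^ p := by
    have h1 : -D = Real.log ((z : ℝ) ^ (p * q) / (x : ℝ) ^ p) := by
      rw [Real.log_div hzp.ne' hxp.ne', hlogz, hlogx, hD]; ring
    rw [h1, Real.exp_log (by positivity)]
  have hE2 : Real.exp (-D) ≤ 1 / 2 := by
    rw [hE, div_le_iff₀ hxp]; linarith
  have hD0 : 0 ≤ D := by
    by_contra hc
    push Not at hc
    have h1 : (1 : ℝ) ≤ Real.exp (-D) := Real.one_le_exp (by linarith)
    linarith
  have hE0 : 0 ≤ Real.exp (-D) := (Real.exp_pos _).le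
  -- q log y
  have hqy : (q : ℝ) * Real.log y = p * Real.log x + Real.log (1 - Real.exp (-D)) := by
    rw [← hlogy, ← hlogx, ← Real.log_mul hxp.ne' (by linarith)]
    congr 1
    rw [hE]
    field_simp
    linarith
  -- e1
  have he1 : Real.exp (-(D / p)) = (z : ℝ) ^ q / x := by
    have h1 : -(D / p) = Real.log ((z : ℝ) ^ q / x) := by
      rw [Real.log_div (by positivity) hx0.ne', Real.log_pow, hD]
      field_simp
      ring
    rw [h1, Real.exp_log (by positivity)]
  have hla : Real.log ((x : ℝ) - (z : ℝ) ^ q) = Real.log x + Real.log (1 - Real.exp (-(D / p))) := by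
    rw [← Real.log_mul hx0.ne' (by linarith), he1]
    congr 1
    field_simp
  -- e2
  have hlb : Real.log ((y : ℝ) + (z : ℝ) ^ p) = Real.log y + Real.log (1 + (z : ℝ) ^ p / y) := by
    rw [← Real.log_mul hy0.ne' (by positivity)]
    congr 1
    field_simp
  have he20 : 0 < (z : ℝ) ^ p / y := by positivity
  have hl12 : -Real.log (1 - Real.exp (-D)) ≤ Real.log 2 := by
    rw [← Real.log_inv]
    apply Real.log_le_log
    · apply inv_pos.mpr; linarith
    · rw [inv_le_iff_one_le_mul₀ (by linarith)]; linarith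
  have he2 : (z : ℝ) ^ p / y ≤ 2 * Real.exp (-(D / q)) := by
    have h1 : Real.log ((z : ℝ) ^ p / y) ≤ Real.log (2 * Real.exp (-(D / q))) := by
      rw [Real.log_div (by positivity) hy0.ne', Real.log_pow,
        Real.log_mul (by norm_num) (Real.exp_pos _).ne', Real.log_exp]
      have h2 : (q : ℝ) * (p * Real.log z - Real.log y) ≤ -D + Real.log 2 := by
        have : (q : ℝ) * (p * Real.log z - Real.log y) = p * q * Real.log z - q * Real.log y := by
          ring
        rw [this, hqy, hD] at *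
        linarith
      have h3 : (q : ℝ) * (p * Real.log z - Real.log y) ≤ q * (Real.log 2 + -(D / q)) := by
        have h4 : (q : ℝ) * (Real.log 2 + -(D / q)) = q * Real.log 2 - D := by
          field_simp
          ring
        have h5 : (0 : ℝ) < Real.log 2 := Real.log_pos (by norm_num)
        have h6 : (1 : ℝ) ≤ q := by exact_mod_cast hq
        rw [h4]
        nlinarith
      exact le_of_mul_le_mul_left h3 hq0
    exact (Real.log_le_log_iff he20 (by positivity)).mp h1
  have hl2a : 0 ≤ Real.log (1 + (z : ℝ) ^ p / y) := Real.log_nonneg (by linarith)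
  have hl2b : Real.log (1 + (z : ℝ) ^ p / y) ≤ 2 * Real.exp (-(D / q)) := by
    have := Real.log_le_sub_one_of_pos (show (0 : ℝ) < 1 + (z : ℝ) ^ p / y by linarith)
    linarith
  -- comparison of exponentials
  have hc0 : Real.exp (-D) ≤ Real.exp (-(D / P)) := by
    apply Real.exp_le_exp.mpr
    have : D / P ≤ D := div_le_self hD0 hP1
    linarith
  have hcp : Real.exp (-(D / p)) ≤ Real.exp (-(D / P)) := by
    apply Real.exp_le_exp.mpr
    have : D / P ≤ D / p := div_le_div_of_nonneg_left hD0 hp0 hpP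
    linarith
  have hcq : Real.exp (-(D / q)) ≤ Real.exp (-(D / P)) := by
    apply Real.exp_le_exp.mpr
    have : D / P ≤ D / q := div_le_div_of_nonneg_left hD0 hq0 hqP
    linarith
  have hn0 := neg_log_one_sub_le hE2 hE0
  have hn0' : Real.log (1 - Real.exp (-D)) ≤ 0 := Real.log_nonpos (by linarith) (by linarith)
  have hn1 := neg_log_one_sub_le hD2 (Real.exp_pos _).le
  have hn1' : Real.log (1 - Real.exp (-(D / p))) ≤ 0 :=
    Real.log_nonpos (by linarith) (by linarith [Real.exp_pos (-(D / p))])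
  have hid : (p : ℝ) * Real.log ((x : ℝ) - (z : ℝ) ^ q) - q * Real.log ((y : ℝ) + (z : ℝ) ^ p)
      = -Real.log (1 - Real.exp (-D)) + p * Real.log (1 - Real.exp (-(D / p)))
        - q * Real.log (1 + (z : ℝ) ^ p / y) := by
    rw [hla, hlb, mul_add, mul_add, hqy]; ring
  rw [hid]
  set t0 := Real.exp (-(D / P)) with ht0
  have ht0p : 0 < t0 := Real.exp_pos _
  have hA1 : -(p * Real.log (1 - Real.exp (-(D / p)))) ≤ 2 * P * t0 := by
    calc -(p * Real.log (1 - Real.exp (-(D / p))))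
        = p * (-Real.log (1 - Real.exp (-(D / p)))) := by ring
      _ ≤ p * (2 * t0) := by
          apply mul_le_mul_of_nonneg_left _ hp0.le
          linarith
      _ ≤ P * (2 * t0) := by
          apply mul_le_mul_of_nonneg_right hpP
          linarith
      _ = 2 * P * t0 := by ring
  have hA2 : q * Real.log (1 + (z : ℝ) ^ p / y) ≤ 2 * P * t0 := by
    calc q * Real.log (1 + (z : ℝ) ^ p / y)
        ≤ q * (2 * t0) := by
          apply mul_le_mul_of_nonneg_left _ hq0.le
          linarith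
      _ ≤ P * (2 * t0) := by
          apply mul_le_mul_of_nonneg_right hqP
          linarith
      _ = 2 * P * t0 := by ring
  have hA1' : p * Real.log (1 - Real.exp (-(D / p))) ≤ 0 :=
    mul_nonpos_of_nonneg_of_nonpos hp0.le hn1'
  have hA2' : 0 ≤ q * Real.log (1 + (z : ℝ) ^ p / y) := mul_nonneg hq0.le hl2a
  have hA0 : -Real.log (1 - Real.exp (-D)) ≤ 2 * P * t0 := by
    have : 2 * t0 ≤ 2 * P * t0 := by nlinarith
    linarith
  rw [abs_le]
  constructor
  · nlinarith
  · nlinarith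

theorem one_le_log_three {P : ℝ} (hP : 3 ≤ P) : 1 ≤ Real.log P := by
  rw [Real.le_log_iff_exp_le (by linarith)]
  linarith [Real.exp_one_lt_d9]

/-- the final computation -/
theorem stb_num (P Q M D C1 lam : ℝ) (hP : 3 ≤ P) (hQ : 3 ≤ Q) (hQP : Q ≤ P) (hC1 : 1 ≤ C1)
    (hM : 0.46 * (P * Q) ≤ M)
    (hlo : Real.exp (-(C1 * (4 * M / (P * Q)) * (1 + Real.log (P * Q)) ^ 13)) ≤ lam)
    (hup : lam ≤ 6 * P * Real.exp (-(D / P))) :
    D ≤ (4 * C1 * 3 ^ 13 + 8) * (Real.log P ^ 13 / Q) * M := by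
  have hP0 : (0 : ℝ) < P := by linarith
  have hQ0 : (0 : ℝ) < Q := by linarith
  have hlP := one_le_log_three hP
  have hM0 : 0 < M := by
    have : 0 < P * Q := by positivity
    linarith
  have hLg : 1 + Real.log (P * Q) ≤ 3 * Real.log P := by
    rw [Real.log_mul hP0.ne' hQ0.ne']
    have : Real.log Q ≤ Real.log P := Real.log_le_log hQ0 hQP
    linarith
  have hLg0 : 0 ≤ 1 + Real.log (P * Q) := by
    rw [Real.log_mul hP0.ne' hQ0.ne']
    have : 0 ≤ Real.log Q := Real.log_nonneg (by linarith)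
    linarith
  have hLg13 : (1 + Real.log (P * Q)) ^ 13 ≤ 3 ^ 13 * Real.log P ^ 13 := by
    calc (1 + Real.log (P * Q)) ^ 13 ≤ (3 * Real.log P) ^ 13 := by gcongr
      _ = _ := by rw [mul_pow]
  have h6 : Real.log (6 * P) ≤ 3 * Real.log P := by
    rw [Real.log_mul (by norm_num) hP0.ne']
    have h1 : Real.log 6 ≤ 2 := by
      rw [Real.log_le_iff_le_exp (by norm_num)]
      have h2 : (2.7 : ℝ) ≤ Real.exp 1 := by linarith [Real.exp_one_gt_d9]
      have h3 : Real.exp 2 = Real.exp 1 * Real.exp 1 := by rw [← Real.exp_add]; norm_num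
      rw [h3]
      nlinarith
    linarith
  have h1 : -(C1 * (4 * M / (P * Q)) * (1 + Real.log (P * Q)) ^ 13) ≤
      Real.log (6 * P) + -(D / P) := by
    have h2 := hlo.trans hup
    have h3 := Real.log_le_log (Real.exp_pos _) h2
    rwa [Real.log_exp, Real.log_mul (by positivity) (Real.exp_pos _).ne', Real.log_exp] at h3
  have h2 : D / P ≤ 3 * Real.log P + C1 * (4 * M / (P * Q)) * (3 ^ 13 * Real.log P ^ 13) := by
    have h3 : C1 * (4 * M / (P * Q)) * (1 + Real.log (P * Q)) ^ 13 ≤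
        C1 * (4 * M / (P * Q)) * (3 ^ 13 * Real.log P ^ 13) := by
      apply mul_le_mul_of_nonneg_left hLg13
      positivity
    linarith
  have h3 : D ≤ P * (3 * Real.log P + C1 * (4 * M / (P * Q)) * (3 ^ 13 * Real.log P ^ 13)) := by
    rwa [div_le_iff₀' hP0] at h2
  have h4 : P * (C1 * (4 * M / (P * Q)) * (3 ^ 13 * Real.log P ^ 13)) =
      4 * C1 * 3 ^ 13 * (Real.log P ^ 13 / Q) * M := by
    field_simp
  have h5 : P * (3 * Real.log P) ≤ 8 * (Real.log P ^ 13 / Q) * M := by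
    have h6 : Real.log P ≤ Real.log P ^ 13 := le_self_pow₀ hlP (by norm_num)
    have h7 : P ≤ 2.2 * (M / Q) := by
      rw [← mul_div_assoc, le_div_iff₀ hQ0]
      linarith
    have h8 : 0 ≤ M / Q := by positivity
    calc P * (3 * Real.log P) ≤ (2.2 * (M / Q)) * (3 * Real.log P) := by
          apply mul_le_mul_of_nonneg_right h7; linarith
      _ ≤ (2.2 * (M / Q)) * (3 * Real.log P ^ 13) := by
          apply mul_le_mul_of_nonneg_left _ (by positivity); linarith
      _ ≤ 8 * (M / Q) * Real.log P ^ 13 := by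
          have : 0 ≤ (M / Q) * Real.log P ^ 13 := by positivity
          nlinarith
      _ = _ := by ring
  calc D ≤ _ := h3
    _ = P * (3 * Real.log P) + P * (C1 * (4 * M / (P * Q)) * (3 ^ 13 * Real.log P ^ 13)) := by ring
    _ ≤ 8 * (Real.log P ^ 13 / Q) * M + 4 * C1 * 3 ^ 13 * (Real.log P ^ 13 / Q) * M := by
        rw [h4]; linarith
    _ = _ := by ring

/-- the easy range -/
theorem stb_easy (P Q M D C1 p : ℝ) (hP : 3 ≤ P) (hQ : 3 ≤ Q) (hC1 : 1 ≤ C1) (hp : 0 < p)
    (hpP : p ≤ P) (hM : 0.46 * (P * Q) ≤ M) (hD : 1 / 2 < Real.exp (-(D / p))) :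
    D ≤ (4 * C1 * 3 ^ 13 + 8) * (Real.log P ^ 13 / Q) * M := by
  have hP0 : (0 : ℝ) < P := by linarith
  have hQ0 : (0 : ℝ) < Q := by linarith
  have hlP := one_le_log_three hP
  have hM0 : 0 < M := by
    have : 0 < P * Q := by positivity
    linarith
  have h1 : D / p ≤ Real.log 2 := by
    have h2 := Real.log_le_log (by norm_num) hD.le
    rw [Real.log_exp, one_div, Real.log_inv] at h2
    linarith
  have h2 : D ≤ p * Real.log 2 := by rwa [div_le_iff₀' hp] at h1
  have h3 : D ≤ P := by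
    have h4 := Real.log_two_lt_d9
    have h5 : (0 : ℝ) ≤ Real.log 2 := Real.log_nonneg (by norm_num)
    nlinarith
  have h7 : P ≤ 2.2 * (M / Q) := by
    rw [← mul_div_assoc, le_div_iff₀ hQ0]
    linarith
  have h8 : 0 ≤ M / Q := by positivity
  have h9 : (1 : ℝ) ≤ Real.log P ^ 13 := one_le_pow₀ hlP
  calc D ≤ 2.2 * (M / Q) := h3.trans h7
    _ ≤ 8 * (M / Q) := by nlinarith
    _ ≤ 8 * (M / Q) * Real.log P ^ 13 := le_mul_of_one_le_right (by positivity) h9
    _ = 8 * (Real.log P ^ 13 / Q) * M := by ring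
    _ ≤ _ := by
      have : 0 ≤ Real.log P ^ 13 / Q * M := by positivity
      have h10 : 0 ≤ 4 * C1 * 3 ^ 13 := by positivity
      nlinarith

theorem log_gap_lt {U S : ℕ} {h : ℝ} (hU : 1 ≤ U) (hUS : U < S) (hS : Real.log S ≤ h) :
    Real.exp (-h) ≤ Real.log S - Real.log U := by
  have hU0 : (0 : ℝ) < U := by exact_mod_cast hU
  have hS0 : (0 : ℝ) < S := by exact_mod_cast (by omega : 0 < S)
  have h1 : (U : ℝ) + 1 ≤ S := by exact_mod_cast hUS
  have h2 : Real.log ((U : ℝ) / S) ≤ (U : ℝ) / S - 1 := Real.log_le_sub_one_of_pos (by positivity)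
  rw [Real.log_div hU0.ne' hS0.ne'] at h2
  have h3 : (U : ℝ) / S - 1 ≤ -(1 / S) := by
    rw [div_sub_one hS0.ne', ← neg_div, div_le_div_iff_of_pos_right hS0]
    linarith
  have h4 : Real.exp (-h) ≤ 1 / S := by
    rw [Real.exp_neg, one_div]
    apply inv_anti₀ hS0
    rwa [← Real.log_le_iff_le_exp hS0]
  linarith

theorem log_gap {U S : ℕ} {h : ℝ} (hU : 1 ≤ U) (hS : 1 ≤ S) (hUS : U ≠ S)
    (hU' : Real.log U ≤ h) (hS' : Real.log S ≤ h) :
    Real.exp (-h) ≤ |Real.log U - Real.log S| := by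
  rcases lt_or_gt_of_ne hUS with h1 | h1
  · have := log_gap_lt hU h1 hS'
    rw [abs_sub_comm]
    exact this.trans (le_abs_self _)
  · have := log_gap_lt hS h1 hU'
    exact this.trans (le_abs_self _)

theorem three_pow_ge {p : ℕ} (hp : 3 ≤ p) : 2 ^ p ≤ 3 ^ (p - 1) := by
  obtain ⟨k, rfl⟩ := Nat.exists_eq_add_of_le hp
  induction k with
  | zero => norm_num
  | succ n ih =>
    have e : 3 + (n + 1) - 1 = (3 + n - 1) + 1 := by omega
    rw [e, pow_succ, show 3 + (n + 1) = (3 + n) + 1 by ring, pow_succ]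
    have := ih (by omega)
    nlinarith [Nat.zero_le (3 ^ (3 + n - 1))]

theorem stb : Stmt_Abm → Stmt_Abp → Stmt_Arq → Stmt_Lf3 → Stmt_Stb := by
  rintro hAbm hAbp ⟨Ca, hCa1, hArq⟩ ⟨Cl, hCl1, hLf3⟩
  refine ⟨4 * (Ca + Cl) * 3 ^ 13 + 8, by nlinarith, ?_⟩
  intro p q x y z hp hq hpq hp3 hq3 hx hy hz hcop hle heq hCp hCq
  have hp0 : (0 : ℝ) < p := by exact_mod_cast hp.pos
  have hq0 : (0 : ℝ) < q := by exact_mod_cast hq.pos
  have hp3R : (3 : ℝ) ≤ p := by exact_mod_cast hp3
  have hq3R : (3 : ℝ) ≤ q := by exact_mod_cast hq3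
  have hx0 : (0 : ℝ) < x := by exact_mod_cast hx
  have hy0 : (0 : ℝ) < y := by exact_mod_cast hy
  have hz0 : (0 : ℝ) < z := by exact_mod_cast hz
  have hl2 : (0.693 : ℝ) < Real.log 2 := by linarith [Real.log_two_gt_d9]
  have hl2' : Real.log 2 < (0.694 : ℝ) := by linarith [Real.log_two_lt_d9]
  obtain ⟨M, hM⟩ : ∃ M : ℝ, M = p * Real.log x := ⟨_, rfl⟩
  obtain ⟨D, hD⟩ : ∃ D : ℝ, D = p * Real.log x - p * q * Real.log z := ⟨_, rfl⟩
  obtain ⟨Lg, hLg⟩ : ∃ Lg : ℝ, Lg = 1 + Real.log ((p : ℝ) * q) := ⟨_, rfl⟩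
  obtain ⟨h, hh⟩ : ∃ h : ℝ, h = 4 * M / (p * q) := ⟨_, rfl⟩
  have hlogp : 0 ≤ Real.log p := Real.log_nonneg (by linarith)
  have hlogq : 0 ≤ Real.log q := Real.log_nonneg (by linarith)
  have hLg' : Lg = 1 + Real.log p + Real.log q := by
    rw [hLg, Real.log_mul hp0.ne' hq0.ne']; ring
  have hLg1 : 1 ≤ Lg := by linarith
  rw [← hLg] at hCp hCq
  have hCC : 0 ≤ Lg ^ 10 := by positivity
  have hCap : Ca * Lg ^ 10 ≤ p := by nlinarith
  have hCaq : Ca * Lg ^ 10 ≤ q := by nlinarith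
  have hClp : Cl * Lg ^ 10 ≤ p := by nlinarith
  have hClq : Cl * Lg ^ 10 ≤ q := by nlinarith
  have hLgp2 : Ca * Lg ^ 2 ≤ p := by
    refine le_trans ?_ hCap
    apply mul_le_mul_of_nonneg_left _ (by linarith)
    exact pow_le_pow_right₀ hLg1 (by norm_num)
  have hLgq2 : Ca * Lg ^ 2 ≤ q := by
    refine le_trans ?_ hCaq
    apply mul_le_mul_of_nonneg_left _ (by linarith)
    exact pow_le_pow_right₀ hLg1 (by norm_num)
  have hLgp : Lg ≤ p := by nlinarith [le_self_pow₀ hLg1 (show 2 ≠ 0 by norm_num)]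
  have hLgq : Lg ≤ q := by nlinarith [le_self_pow₀ hLg1 (show 2 ≠ 0 by norm_num)]
  -- arithmetic
  have hzqx : z ^ q < x := by
    have h1 : (z ^ q) ^ p < x ^ p := by
      rw [← pow_mul, mul_comm q p, ← heq]
      have : 0 < y ^ q := by positivity
      omega
    exact lt_of_pow_lt_pow_left₀ p (Nat.zero_le _) h1
  have hzpy : z ^ p ≤ y := by
    have h1 : (z ^ p) ^ q ≤ y ^ q := by rwa [← pow_mul]
    exact le_of_not_gt fun h2 => absurd h1 (not_le.mpr (Nat.pow_lt_pow_left h2 hq.ne_zero))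
  have hzq1 : 1 ≤ z ^ q := Nat.one_le_pow _ _ hz
  have hzp1 : 1 ≤ z ^ p := Nat.one_le_pow _ _ hz
  have hcyz : Nat.Coprime y z := by
    have h1 : Nat.Coprime (x ^ p) (z ^ (p * q)) := Nat.Coprime.pow _ _ hcop
    rw [← heq, Nat.coprime_add_self_left] at h1
    exact (Nat.coprime_pow_left_iff hq.pos _ _).mp
      ((Nat.coprime_pow_right_iff (Nat.mul_pos hp.pos hq.pos) _ _).mp h1)
  -- factorisations
  have hA : ∃ (U : ℕ) (κ : ℝ), 1 ≤ U ∧ Real.log ((x : ℝ) - (z : ℝ) ^ q) = q * Real.log U - κ ∧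
      ((κ = 0 ∧ x = z ^ q + U ^ q) ∨ κ = Real.log p) := by
    rcases hAbm p x (z ^ q) y q hp hp3 (hcop.pow_right q) hzq1 hzqx hq.pos
      (by rw [← pow_mul, mul_comm q p]; omega) with ⟨U, v, -, h1, -, -⟩ | ⟨U, v, -, h1, -⟩
    · have hU : 1 ≤ U := by
        rcases Nat.eq_zero_or_pos U with h0 | h0
        · subst h0
          rw [zero_pow hq.ne_zero] at h1
          omega
        · exact h0
      refine ⟨U, 0, hU, ?_, Or.inl ⟨rfl, h1⟩⟩
      have h2 : (x : ℝ) - (z : ℝ) ^ q = (U : ℝ) ^ q := by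
        rw [h1]; push_cast; ring
      rw [h2, Real.log_pow]; ring
    · have hU : 1 ≤ U := by
        rcases Nat.eq_zero_or_pos U with h0 | h0
        · subst h0
          rw [zero_pow hq.ne_zero, add_zero] at h1
          have := Nat.eq_of_mul_eq_mul_left hp.pos h1
          omega
        · exact h0
      refine ⟨U, Real.log p, hU, ?_, Or.inr rfl⟩
      have h2 : (x : ℝ) - (z : ℝ) ^ q = (U : ℝ) ^ q / p := by
        have h3 : (p : ℝ) * x = p * (z : ℝ) ^ q + (U : ℝ) ^ q := by exact_mod_cast h1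
        rw [eq_div_iff hp0.ne']
        linarith
      have hU0 : (0 : ℝ) < U := by exact_mod_cast hU
      rw [h2, Real.log_div (by positivity) hp0.ne', Real.log_pow]
  have hB : ∃ (S : ℕ) (κ : ℝ), 1 ≤ S ∧ Real.log ((y : ℝ) + (z : ℝ) ^ p) = p * Real.log S - κ ∧
      2 ^ p ≤ y + z ^ p ∧ ((κ = 0 ∧ y + z ^ p = S ^ p) ∨ κ = Real.log q) := by
    rcases hAbp q y (z ^ p) x p hq hq3 (hcyz.pow_right p) hzp1 hy hp.pos
      (by rw [← pow_mul]; omega) with ⟨S, h1⟩ | ⟨S, h0, h1⟩
    · have hS : 2 ≤ S := by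
        by_contra hc
        have h3 : S ^ p ≤ 1 := by
          calc S ^ p ≤ 1 ^ p := Nat.pow_le_pow_left (by omega) p
            _ = 1 := one_pow p
        omega
      refine ⟨S, 0, by omega, ?_, ?_, Or.inl ⟨rfl, h1⟩⟩
      · have h2 : (y : ℝ) + (z : ℝ) ^ p = (S : ℝ) ^ p := by exact_mod_cast h1
        rw [h2, Real.log_pow]; ring
      · rw [h1]; exact Nat.pow_le_pow_left hS p
    · obtain ⟨s, rfl⟩ := h0
      have hs : 1 ≤ s := by
        rcases Nat.eq_zero_or_pos s with h0 | h0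
        · subst h0
          rw [mul_zero, zero_pow hp.ne_zero] at h1
          have h2 : 0 < q * (y + z ^ p) := Nat.mul_pos hq.pos (by omega)
          omega
        · exact h0
      refine ⟨q * s, Real.log q, Nat.mul_pos hq.pos hs, ?_, ?_, Or.inr rfl⟩
      · have h2 : (y : ℝ) + (z : ℝ) ^ p = ((q * s : ℕ) : ℝ) ^ p / q := by
          have h3 : (q : ℝ) * (y + (z : ℝ) ^ p) = ((q * s : ℕ) : ℝ) ^ p := by exact_mod_cast h1
          rw [eq_div_iff hq0.ne']
          linarith
        have hS0 : (0 : ℝ) < ((q * s : ℕ) : ℝ) := by exact_mod_cast Nat.mul_pos hq.pos hs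
        rw [h2, Real.log_div (by positivity) hq0.ne', Real.log_pow]
      · have h4 : q * (y + z ^ p) = q * (q ^ (p - 1) * s ^ p) := by
          rw [h1, mul_pow, ← mul_assoc, mul_comm q (q ^ (p - 1)), ← pow_succ]
          congr 2
          have := hp.pos
          omega
        have h5 := Nat.eq_of_mul_eq_mul_left hq.pos h4
        rw [h5]
        calc 2 ^ p ≤ 3 ^ (p - 1) := three_pow_ge hp3
          _ ≤ q ^ (p - 1) := Nat.pow_le_pow_left hq3 _
          _ ≤ q ^ (p - 1) * s ^ p := Nat.le_mul_of_pos_right _ (Nat.pow_pos hs)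
  obtain ⟨U, κ₁, hU1, hlogU, hκ₁⟩ := hA
  obtain ⟨S, κ₂, hS1, hlogS, h2p, hκ₂⟩ := hB
  -- sizes
  have hqy : (q : ℝ) * Real.log y ≤ M := by
    have h1 : y ^ q ≤ x ^ p := by omega
    have h2 : ((y : ℝ)) ^ q ≤ (x : ℝ) ^ p := by exact_mod_cast h1
    have h3 := Real.log_le_log (by positivity) h2
    rwa [Real.log_pow, Real.log_pow, ← hM] at h3
  have hlogb : Real.log ((y : ℝ) + (z : ℝ) ^ p) ≤ Real.log 2 + Real.log y := by
    rw [← Real.log_mul (by norm_num) hy0.ne']
    apply Real.log_le_log (by positivity)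
    have : (z : ℝ) ^ p ≤ y := by exact_mod_cast hzpy
    linarith
  have hlogb2 : (p : ℝ) * Real.log 2 ≤ Real.log ((y : ℝ) + (z : ℝ) ^ p) := by
    rw [← Real.log_pow]
    apply Real.log_le_log (by positivity)
    exact_mod_cast h2p
  have hMlow : 0.46 * ((p : ℝ) * q) ≤ M := by
    have h1 : ((p : ℝ) - 1) * Real.log 2 ≤ Real.log y := by linarith
    have h2 : (2 / 3 * p) * 0.693 ≤ ((p : ℝ) - 1) * Real.log 2 := by nlinarith
    have h3 : (q : ℝ) * ((2 / 3 * p) * 0.693) ≤ q * Real.log y :=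
      mul_le_mul_of_nonneg_left (by linarith) hq0.le
    nlinarith [mul_pos hp0 hq0]
  have hpq0 : (0 : ℝ) < p * q := by positivity
  have hh1 : 1.84 ≤ h := by
    rw [hh, le_div_iff₀ hpq0]; linarith
  have hloga : Real.log ((x : ℝ) - (z : ℝ) ^ q) ≤ Real.log x := by
    apply Real.log_le_log
    · have : (z : ℝ) ^ q < x := by exact_mod_cast hzqx
      linarith
    · have : (0 : ℝ) < (z : ℝ) ^ q := by positivity
      linarith
  have hκ₁' : κ₁ ≤ Real.log p := by
    rcases hκ₁ with h1 | h1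
    · rw [h1.1]; exact hlogp
    · exact h1.le
  have hκ₂' : κ₂ ≤ Real.log q := by
    rcases hκ₂ with h1 | h1
    · rw [h1.1]; exact hlogq
    · exact h1.le
  have hUh : Real.log U ≤ h := by
    have h1 : (p : ℝ) * (q * Real.log U) ≤ M + p * Lg := by
      have h2 : (q : ℝ) * Real.log U ≤ Real.log x + Lg := by linarith
      have h3 := mul_le_mul_of_nonneg_left h2 hp0.le
      rw [hM]; linarith
    have h2 : (p : ℝ) * Lg ≤ p * q := mul_le_mul_of_nonneg_left hLgq hp0.le
    rw [hh, le_div_iff₀ hpq0]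
    nlinarith
  have hSh : Real.log S ≤ h := by
    have h1 : (q : ℝ) * (p * Real.log S) ≤ M + q * Lg := by
      have h2 : (p : ℝ) * Real.log S ≤ Real.log y + Lg := by linarith
      have h3 := mul_le_mul_of_nonneg_left h2 hq0.le
      linarith
    have h2 : (q : ℝ) * Lg ≤ q * p := mul_le_mul_of_nonneg_left hLgp hq0.le
    rw [hh, le_div_iff₀ hpq0]
    nlinarith
  -- the linear form
  obtain ⟨lam, hlam⟩ : ∃ lam : ℝ, lam = (p : ℝ) * Real.log ((x : ℝ) - (z : ℝ) ^ q)
    - q * Real.log ((y : ℝ) + (z : ℝ) ^ p) := ⟨_, rfl⟩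
  have hlam' : lam = p * q * (Real.log U - Real.log S) - p * κ₁ + q * κ₂ := by
    rw [hlam, hlogU, hlogS]; ring
  have hLg13 : 1 ≤ Lg ^ 13 := one_le_pow₀ hLg1
  have hlow : Real.exp (-((Ca + Cl) * h * Lg ^ 13)) ≤ |lam| := by
    rcases hκ₁ with ⟨hk1, hxU⟩ | hk1
    · rcases hκ₂ with ⟨hk2, hyS⟩ | hk2
      · -- both trivial
        have hUS : U ≠ S := by
          intro hc
          have h1 : (U ^ q) ^ p + (z ^ q) ^ p ≤ (U ^ q + z ^ q) ^ p :=
            pow_add_pow_le (Nat.zero_le _) (Nat.zero_le _) hp.ne_zero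
          rw [add_comm (U ^ q) (z ^ q), ← hxU, ← heq, ← pow_mul z q p, mul_comm q p] at h1
          have h2 : (U ^ q) ^ p ≤ y ^ q := by omega
          have h3 : (U ^ q) ^ p = (S ^ p) ^ q := by
            rw [hc, ← pow_mul, ← pow_mul, mul_comm]
          rw [h3, ← hyS] at h2
          have h4 : y ^ q < (y + z ^ p) ^ q := Nat.pow_lt_pow_left (by omega) hq.ne_zero
          omega
        have h1 := log_gap hU1 hS1 hUS hUh hSh
        have h2 : |lam| = (p * q) * |Real.log U - Real.log S| := by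
          rw [hlam', hk1, hk2, mul_zero, mul_zero, sub_zero, add_zero, abs_mul,
            abs_of_pos hpq0]
        rw [h2]
        have h3 : Real.exp (-((Ca + Cl) * h * Lg ^ 13)) ≤ Real.exp (-h) := by
          apply Real.exp_le_exp.mpr
          have h4 : h ≤ (Ca + Cl) * h * Lg ^ 13 := by
            have h5 : h ≤ (Ca + Cl) * h := by nlinarith
            exact h5.trans (le_mul_of_one_le_right (by linarith) hLg13)
          linarith
        have h4 : (1 : ℝ) ≤ p * q := by nlinarith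
        calc Real.exp (-((Ca + Cl) * h * Lg ^ 13)) ≤ _ := h3
          _ ≤ _ := h1
          _ ≤ _ := le_mul_of_one_le_left (abs_nonneg _) h4
      · -- only kappa2
        have h1 := hArq S U q 1 p h Lg hS1 hU1 hq.two_le le_rfl hp.pos (Nat.coprime_one_right p)
          (by linarith) hLg1 hSh hUh (by linarith) (by push_cast; nlinarith)
          (by
            have h2 : 1 + Real.log p ≤ Lg := by linarith
            calc Ca * Lg * (1 + Real.log p) ≤ Ca * Lg * Lg :=
                  mul_le_mul_of_nonneg_left h2 (by nlinarith)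
              _ = Ca * Lg ^ 2 := by ring
              _ ≤ p := hLgp2)
        have h2 : |lam| = q * |(p : ℝ) * (Real.log S - Real.log U) - (1 : ℕ) * Real.log q| := by
          rw [hlam', hk1, hk2, ← abs_of_pos hq0, ← abs_mul, ← abs_neg, abs_of_pos hq0]
          congr 1
          push_cast
          ring
        rw [h2]
        refine le_trans ?_ (le_mul_of_one_le_left (abs_nonneg _) (by linarith))
        refine le_trans ?_ h1
        apply Real.exp_le_exp.mpr
        apply neg_le_neg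
        have h3 : (1 + Real.log p) ^ 2 ≤ Lg ^ 12 := by
          calc (1 + Real.log p) ^ 2 ≤ Lg ^ 2 := by
                apply pow_le_pow_left₀ (by linarith); linarith
            _ ≤ Lg ^ 12 := pow_le_pow_right₀ hLg1 (by norm_num)
        calc Ca * (h * Lg) * (1 + Real.log p) ^ 2 ≤ Ca * (h * Lg) * Lg ^ 12 :=
              mul_le_mul_of_nonneg_left h3 (by positivity)
          _ = Ca * (h * Lg ^ 13) := by ring
          _ ≤ (Ca + Cl) * (h * Lg ^ 13) := by
              apply mul_le_mul_of_nonneg_right (by linarith)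
              positivity
          _ = _ := by ring
    · rcases hκ₂ with ⟨hk2, hyS⟩ | hk2
      · -- only kappa1
        have h1 := hArq U S p 1 q h Lg hU1 hS1 hp.two_le le_rfl hq.pos (Nat.coprime_one_right q)
          (by linarith) hLg1 hUh hSh (by linarith) (by push_cast; nlinarith)
          (by
            have h2 : 1 + Real.log q ≤ Lg := by linarith
            calc Ca * Lg * (1 + Real.log q) ≤ Ca * Lg * Lg :=
                  mul_le_mul_of_nonneg_left h2 (by nlinarith)
              _ = Ca * Lg ^ 2 := by ring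
              _ ≤ q := hLgq2)
        have h2 : |lam| = p * |(q : ℝ) * (Real.log U - Real.log S) - (1 : ℕ) * Real.log p| := by
          rw [hlam', hk1, hk2, ← abs_of_pos hp0, ← abs_mul, abs_of_pos hp0]
          congr 1
          push_cast
          ring
        rw [h2]
        refine le_trans ?_ (le_mul_of_one_le_left (abs_nonneg _) (by linarith))
        refine le_trans ?_ h1
        apply Real.exp_le_exp.mpr
        apply neg_le_neg
        have h3 : (1 + Real.log q) ^ 2 ≤ Lg ^ 12 := by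
          calc (1 + Real.log q) ^ 2 ≤ Lg ^ 2 := by
                apply pow_le_pow_left₀ (by linarith); linarith
            _ ≤ Lg ^ 12 := pow_le_pow_right₀ hLg1 (by norm_num)
        calc Ca * (h * Lg) * (1 + Real.log q) ^ 2 ≤ Ca * (h * Lg) * Lg ^ 12 :=
              mul_le_mul_of_nonneg_left h3 (by positivity)
          _ = Ca * (h * Lg ^ 13) := by ring
          _ ≤ (Ca + Cl) * (h * Lg ^ 13) := by
              apply mul_le_mul_of_nonneg_right (by linarith)
              positivity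
          _ = _ := by ring
      · -- three logarithms
        have h1 := hLf3 U S p q h hU1 hS1 hp hq hpq (by linarith) hUh hSh
          (by rw [← hLg]; exact hClp) (by rw [← hLg]; exact hClq)
        rw [← hLg] at h1
        rw [hlam', hk1, hk2]
        refine le_trans ?_ h1
        apply Real.exp_le_exp.mpr
        apply neg_le_neg
        have h3 : 0 ≤ Ca * h * Lg ^ 13 := by positivity
        nlinarith
  -- conclusion
  have hPQ : ((max p q : ℕ) : ℝ) * ((min p q : ℕ) : ℝ) = p * q := by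
    rw [← Nat.cast_mul, max_mul_min, Nat.cast_mul]
  have hP3 : (3 : ℝ) ≤ ((max p q : ℕ) : ℝ) := by
    have : 3 ≤ max p q := le_max_of_le_left hp3
    exact_mod_cast this
  have hQ3 : (3 : ℝ) ≤ ((min p q : ℕ) : ℝ) := by
    have : 3 ≤ min p q := le_min hp3 hq3
    exact_mod_cast this
  have hpP : (p : ℝ) ≤ ((max p q : ℕ) : ℝ) := by exact_mod_cast le_max_left p q
  have hqP : (q : ℝ) ≤ ((max p q : ℕ) : ℝ) := by exact_mod_cast le_max_right p q
  rw [← hD, ← hM]
  by_cases hD2 : Real.exp (-(D / p)) ≤ 1 / 2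
  · have hup := lam_upper p q x y z _ hp.pos hq.pos hx hy hz hle heq hpP hqP D hD hD2
    rw [← hlam] at hup
    refine stb_num _ _ M D (Ca + Cl) |lam| hP3 hQ3 (by exact_mod_cast min_le_max) (by linarith)
      (by rw [hPQ]; exact hMlow) ?_ hup
    rw [hPQ, ← hh, ← hLg]
    exact hlow
  · push Not at hD2
    exact stb_easy _ _ M D (Ca + Cl) p hP3 hQ3 (by linarith) hp0 hpP (by rw [hPQ]; exact hMlow) hD2

end Pool.Agent.Work.MP_2738db_nt_Y.helper63
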