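import Pool.Agent.Work.MP_2738db_nt_Y.Interface3
import Pool.Agent.Work.MP_2738db_nt_Y_helper63.STB

set_option autoImplicit false

/-!
Block STBR of theorem Y (MP_2738db_nt, helper63): `r`-adic three logarithms.
-/

namespace Pool.Agent.Work.MP_2738db_nt_Y.helper63

open Finset Polynomial

theorem abp_use (hAbp : Stmt_Abp) {r A B w t : ℕ} (hr : r.Prime) (hr3 : 3 ≤ r)
    (hAB : Nat.Coprime A B) (hB : 1 ≤ B) (hA : 1 ≤ A) (ht : 1 ≤ t)
    (h : A ^ r + B ^ r = w ^ t) :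
    ∃ U κ : ℕ, 1 ≤ U ∧ (κ = 1 ∨ (κ = r ∧ r ∣ U)) ∧ κ * (A + B) = U ^ t := by
  rcases hAbp r A B w t hr hr3 hAB hB hA ht h with ⟨U, h1⟩ | ⟨U, h0, h1⟩
  · refine ⟨U, 1, ?_, Or.inl rfl, by rw [one_mul]; exact h1⟩
    rcases Nat.eq_zero_or_pos U with h2 | h2
    · rw [h2, zero_pow (by omega)] at h1; omega
    · exact h2
  · refine ⟨U, r, ?_, Or.inr ⟨rfl, h0⟩, h1⟩
    rcases Nat.eq_zero_or_pos U with h2 | h2
    · rw [h2, zero_pow (by omega)] at h1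
      have := Nat.mul_pos hr.pos (show 0 < A + B by omega)
      omega
    · exact h2

theorem abm_use (hAbm : Stmt_Abm) {r A B w t : ℕ} (hr : r.Prime) (hr3 : 3 ≤ r)
    (hAB : Nat.Coprime A B) (hB : 1 ≤ B) (hA : B < A) (ht : 1 ≤ t)
    (h : B ^ r + w ^ t = A ^ r) :
    ∃ U κ : ℕ, 1 ≤ U ∧ (κ = 1 ∨ (κ = r ∧ r ∣ U)) ∧ κ * A = κ * B + U ^ t := by
  rcases hAbm r A B w t hr hr3 hAB hB hA ht h with ⟨U, v, -, h1, -, -⟩ | ⟨U, v, h0, h1, -⟩
  · refine ⟨U, 1, ?_, Or.inl rfl, by rw [one_mul, one_mul]; exact h1⟩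
    rcases Nat.eq_zero_or_pos U with h2 | h2
    · rw [h2, zero_pow (by omega)] at h1; omega
    · exact h2
  · refine ⟨U, r, ?_, Or.inr ⟨rfl, h0⟩, h1⟩
    rcases Nat.eq_zero_or_pos U with h2 | h2
    · rw [h2, zero_pow (by omega), add_zero] at h1
      have := Nat.eq_of_mul_eq_mul_left hr.pos h1
      omega
    · exact h2

/-- the relation between `κ a`, `Z` and `u` -/
def Rl (κ a Z u : ℕ) : Prop := κ * (a + Z) = u ∨ κ * a = κ * Z + u ∨ κ * Z = κ * a + u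

theorem Rl.le {κ a Z u : ℕ} (h : Rl κ a Z u) : u ≤ κ * (a + Z) := by
  rcases h with h | h | h
  · exact h.ge
  · rw [mul_add]; omega
  · rw [mul_add]; omega

theorem Rl.dvd {κ a Z u : ℕ} (h : Rl κ a Z u) :
    (Z : ℤ) ∣ ((κ : ℤ) * a) ^ 2 - (u : ℤ) ^ 2 := by
  rcases h with h | h | h
  · have h1 : (κ : ℤ) * (a + Z) = u := by exact_mod_cast h
    rw [← h1]
    exact ⟨-(κ * (2 * κ * a + κ * Z)), by ring⟩
  · have h1 : (κ : ℤ) * a = κ * Z + u := by exact_mod_cast h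
    rw [h1]
    exact ⟨κ * (κ * Z + 2 * u), by ring⟩
  · have h1 : (κ : ℤ) * Z = κ * a + u := by exact_mod_cast h
    have h2 : (u : ℤ) = κ * Z - κ * a := by linarith
    rw [h2]
    exact ⟨κ * (2 * κ * a - κ * Z), by ring⟩

theorem stbr_data (hAbm : Stmt_Abm) (hAbp : Stmt_Abp) {p q x y z : ℕ} (hp : p.Prime)
    (hq : q.Prime) (hp3 : 3 ≤ p) (hq3 : 3 ≤ q) (hx : 1 ≤ x) (hy : 1 ≤ y) (hz : 2 ≤ z)
    (hxz : Nat.Coprime x z) (hyz : Nat.Coprime y z)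
    (heq : x ^ p + z ^ (p * q) = y ^ q ∨ z ^ (p * q) + y ^ q = x ^ p ∨
      y ^ q + x ^ p = z ^ (p * q)) :
    ∃ U S κ₁ κ₂ : ℕ, 1 ≤ U ∧ 1 ≤ S ∧ (κ₁ = 1 ∨ (κ₁ = p ∧ p ∣ U)) ∧
      (κ₂ = 1 ∨ (κ₂ = q ∧ q ∣ S)) ∧ Rl κ₁ x (z ^ q) (U ^ q) ∧ Rl κ₂ y (z ^ p) (S ^ p) ∧
      (κ₁ = 1 → κ₂ = 1 → U ≠ S) := by
  have e1 : (z ^ q) ^ p = z ^ (p * q) := by rw [← pow_mul, mul_comm]
  have e2 : (z ^ p) ^ q = z ^ (p * q) := by rw [← pow_mul]
  have hzq : 1 ≤ z ^ q := Nat.one_le_pow _ _ (by omega)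
  have hzp : 1 ≤ z ^ p := Nat.one_le_pow _ _ (by omega)
  have hzpq : 0 < z ^ (p * q) := Nat.pow_pos (by omega)
  have hyq : 0 < y ^ q := Nat.pow_pos hy
  have hxp : 0 < x ^ p := Nat.pow_pos hx
  have hxq : Nat.Coprime x (z ^ q) := hxz.pow_right q
  have hyp : Nat.Coprime y (z ^ p) := hyz.pow_right p
  rcases heq with h | h | h
  · -- x ^ p + z ^ (p q) = y ^ q
    obtain ⟨U, κ₁, hU, hk1, h1⟩ := abp_use hAbp hp hp3 hxq hzq hx hq.pos
      (show x ^ p + (z ^ q) ^ p = y ^ q by rw [e1]; exact h)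
    have hlt : z ^ p < y := by
      apply lt_of_pow_lt_pow_left₀ q (Nat.zero_le _)
      rw [e2]; omega
    obtain ⟨S, κ₂, hS, hk2, h2⟩ := abm_use hAbm hq hq3 hyp hzp hlt hp.pos
      (show (z ^ p) ^ q + x ^ p = y ^ q by rw [e2]; omega)
    refine ⟨U, S, κ₁, κ₂, hU, hS, hk1, hk2, Or.inl h1, Or.inr (Or.inl h2), ?_⟩
    rintro rfl rfl hUS
    rw [one_mul] at h1
    rw [one_mul, one_mul] at h2
    have h3 : (S ^ p) ^ q + (z ^ p) ^ q ≤ (S ^ p + z ^ p) ^ q :=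
      pow_add_pow_le (Nat.zero_le _) (Nat.zero_le _) hq.ne_zero
    rw [add_comm (S ^ p), ← h2, ← h, e2] at h3
    have h4 : x ^ p < (x + z ^ q) ^ p := Nat.pow_lt_pow_left (by omega) hp.ne_zero
    rw [h1, hUS, ← pow_mul, mul_comm q p, pow_mul] at h4
    omega
  · -- z ^ (p q) + y ^ q = x ^ p
    obtain ⟨S, κ₂, hS, hk2, h2⟩ := abp_use hAbp hq hq3 hyp hzp hy hp.pos
      (show y ^ q + (z ^ p) ^ q = x ^ p by rw [e2]; omega)
    have hlt : z ^ q < x := by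
      apply lt_of_pow_lt_pow_left₀ p (Nat.zero_le _)
      rw [e1]; omega
    obtain ⟨U, κ₁, hU, hk1, h1⟩ := abm_use hAbm hp hp3 hxq hzq hlt hq.pos
      (show (z ^ q) ^ p + y ^ q = x ^ p by rw [e1]; exact h)
    refine ⟨U, S, κ₁, κ₂, hU, hS, hk1, hk2, Or.inr (Or.inl h1), Or.inl h2, ?_⟩
    rintro rfl rfl hUS
    rw [one_mul] at h2
    rw [one_mul, one_mul] at h1
    have h3 : (U ^ q) ^ p + (z ^ q) ^ p ≤ (U ^ q + z ^ q) ^ p :=
      pow_add_pow_le (Nat.zero_le _) (Nat.zero_le _) hp.ne_zero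
    rw [add_comm (U ^ q), ← h1, ← h, e1] at h3
    have h4 : y ^ q < (y + z ^ p) ^ q := Nat.pow_lt_pow_left (by omega) hq.ne_zero
    rw [h2, ← hUS, ← pow_mul, mul_comm p q, pow_mul] at h4
    omega
  · -- y ^ q + x ^ p = z ^ (p q)
    have hlt1 : x < z ^ q := by
      apply lt_of_pow_lt_pow_left₀ p (Nat.zero_le _)
      rw [e1]; omega
    have hlt2 : y < z ^ p := by
      apply lt_of_pow_lt_pow_left₀ q (Nat.zero_le _)
      rw [e2]; omega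
    obtain ⟨U, κ₁, hU, hk1, h1⟩ := abm_use hAbm hp hp3 hxq.symm hx hlt1 hq.pos
      (show x ^ p + y ^ q = (z ^ q) ^ p by rw [e1]; omega)
    obtain ⟨S, κ₂, hS, hk2, h2⟩ := abm_use hAbm hq hq3 hyp.symm hy hlt2 hp.pos
      (show y ^ q + x ^ p = (z ^ p) ^ q by rw [e2]; exact h)
    refine ⟨U, S, κ₁, κ₂, hU, hS, hk1, hk2, Or.inr (Or.inr h1), Or.inr (Or.inr h2), ?_⟩
    rintro rfl rfl hUS
    rw [one_mul, one_mul] at h1 h2
    -- modulo z ^ 2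
    have hm1 : ((z : ℤ) ^ 2) ∣ (x : ℤ) - (-(U : ℤ) ^ q) := by
      have h3 : (z : ℤ) ^ q = x + (U : ℤ) ^ q := by exact_mod_cast h1
      have h4 : (x : ℤ) - (-(U : ℤ) ^ q) = (z : ℤ) ^ q := by rw [h3]; ring
      rw [h4]
      exact pow_dvd_pow _ (by omega)
    have hm2 : ((z : ℤ) ^ 2) ∣ (y : ℤ) - (-(U : ℤ) ^ p) := by
      have h3 : (z : ℤ) ^ p = y + (U : ℤ) ^ p := by rw [hUS]; exact_mod_cast h2
      have h4 : (y : ℤ) - (-(U : ℤ) ^ p) = (z : ℤ) ^ p := by rw [h3]; ring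
      rw [h4]
      exact pow_dvd_pow _ (by omega)
    have hodd : Odd p := hp.odd_of_ne_two (by omega)
    have hoddq : Odd q := hq.odd_of_ne_two (by omega)
    have hm3 : ((z : ℤ) ^ 2) ∣ (x : ℤ) ^ p - (-(U : ℤ) ^ (p * q)) := by
      have h3 := hm1.trans (sub_dvd_pow_sub_pow (x : ℤ) (-(U : ℤ) ^ q) p)
      rwa [hodd.neg_pow, ← pow_mul, mul_comm q p] at h3
    have hm4 : ((z : ℤ) ^ 2) ∣ (y : ℤ) ^ q - (-(U : ℤ) ^ (p * q)) := by
      have h3 := hm2.trans (sub_dvd_pow_sub_pow (y : ℤ) (-(U : ℤ) ^ p) q)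
      rwa [hoddq.neg_pow, ← pow_mul] at h3
    have hm5 : ((z : ℤ) ^ 2) ∣ (z : ℤ) ^ (p * q) := pow_dvd_pow _ (by nlinarith)
    have hm6 : ((z : ℤ) ^ 2) ∣ 2 * (U : ℤ) ^ (p * q) := by
      have h3 : (y : ℤ) ^ q + (x : ℤ) ^ p = (z : ℤ) ^ (p * q) := by exact_mod_cast h
      have h4 : 2 * (U : ℤ) ^ (p * q) = ((x : ℤ) ^ p - (-(U : ℤ) ^ (p * q))) +
          ((y : ℤ) ^ q - (-(U : ℤ) ^ (p * q))) - (z : ℤ) ^ (p * q) := by
        rw [← h3]; ring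
      rw [h4]
      exact dvd_sub (dvd_add hm3 hm4) hm5
    have hm7 : z ^ 2 ∣ 2 * U ^ (p * q) := by exact_mod_cast hm6
    have hcz : Nat.Coprime (z ^ 2) (U ^ (p * q)) := by
      apply Nat.Coprime.pow
      have h3 : Nat.Coprime (z ^ q) (U ^ q) := by
        rw [h1, Nat.coprime_add_self_left]
        rw [h1] at hxq
        rwa [Nat.coprime_self_add_right] at hxq
      exact (Nat.coprime_pow_left_iff hq.pos _ _).mp
        ((Nat.coprime_pow_right_iff hq.pos _ _).mp h3)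
    have hm8 := Nat.Coprime.dvd_of_dvd_mul_right hcz hm7
    have hm9 := Nat.le_of_dvd (by norm_num) hm8
    nlinarith

/-- the congruence -/
theorem stbr_cong {p q x y z U S κ₁ κ₂ r V ν : ℕ} (hr : (r : ℤ) ^ ν ∣ (z : ℤ))
    (hVp : V ≤ ν * p) (hVq : V ≤ ν * q)
    (heq : x ^ p + z ^ (p * q) = y ^ q ∨ z ^ (p * q) + y ^ q = x ^ p ∨
      y ^ q + x ^ p = z ^ (p * q)) (hp : 1 ≤ p)
    (h1 : Rl κ₁ x (z ^ q) (U ^ q)) (h2 : Rl κ₂ y (z ^ p) (S ^ p)) :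
    (r : ℤ) ^ V ∣ ((κ₁ : ℤ) * x) ^ 2 - ((U : ℤ) ^ q) ^ 2 ∧
    (r : ℤ) ^ V ∣ ((κ₂ : ℤ) * y) ^ 2 - ((S : ℤ) ^ p) ^ 2 ∧
    (r : ℤ) ^ V ∣ ((U : ℤ) ^ (p * q) * (κ₂ : ℤ) ^ q) ^ 2 -
      ((S : ℤ) ^ (p * q) * (κ₁ : ℤ) ^ p) ^ 2 := by
  have hzq : (r : ℤ) ^ V ∣ (z : ℤ) ^ q := by
    refine (pow_dvd_pow _ hVq).trans ?_
    rw [pow_mul]
    exact pow_dvd_pow_of_dvd hr q
  have hzp : (r : ℤ) ^ V ∣ (z : ℤ) ^ p := by
    refine (pow_dvd_pow _ hVp).trans ?_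
    rw [pow_mul]
    exact pow_dvd_pow_of_dvd hr p
  have hzpq : (r : ℤ) ^ V ∣ (z : ℤ) ^ (p * q) := by
    rw [mul_comm p q, pow_mul]
    exact hzq.trans (dvd_pow_self _ (by omega))
  have d1 : (r : ℤ) ^ V ∣ ((κ₁ : ℤ) * x) ^ 2 - ((U : ℤ) ^ q) ^ 2 := by
    have := h1.dvd
    push_cast at this
    exact hzq.trans this
  have d2 : (r : ℤ) ^ V ∣ ((κ₂ : ℤ) * y) ^ 2 - ((S : ℤ) ^ p) ^ 2 := by
    have := h2.dvd
    push_cast at this
    exact hzp.trans this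
  have d3 : (r : ℤ) ^ V ∣ ((x : ℤ) ^ p) ^ 2 - ((y : ℤ) ^ q) ^ 2 := by
    rcases heq with h | h | h
    · have h3 : (y : ℤ) ^ q = (x : ℤ) ^ p + (z : ℤ) ^ (p * q) := by exact_mod_cast h.symm
      have h4 : ((x : ℤ) ^ p) ^ 2 - ((y : ℤ) ^ q) ^ 2 =
          (z : ℤ) ^ (p * q) * (-(2 * (x : ℤ) ^ p + (z : ℤ) ^ (p * q))) := by rw [h3]; ring
      rw [h4]; exact hzpq.mul_right _
    · have h3 : (x : ℤ) ^ p = (z : ℤ) ^ (p * q) + (y : ℤ) ^ q := by exact_mod_cast h.symm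
      have h4 : ((x : ℤ) ^ p) ^ 2 - ((y : ℤ) ^ q) ^ 2 =
          (z : ℤ) ^ (p * q) * ((z : ℤ) ^ (p * q) + 2 * (y : ℤ) ^ q) := by rw [h3]; ring
      rw [h4]; exact hzpq.mul_right _
    · have h3 : (z : ℤ) ^ (p * q) = (y : ℤ) ^ q + (x : ℤ) ^ p := by exact_mod_cast h.symm
      have h4 : ((x : ℤ) ^ p) ^ 2 - ((y : ℤ) ^ q) ^ 2 =
          (z : ℤ) ^ (p * q) * ((x : ℤ) ^ p - (y : ℤ) ^ q) := by rw [h3]; ring
      rw [h4]; exact hzpq.mul_right _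
  refine ⟨d1, d2, ?_⟩
  have m1 : ((κ₁ : ℤ) * x) ^ 2 ≡ ((U : ℤ) ^ q) ^ 2 [ZMOD (r : ℤ) ^ V] :=
    (Int.modEq_iff_dvd.2 d1).symm
  have m2 : ((κ₂ : ℤ) * y) ^ 2 ≡ ((S : ℤ) ^ p) ^ 2 [ZMOD (r : ℤ) ^ V] :=
    (Int.modEq_iff_dvd.2 d2).symm
  have m3 : ((x : ℤ) ^ p) ^ 2 ≡ ((y : ℤ) ^ q) ^ 2 [ZMOD (r : ℤ) ^ V] :=
    (Int.modEq_iff_dvd.2 d3).symm
  have m4 := (m1.pow p).symm
  have m5 := m2.pow q
  have hU : (U : ℤ) ^ (p * q) = ((U : ℤ) ^ q) ^ p := by rw [← pow_mul, mul_comm]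
  have hS : (S : ℤ) ^ (p * q) = ((S : ℤ) ^ p) ^ q := by rw [← pow_mul]
  have m6 : ((U : ℤ) ^ (p * q) * (κ₂ : ℤ) ^ q) ^ 2 ≡
      ((S : ℤ) ^ (p * q) * (κ₁ : ℤ) ^ p) ^ 2 [ZMOD (r : ℤ) ^ V] := by
    calc ((U : ℤ) ^ (p * q) * (κ₂ : ℤ) ^ q) ^ 2
        = (((U : ℤ) ^ q) ^ 2) ^ p * ((κ₂ : ℤ) ^ q) ^ 2 := by
          rw [hU, mul_pow, pow_right_comm ((U : ℤ) ^ q) p 2]
      _ ≡ (((κ₁ : ℤ) * x) ^ 2) ^ p * ((κ₂ : ℤ) ^ q) ^ 2 [ZMOD (r : ℤ) ^ V] := m4.mul_right _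
      _ = ((κ₁ : ℤ) ^ p) ^ 2 * ((κ₂ : ℤ) ^ q) ^ 2 * ((x : ℤ) ^ p) ^ 2 := by
          have e : (((κ₁ : ℤ) * x) ^ 2) ^ p = ((κ₁ : ℤ) ^ p) ^ 2 * ((x : ℤ) ^ p) ^ 2 := by
            rw [← pow_mul, mul_comm 2 p, pow_mul, mul_pow, mul_pow]
          rw [e]; ring
      _ ≡ ((κ₁ : ℤ) ^ p) ^ 2 * ((κ₂ : ℤ) ^ q) ^ 2 * ((y : ℤ) ^ q) ^ 2 [ZMOD (r : ℤ) ^ V] :=
          m3.mul_left _
      _ = (((κ₂ : ℤ) * y) ^ 2) ^ q * ((κ₁ : ℤ) ^ p) ^ 2 := by
          have e : (((κ₂ : ℤ) * y) ^ 2) ^ q = ((κ₂ : ℤ) ^ q) ^ 2 * ((y : ℤ) ^ q) ^ 2 := by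
            rw [← pow_mul, mul_comm 2 q, pow_mul, mul_pow, mul_pow]
          rw [e]; ring
      _ ≡ (((S : ℤ) ^ p) ^ 2) ^ q * ((κ₁ : ℤ) ^ p) ^ 2 [ZMOD (r : ℤ) ^ V] := m5.mul_right _
      _ = ((S : ℤ) ^ (p * q) * (κ₁ : ℤ) ^ p) ^ 2 := by
          rw [hS, mul_pow, pow_right_comm ((S : ℤ) ^ p) q 2]
  exact Int.modEq_iff_dvd.1 m6.symm

/-- `r` does not divide `U` and differs from `κ` -/
theorem stbr_ndvd {p x U κ r V e : ℕ} (hr : r.Prime) (hp : p.Prime) (hx : ¬ r ∣ x) (hV : 3 ≤ V)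
    (he : 3 ≤ e) (hκ : κ = 1 ∨ (κ = p ∧ p ∣ U))
    (h : (r : ℤ) ^ V ∣ ((κ : ℤ) * x) ^ 2 - ((U : ℤ) ^ e) ^ 2) :
    ¬ r ∣ U ∧ (κ = p → r ≠ p) := by
  have hrZ : Prime (r : ℤ) := Nat.prime_iff_prime_int.mp hr
  have hxZ : ¬ (r : ℤ) ∣ (x : ℤ) := by
    intro hc
    exact hx (by exact_mod_cast hc)
  have key : r ∣ U → (r : ℤ) ^ 3 ∣ ((κ : ℤ) * x) ^ 2 := by
    intro hU
    have h1 : (r : ℤ) ^ 3 ∣ ((U : ℤ) ^ e) ^ 2 := by
      have h2 : (r : ℤ) ∣ (U : ℤ) := by exact_mod_cast hU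
      have h3 : (r : ℤ) ^ 3 ∣ (U : ℤ) ^ e := (pow_dvd_pow _ he).trans (pow_dvd_pow_of_dvd h2 e)
      exact h3.trans (dvd_pow_self _ (by norm_num))
    exact (dvd_sub_left h1).1 ((pow_dvd_pow _ hV).trans h)
  have hne : κ = p → p ∣ U → r ≠ p := by
    intro h1 h2 h3
    rw [← h3] at h1 h2
    have h4 := key h2
    rw [h1] at h4
    have h5 : (r : ℤ) ^ 2 * r ∣ (r : ℤ) ^ 2 * (x : ℤ) ^ 2 := by
      have e1 : (r : ℤ) ^ 2 * r = (r : ℤ) ^ 3 := by ring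
      have e2 : (r : ℤ) ^ 2 * (x : ℤ) ^ 2 = ((r : ℤ) * x) ^ 2 := by ring
      rw [e1, e2]; exact h4
    have h6 := (mul_dvd_mul_iff_left (pow_ne_zero 2 hrZ.ne_zero)).1 h5
    exact hxZ (hrZ.dvd_of_dvd_pow h6)
  constructor
  · intro hU
    have h1 : (r : ℤ) ∣ (κ : ℤ) * x :=
      hrZ.dvd_of_dvd_pow ((dvd_pow_self _ (by norm_num)).trans (key hU))
    have h2 := (hrZ.dvd_or_dvd h1).resolve_right hxZ
    have h3 : r ∣ κ := by exact_mod_cast h2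
    rcases hκ with h4 | ⟨h4, h5⟩
    · rw [h4] at h3
      exact hr.one_lt.ne' (Nat.dvd_one.1 h3)
    · rw [h4] at h3
      exact hne h4 h5 ((Nat.prime_dvd_prime_iff_eq hr hp).1 h3)
  · intro h1
    rcases hκ with h4 | ⟨h4, h5⟩
    · exact absurd (h4.symm.trans h1) hp.one_lt.ne
    · exact hne h4 h5

/-- the final computation -/
theorem stbr_num (P Q M C1 Vl r : ℝ) (hP : 3 ≤ P) (hQ : 3 ≤ Q) (hQP : Q ≤ P) (hC1 : 1 ≤ C1)
    (hr : 2 ≤ r) (hM : 0.69 * (P * Q) ≤ M)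
    (hV : Vl ≤ C1 * r ^ 14 * (4 * M / (P * Q)) * (1 + Real.log (P * Q)) ^ 13 +
      (1 + Real.log (P * Q))) :
    P * Vl ≤ (4 * C1 * 3 ^ 13 + 5) * r ^ 14 * (Real.log P ^ 13 / Q) * M := by
  have hP0 : (0 : ℝ) < P := by linarith
  have hQ0 : (0 : ℝ) < Q := by linarith
  have hlP := one_le_log_three hP
  have hM0 : 0 < M := by
    have : 0 < P * Q := by positivity
    linarith
  have hLg : 1 + Real.log (P * Q) ≤ 3 * Real.log P := by
    rw [Real.log_mul hP0.ne' hQ0.ne']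
    have : Real.log Q ≤ Real.log P := Real.log_le_log hQ0 hQP
    linarith
  have hLg0 : 0 ≤ 1 + Real.log (P * Q) := by
    rw [Real.log_mul hP0.ne' hQ0.ne']
    have : 0 ≤ Real.log Q := Real.log_nonneg (by linarith)
    linarith
  have hLg13 : (1 + Real.log (P * Q)) ^ 13 ≤ 3 ^ 13 * Real.log P ^ 13 := by
    calc (1 + Real.log (P * Q)) ^ 13 ≤ (3 * Real.log P) ^ 13 := by gcongr
      _ = _ := by rw [mul_pow]
  have h1 : Vl ≤ C1 * r ^ 14 * (4 * M / (P * Q)) * (3 ^ 13 * Real.log P ^ 13) +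
      3 * Real.log P := by
    have h3 : C1 * r ^ 14 * (4 * M / (P * Q)) * (1 + Real.log (P * Q)) ^ 13 ≤
        C1 * r ^ 14 * (4 * M / (P * Q)) * (3 ^ 13 * Real.log P ^ 13) := by
      apply mul_le_mul_of_nonneg_left hLg13
      positivity
    linarith
  have h2 : P * Vl ≤ P * (C1 * r ^ 14 * (4 * M / (P * Q)) * (3 ^ 13 * Real.log P ^ 13) +
      3 * Real.log P) := mul_le_mul_of_nonneg_left h1 hP0.le
  have h4 : P * (C1 * r ^ 14 * (4 * M / (P * Q)) * (3 ^ 13 * Real.log P ^ 13)) =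
      4 * C1 * 3 ^ 13 * r ^ 14 * (Real.log P ^ 13 / Q) * M := by
    field_simp
  have hr14 : (1 : ℝ) ≤ r ^ 14 := one_le_pow₀ (by linarith)
  have h5 : P * (3 * Real.log P) ≤ 5 * r ^ 14 * (Real.log P ^ 13 / Q) * M := by
    have h6 : Real.log P ≤ Real.log P ^ 13 := le_self_pow₀ hlP (by norm_num)
    have h7 : P ≤ 1.5 * (M / Q) := by
      rw [← mul_div_assoc, le_div_iff₀ hQ0]
      have : 0 < P * Q := by positivity
      linarith
    have h8 : 0 ≤ M / Q := by positivity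
    calc P * (3 * Real.log P) ≤ (1.5 * (M / Q)) * (3 * Real.log P) := by
          apply mul_le_mul_of_nonneg_right h7; linarith
      _ ≤ (1.5 * (M / Q)) * (3 * Real.log P ^ 13) := by
          apply mul_le_mul_of_nonneg_left _ (by positivity); linarith
      _ ≤ 5 * (M / Q) * Real.log P ^ 13 := by
          have : 0 ≤ (M / Q) * Real.log P ^ 13 := by positivity
          nlinarith
      _ ≤ (5 * (M / Q) * Real.log P ^ 13) * r ^ 14 := by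
          apply le_mul_of_one_le_right _ hr14
          positivity
      _ = _ := by ring
  calc P * Vl ≤ _ := h2
    _ = P * (C1 * r ^ 14 * (4 * M / (P * Q)) * (3 ^ 13 * Real.log P ^ 13)) +
        P * (3 * Real.log P) := by ring
    _ ≤ 4 * C1 * 3 ^ 13 * r ^ 14 * (Real.log P ^ 13 / Q) * M +
        5 * r ^ 14 * (Real.log P ^ 13 / Q) * M := by
        rw [h4]; linarith
    _ = _ := by ring

/-- size of the factors -/
theorem stbr_size {p q x z U κ : ℕ} {M Lg : ℝ} (hp : 1 ≤ p) (hq : 1 ≤ q) (hx : 1 ≤ x)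
    (hz : 1 ≤ z) (hU : 1 ≤ U) (hκ : κ ≤ p) (hLg : Real.log p + 1 ≤ Lg) (hLgq : Lg ≤ q)
    (hM : 0.69 * ((p : ℝ) * q) ≤ M) (h : U ^ q ≤ κ * (x + z ^ q))
    (hxM : p * Real.log x ≤ M) (hzM : p * q * Real.log z ≤ M) :
    Real.log U ≤ 4 * M / (p * q) := by
  have hp0 : (0 : ℝ) < p := by exact_mod_cast hp
  have hq0 : (0 : ℝ) < q := by exact_mod_cast hq
  have hx0 : (0 : ℝ) < x := by exact_mod_cast hx
  have hz0 : (0 : ℝ) < z := by exact_mod_cast hz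
  have hU0 : (0 : ℝ) < U := by exact_mod_cast hU
  have hpq0 : (0 : ℝ) < p * q := by positivity
  have hxe : (x : ℝ) ≤ Real.exp (M / p) := by
    rw [← Real.log_le_iff_le_exp hx0, le_div_iff₀' hp0]; exact hxM
  have hze : (z : ℝ) ^ q ≤ Real.exp (M / p) := by
    rw [← Real.log_le_iff_le_exp (by positivity), Real.log_pow, le_div_iff₀' hp0]
    linarith
  have h1 : (U : ℝ) ^ q ≤ p * (2 * Real.exp (M / p)) := by
    have h2 : (U : ℝ) ^ q ≤ κ * (x + (z : ℝ) ^ q) := by exact_mod_cast h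
    have h3 : (κ : ℝ) ≤ p := by exact_mod_cast hκ
    calc (U : ℝ) ^ q ≤ κ * (x + (z : ℝ) ^ q) := h2
      _ ≤ p * (x + (z : ℝ) ^ q) := mul_le_mul_of_nonneg_right h3 (by positivity)
      _ ≤ _ := mul_le_mul_of_nonneg_left (by linarith) hp0.le
  have h2 := Real.log_le_log (by positivity) h1
  rw [Real.log_pow, Real.log_mul hp0.ne' (by positivity), Real.log_mul (by norm_num)
    (Real.exp_pos _).ne', Real.log_exp] at h2
  have hl2 : Real.log 2 ≤ 1 := by linarith [Real.log_two_lt_d9]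
  have h3 : (q : ℝ) * Real.log U ≤ q + M / p := by linarith
  rw [le_div_iff₀ hpq0]
  have h4 : (p : ℝ) * (q * Real.log U) ≤ p * (q + M / p) := mul_le_mul_of_nonneg_left h3 hp0.le
  have h5 : (p : ℝ) * (q + M / p) = p * q + M := by field_simp
  rw [h5] at h4
  nlinarith

theorem stbr_ltr_case (hLtr : Stmt_Ltr) {r U S p q V : ℕ} {h Lg : ℝ} (hr : r.Prime)
    (hrU : ¬ r ∣ U) (hrS : ¬ r ∣ S) (hU1 : 1 ≤ U) (hS1 : 1 ≤ S) (hpq : 1 ≤ p * q)
    (hUS : U ≠ S) (hU : Real.log U ≤ h) (hS : Real.log S ≤ h)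
    (hLg : Real.log (p * q) ≤ Lg) (hh : 0 ≤ h)
    (hd : (r : ℤ) ^ V ∣ (U : ℤ) ^ (2 * (p * q)) - (S : ℤ) ^ (2 * (p * q))) :
    V * Real.log r ≤ 2 * r * h + Lg := by
  obtain ⟨V', h1, h2⟩ := hLtr r U S (p * q) V hr hrU hrS hpq hd
  have hr0 : (0 : ℝ) < r := by exact_mod_cast hr.pos
  have hU0 : (0 : ℝ) < U := by exact_mod_cast hU1
  have hS0 : (0 : ℝ) < S := by exact_mod_cast hS1
  have hne : (U : ℤ) ^ (2 * (r - 1)) - (S : ℤ) ^ (2 * (r - 1)) ≠ 0 := by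
    intro hc
    have h3 : (U : ℤ) ^ (2 * (r - 1)) = (S : ℤ) ^ (2 * (r - 1)) := by linarith
    have h4 : U ^ (2 * (r - 1)) = S ^ (2 * (r - 1)) := by exact_mod_cast h3
    have h5 : 2 * (r - 1) ≠ 0 := by have := hr.two_le; omega
    exact hUS (Nat.pow_left_injective h5 h4)
  have h3 : ((r : ℤ) ^ V') ≤ |(U : ℤ) ^ (2 * (r - 1)) - (S : ℤ) ^ (2 * (r - 1))| := by
    apply Int.le_of_dvd (abs_pos.2 hne)
    rwa [dvd_abs]
  have h4 : ((r : ℝ) ^ V') ≤ Real.exp ((2 * (r - 1 : ℕ) : ℕ) * h) := by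
    have h5 : ((r : ℝ) ^ V') ≤ |(U : ℝ) ^ (2 * (r - 1)) - (S : ℝ) ^ (2 * (r - 1))| := by
      exact_mod_cast h3
    have h6 : (U : ℝ) ^ (2 * (r - 1)) ≤ Real.exp ((2 * (r - 1 : ℕ) : ℕ) * h) := by
      rw [← Real.log_le_iff_le_exp (by positivity), Real.log_pow]
      exact mul_le_mul_of_nonneg_left hU (by positivity)
    have h7 : (S : ℝ) ^ (2 * (r - 1)) ≤ Real.exp ((2 * (r - 1 : ℕ) : ℕ) * h) := by
      rw [← Real.log_le_iff_le_exp (by positivity), Real.log_pow]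
      exact mul_le_mul_of_nonneg_left hS (by positivity)
    have h8 : (0 : ℝ) < (U : ℝ) ^ (2 * (r - 1)) := by positivity
    have h9 : (0 : ℝ) < (S : ℝ) ^ (2 * (r - 1)) := by positivity
    refine h5.trans ?_
    rw [abs_le]
    constructor <;> linarith
  have h5 : ((r : ℝ) ^ V) ≤ ((p * q : ℕ) : ℝ) * (r : ℝ) ^ V' := by exact_mod_cast h2
  have hpq0 : (0 : ℝ) < ((p * q : ℕ) : ℝ) := by exact_mod_cast hpq
  have h6 : ((r : ℝ) ^ V) ≤ ((p * q : ℕ) : ℝ) * Real.exp ((2 * (r - 1 : ℕ) : ℕ) * h) :=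
    h5.trans (mul_le_mul_of_nonneg_left h4 hpq0.le)
  have h7 := Real.log_le_log (by positivity) h6
  rw [Real.log_pow, Real.log_mul hpq0.ne' (Real.exp_pos _).ne', Real.log_exp] at h7
  have h8 : (((2 * (r - 1 : ℕ) : ℕ) : ℝ)) ≤ 2 * r := by
    have : (2 * (r - 1) : ℕ) ≤ 2 * r := by omega
    exact_mod_cast this
  have h9 : ((2 * (r - 1 : ℕ) : ℕ) : ℝ) * h ≤ 2 * r * h := mul_le_mul_of_nonneg_right h8 hh
  push_cast at h7 h9
  linarith

theorem stbr : Stmt_Abm → Stmt_Abp → Stmt_Ltr → Stmt_Arr → Stmt_Lf3r → Stmt_Stbr := by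
  rintro hAbm hAbp hLtr ⟨Ca, hCa1, hArr⟩ ⟨Cl, hCl1, hLf3⟩
  refine ⟨4 * (Ca + Cl + 2) * 3 ^ 13 + 5, by nlinarith, ?_⟩
  intro p q x y z r M hp hq hpq hp3 hq3 hx hy hz hxz hyz hr hrz heqM hCp hCq
  have hz2 : 2 ≤ z := (hr.two_le).trans (Nat.le_of_dvd hz hrz)
  have hp0 : (0 : ℝ) < p := by exact_mod_cast hp.pos
  have hq0 : (0 : ℝ) < q := by exact_mod_cast hq.pos
  have hp3R : (3 : ℝ) ≤ p := by exact_mod_cast hp3
  have hq3R : (3 : ℝ) ≤ q := by exact_mod_cast hq3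
  have hr2R : (2 : ℝ) ≤ r := by exact_mod_cast hr.two_le
  have hx0 : (0 : ℝ) < x := by exact_mod_cast hx
  have hy0 : (0 : ℝ) < y := by exact_mod_cast hy
  have hz0 : (0 : ℝ) < z := by exact_mod_cast hz
  have hpq0 : (0 : ℝ) < p * q := by positivity
  have heq : x ^ p + z ^ (p * q) = y ^ q ∨ z ^ (p * q) + y ^ q = x ^ p ∨
      y ^ q + x ^ p = z ^ (p * q) := by
    rcases heqM with h | h | h
    · exact Or.inl h.1
    · exact Or.inr (Or.inl h.1)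
    · exact Or.inr (Or.inr h.1)
  -- sizes of the terms
  have hterms : p * Real.log x ≤ M ∧ q * Real.log y ≤ M ∧ p * q * Real.log z ≤ M := by
    have l1 : Real.log ((x ^ p : ℕ) : ℝ) = p * Real.log x := by push_cast; rw [Real.log_pow]
    have l2 : Real.log ((y ^ q : ℕ) : ℝ) = q * Real.log y := by push_cast; rw [Real.log_pow]
    have l3 : Real.log ((z ^ (p * q) : ℕ) : ℝ) = p * q * Real.log z := by
      push_cast; rw [Real.log_pow]; push_cast; ring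
    have mono : ∀ a b : ℕ, 1 ≤ a → a ≤ b → Real.log (a : ℝ) ≤ Real.log (b : ℝ) := by
      intro a b ha hab
      apply Real.log_le_log (by exact_mod_cast ha)
      exact_mod_cast hab
    have hxp : 1 ≤ x ^ p := Nat.one_le_pow _ _ hx
    have hyq : 1 ≤ y ^ q := Nat.one_le_pow _ _ hy
    have hzz : 1 ≤ z ^ (p * q) := Nat.one_le_pow _ _ hz
    rw [← l1, ← l2, ← l3]
    rcases heqM with ⟨h, hM⟩ | ⟨h, hM⟩ | ⟨h, hM⟩
    · rw [← Nat.cast_pow] at hM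
      rw [hM]
      exact ⟨mono _ _ hxp (by omega), le_rfl, mono _ _ hzz (by omega)⟩
    · rw [← Nat.cast_pow] at hM
      rw [hM]
      exact ⟨le_rfl, mono _ _ hyq (by omega), mono _ _ hzz (by omega)⟩
    · rw [← Nat.cast_pow] at hM
      rw [hM]
      exact ⟨mono _ _ hxp (by omega), mono _ _ hyq (by omega), le_rfl⟩
  obtain ⟨hxM, hyM, hzM⟩ := hterms
  have hl2 : (0.69 : ℝ) < Real.log 2 := by linarith [Real.log_two_gt_d9]
  have hMlow : 0.69 * ((p : ℝ) * q) ≤ M := by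
    have h1 : Real.log 2 ≤ Real.log z := Real.log_le_log (by norm_num) (by exact_mod_cast hz2)
    have h2 : (p : ℝ) * q * 0.69 ≤ p * q * Real.log z :=
      mul_le_mul_of_nonneg_left (by linarith) hpq0.le
    linarith
  obtain ⟨Lg, hLg⟩ : ∃ Lg : ℝ, Lg = 1 + Real.log ((p : ℝ) * q) := ⟨_, rfl⟩
  obtain ⟨h, hh⟩ : ∃ h : ℝ, h = 4 * M / (p * q) := ⟨_, rfl⟩
  have hlogp : 0 ≤ Real.log p := Real.log_nonneg (by linarith)
  have hlogq : 0 ≤ Real.log q := Real.log_nonneg (by linarith)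
  have hLg' : Lg = 1 + Real.log p + Real.log q := by
    rw [hLg, Real.log_mul hp0.ne' hq0.ne']; ring
  have hLg1 : 1 ≤ Lg := by linarith
  rw [← hLg] at hCp hCq
  have hrLg : 1 ≤ r * Lg := by nlinarith
  have hCC : 0 ≤ (r * Lg) ^ 10 := by positivity
  have hCap : Ca * (r * Lg) ^ 10 ≤ p := by nlinarith
  have hCaq : Ca * (r * Lg) ^ 10 ≤ q := by nlinarith
  have hClp : Cl * (r * Lg) ^ 10 ≤ p := by nlinarith
  have hClq : Cl * (r * Lg) ^ 10 ≤ q := by nlinarith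
  have hLgp2 : Ca * (r * Lg) ^ 2 ≤ p := by
    refine le_trans ?_ hCap
    apply mul_le_mul_of_nonneg_left _ (by linarith)
    exact pow_le_pow_right₀ hrLg (by norm_num)
  have hLgq2 : Ca * (r * Lg) ^ 2 ≤ q := by
    refine le_trans ?_ hCaq
    apply mul_le_mul_of_nonneg_left _ (by linarith)
    exact pow_le_pow_right₀ hrLg (by norm_num)
  have hsq : Ca * r * Lg * Lg ≤ Ca * (r * Lg) ^ 2 := by
    have h1 : 0 ≤ Ca * r * Lg * Lg := by positivity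
    have h2 : Ca * (r * Lg) ^ 2 = Ca * r * Lg * Lg * r := by ring
    rw [h2]
    exact le_mul_of_one_le_right h1 (by linarith)
  have hLgsq : Lg ≤ Ca * (r * Lg) ^ 2 := by
    have h1 : Lg ≤ r * Lg := le_mul_of_one_le_left (by linarith) (by linarith)
    have h2 : r * Lg ≤ (r * Lg) ^ 2 := le_self_pow₀ hrLg (by norm_num)
    have h3 : (r * Lg) ^ 2 ≤ Ca * (r * Lg) ^ 2 := le_mul_of_one_le_left (by positivity) hCa1
    linarith
  have hLgp : Lg ≤ p := hLgsq.trans hLgp2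
  have hLgq : Lg ≤ q := hLgsq.trans hLgq2
  have hh1 : 2.76 ≤ h := by
    rw [hh, le_div_iff₀ hpq0]; linarith
  -- data
  obtain ⟨U, S, κ₁, κ₂, hU1, hS1, hκ₁, hκ₂, hR1, hR2, hUS⟩ :=
    stbr_data hAbm hAbp hp hq hp3 hq3 hx hy hz2 hxz hyz heq
  obtain ⟨ν, hν⟩ : ∃ ν, ν = padicValNat r z := ⟨_, rfl⟩
  have : Fact r.Prime := ⟨hr⟩
  have hν1 : 1 ≤ ν := by
    rw [hν]
    exact one_le_padicValNat_of_dvd (by omega) hrz
  have hrν : (r : ℤ) ^ ν ∣ (z : ℤ) := by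
    have : r ^ ν ∣ z := by rw [hν]; exact pow_padicValNat_dvd
    exact_mod_cast this
  obtain ⟨V, hV⟩ : ∃ V, V = ν * min p q := ⟨_, rfl⟩
  have hVp : V ≤ ν * p := by rw [hV]; exact Nat.mul_le_mul_left _ (min_le_left _ _)
  have hVq : V ≤ ν * q := by rw [hV]; exact Nat.mul_le_mul_left _ (min_le_right _ _)
  have hV3 : 3 ≤ V := by
    rw [hV]
    have h1 : 3 ≤ min p q := le_min hp3 hq3
    nlinarith
  obtain ⟨d1, d2, d3⟩ := stbr_cong hrν hVp hVq heq hp.pos hR1 hR2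
  have hrx : ¬ r ∣ x := fun hc => by
    have h1 := Nat.dvd_gcd hc hrz
    rw [hxz] at h1
    exact hr.one_lt.ne' (Nat.dvd_one.1 h1)
  have hry : ¬ r ∣ y := fun hc => by
    have h1 := Nat.dvd_gcd hc hrz
    rw [hyz] at h1
    exact hr.one_lt.ne' (Nat.dvd_one.1 h1)
  obtain ⟨hrU, hrp⟩ := stbr_ndvd hr hp hrx hV3 hq3 hκ₁ d1
  obtain ⟨hrS, hrq⟩ := stbr_ndvd hr hq hry hV3 hp3 hκ₂ d2
  have hκ₁' : κ₁ ≤ p := by
    rcases hκ₁ with h1 | h1
    · rw [h1]; exact hp.pos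
    · exact h1.1.le
  have hκ₂' : κ₂ ≤ q := by
    rcases hκ₂ with h1 | h1
    · rw [h1]; exact hq.pos
    · exact h1.1.le
  have hUh : Real.log U ≤ h := by
    rw [hh]
    exact stbr_size hp.pos hq.pos hx hz hU1 hκ₁' (by linarith) hLgq hMlow hR1.le hxM hzM
  have hSh : Real.log S ≤ h := by
    rw [hh, mul_comm (p : ℝ) q]
    exact stbr_size hq.pos hp.pos hy hz hS1 hκ₂' (by linarith) hLgp
      (by rw [mul_comm (q : ℝ) p]; exact hMlow) hR2.le hyM (by rw [mul_comm (q : ℝ) p]; exact hzM)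
  -- the bound
  have hr14 : (r : ℝ) ≤ r ^ 14 := le_self_pow₀ (by linarith) (by norm_num)
  have hr3 : (r : ℝ) ^ 3 ≤ r ^ 14 := pow_le_pow_right₀ (by linarith) (by norm_num)
  have hLg13 : 1 ≤ Lg ^ 13 := one_le_pow₀ hLg1
  have hbound : V * Real.log r ≤ (Ca + Cl + 2) * r ^ 14 * h * Lg ^ 13 + Lg := by
    have harr : ∀ B' : ℝ, 0 ≤ B' → 1 + B' ≤ Lg →
        Ca * r ^ 3 * (h * Lg) * (1 + B') ^ 2 ≤ (Ca + Cl + 2) * r ^ 14 * h * Lg ^ 13 := by
      intro B' hB0 hB1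
      have h3 : (1 + B') ^ 2 ≤ Lg ^ 12 := by
        calc (1 + B') ^ 2 ≤ Lg ^ 2 := by
              apply pow_le_pow_left₀ (by linarith) hB1
          _ ≤ Lg ^ 12 := pow_le_pow_right₀ hLg1 (by norm_num)
      calc Ca * r ^ 3 * (h * Lg) * (1 + B') ^ 2 ≤ Ca * r ^ 3 * (h * Lg) * Lg ^ 12 :=
            mul_le_mul_of_nonneg_left h3 (by positivity)
        _ = r ^ 3 * (Ca * (h * Lg ^ 13)) := by ring
        _ ≤ r ^ 14 * (Ca * (h * Lg ^ 13)) := mul_le_mul_of_nonneg_right hr3 (by positivity)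
        _ = Ca * (r ^ 14 * h * Lg ^ 13) := by ring
        _ ≤ (Ca + Cl + 2) * (r ^ 14 * h * Lg ^ 13) := by
            apply mul_le_mul_of_nonneg_right (by linarith)
            positivity
        _ = _ := by ring
    rcases hκ₁ with hk1 | ⟨hk1, -⟩
    · rcases hκ₂ with hk2 | ⟨hk2, -⟩
      · -- both trivial
        have h1 := stbr_ltr_case hLtr (V := V) (h := h) (Lg := Lg) hr hrU hrS hU1 hS1
          (Nat.mul_pos hp.pos hq.pos) (hUS hk1 hk2) hUh hSh (by linarith) (by linarith) (by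
            have e1 : (U : ℤ) ^ (2 * (p * q)) - (S : ℤ) ^ (2 * (p * q)) =
                ((U : ℤ) ^ (p * q) * (κ₂ : ℤ) ^ q) ^ 2 -
                ((S : ℤ) ^ (p * q) * (κ₁ : ℤ) ^ p) ^ 2 := by
              rw [hk1, hk2]
              push_cast
              rw [one_pow, one_pow, mul_one, mul_one, ← pow_mul, ← pow_mul, mul_comm 2 (p * q)]
            rw [e1]; exact d3)
        have h2 : 2 * (r : ℝ) * h ≤ (Ca + Cl + 2) * r ^ 14 * h * Lg ^ 13 := by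
          calc 2 * (r : ℝ) * h = r * (2 * h) := by ring
            _ ≤ r ^ 14 * (2 * h) := mul_le_mul_of_nonneg_right hr14 (by linarith)
            _ = 2 * (r ^ 14 * h) := by ring
            _ ≤ (Ca + Cl + 2) * (r ^ 14 * h) :=
                mul_le_mul_of_nonneg_right (by linarith) (by positivity)
            _ ≤ (Ca + Cl + 2) * (r ^ 14 * h) * Lg ^ 13 :=
                le_mul_of_one_le_right (by positivity) hLg13
            _ = _ := by ring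
        linarith
      · -- only kappa2 = q
        have h1 := hArr r S U q 1 p q V h Lg hr hrS hrU
          (fun hc => hrq hk2 ((Nat.prime_dvd_prime_iff_eq hr hq).1 hc)) hq.two_le le_rfl hp.pos
          hq.pos (Nat.coprime_one_right p) (by linarith) hLg1 hSh hUh (by linarith)
          (by push_cast; nlinarith)
          (by
            have h2 : 1 + Real.log p ≤ Lg := by linarith
            calc Ca * r * Lg * (1 + Real.log p) ≤ Ca * r * Lg * Lg :=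
                  mul_le_mul_of_nonneg_left h2 (by positivity)
              _ ≤ p := hsq.trans hLgp2)
          (by
            have e1 : ((S : ℤ) ^ p) ^ (2 * q) - ((U : ℤ) ^ p * (q : ℤ) ^ 1) ^ (2 * q) =
                -(((U : ℤ) ^ (p * q) * (κ₂ : ℤ) ^ q) ^ 2 -
                ((S : ℤ) ^ (p * q) * (κ₁ : ℤ) ^ p) ^ 2) := by
              rw [hk1, hk2]
              push_cast
              rw [one_pow, mul_one, pow_one, mul_comm 2 q, pow_mul, pow_mul, mul_pow, ← pow_mul,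
                ← pow_mul]
              ring
            rw [e1, dvd_neg]; exact d3)
        have h2 := harr (Real.log p) hlogp (by linarith)
        linarith
    · rcases hκ₂ with hk2 | ⟨hk2, -⟩
      · -- only kappa1 = p
        have h1 := hArr r U S p 1 q p V h Lg hr hrU hrS
          (fun hc => hrp hk1 ((Nat.prime_dvd_prime_iff_eq hr hp).1 hc)) hp.two_le le_rfl hq.pos
          hp.pos (Nat.coprime_one_right q) (by linarith) hLg1 hUh hSh (by linarith)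
          (by push_cast; nlinarith)
          (by
            have h2 : 1 + Real.log q ≤ Lg := by linarith
            calc Ca * r * Lg * (1 + Real.log q) ≤ Ca * r * Lg * Lg :=
                  mul_le_mul_of_nonneg_left h2 (by positivity)
              _ ≤ q := hsq.trans hLgq2)
          (by
            have e1 : ((U : ℤ) ^ q) ^ (2 * p) - ((S : ℤ) ^ q * (p : ℤ) ^ 1) ^ (2 * p) =
                ((U : ℤ) ^ (p * q) * (κ₂ : ℤ) ^ q) ^ 2 -
                ((S : ℤ) ^ (p * q) * (κ₁ : ℤ) ^ p) ^ 2 := by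
              have e2 : (U : ℤ) ^ (p * q) = ((U : ℤ) ^ q) ^ p := by rw [← pow_mul, mul_comm]
              have e3 : (S : ℤ) ^ (p * q) = ((S : ℤ) ^ q) ^ p := by rw [← pow_mul, mul_comm]
              rw [hk1, hk2, e2, e3]
              push_cast
              rw [one_pow, mul_one, pow_one, ← mul_pow, mul_comm 2 p, pow_mul, pow_mul]
            rw [e1]; exact d3)
        have h2 := harr (Real.log q) hlogq (by linarith)
        linarith
      · -- three logarithms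
        have h1 := hLf3 r U S p q V h hr hp hq hpq (hrp hk1) (hrq hk2) hrU hrS (by linarith)
          hUh hSh (by rw [← hLg]; exact hClp) (by rw [← hLg]; exact hClq)
          (by rw [hk1, hk2] at d3; exact d3)
        rw [← hLg] at h1
        have h2 : Cl * r ^ 14 * h * Lg ^ 13 ≤ (Ca + Cl + 2) * r ^ 14 * h * Lg ^ 13 := by
          have h3 : 0 ≤ r ^ 14 * h * Lg ^ 13 := by positivity
          nlinarith
        linarith
  -- conclusion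
  have hPQ : ((max p q : ℕ) : ℝ) * ((min p q : ℕ) : ℝ) = p * q := by
    rw [← Nat.cast_mul, max_mul_min, Nat.cast_mul]
  have hP3 : (3 : ℝ) ≤ ((max p q : ℕ) : ℝ) := by
    have : 3 ≤ max p q := le_max_of_le_left hp3
    exact_mod_cast this
  have hQ3 : (3 : ℝ) ≤ ((min p q : ℕ) : ℝ) := by
    have : 3 ≤ min p q := le_min hp3 hq3
    exact_mod_cast this
  have hfin := stbr_num ((max p q : ℕ) : ℝ) ((min p q : ℕ) : ℝ) M (Ca + Cl + 2)
    (V * Real.log r) r hP3 hQ3 (by exact_mod_cast min_le_max) (by linarith) hr2R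
    (by rw [hPQ]; exact hMlow) (by rw [hPQ, ← hh, ← hLg]; exact hbound)
  have e1 : (p : ℝ) * q * (padicValNat r z) * Real.log r =
      ((max p q : ℕ) : ℝ) * (V * Real.log r) := by
    rw [← hPQ, ← hν, hV]
    push_cast
    ring
  rw [e1]
  exact hfin

end Pool.Agent.Work.MP_2738db_nt_Y.helper63
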