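import Pool.Agent.Work.MP_2738db_nt_Y.Interface

set_option autoImplicit false

/-!
Block VAL of theorem Y (MP_2738db_nt, helper63): values of linear forms on the points `Xi`.
-/

namespace Pool.Agent.Work.MP_2738db_nt_Y.helper63

open Finset Polynomial

/-- two residues below `m` which are congruent are equal -/
theorem eq_of_dvd_sub {m u v : ℕ} (hu : u < m) (hv : v < m) (h : (m : ℤ) ∣ (u : ℤ) - v) :
    u = v := by
  have h1 : |(u : ℤ) - v| < m := by
    rw [abs_lt]; constructor <;> omega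
  have h2 := Int.eq_zero_of_abs_lt_dvd h h1
  omega

theorem xi_card (p q R₁ R : ℕ) (hp : p.Prime) (hq : q.Prime) (hRq : R₁ ≤ q) :
    (Xi p q R₁ R).card = R₁ * (R * R) := by
  unfold Xi
  rw [card_image_of_injOn, card_product, card_product, card_range, card_range]
  rintro ⟨r₁, r₂, r₃⟩ hr ⟨t₁, t₂, t₃⟩ ht h
  simp only [coe_product, coe_range, Set.mem_prod, Set.mem_Iio] at hr ht
  simp only [Prod.mk.injEq] at h
  obtain ⟨h1, h2⟩ := h
  have e1 : r₁ = t₁ := by
    apply eq_of_dvd_sub (lt_of_lt_of_le hr.1 hRq) (lt_of_lt_of_le ht.1 hRq)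
    exact ⟨(t₂ : ℤ) - r₂, by linarith⟩
  subst e1
  have hq0 : (q : ℤ) ≠ 0 := by exact_mod_cast hq.ne_zero
  have hp0 : (p : ℤ) ≠ 0 := by exact_mod_cast hp.ne_zero
  have e2 : (q : ℤ) * r₂ = q * t₂ := by linarith
  have e3 : (p : ℤ) * (r₃ + 1) = p * (t₃ + 1) := by linarith
  have e2' := mul_left_cancel₀ hq0 e2
  have e3' := mul_left_cancel₀ hp0 e3
  have e2'' : r₂ = t₂ := by exact_mod_cast e2'
  have e3'' : r₃ = t₃ := by omega
  rw [e2'', e3'']

theorem val_core (p q R₁ R : ℕ) (a b : ℤ) (e : ℕ × ℕ → ℕ × ℕ × ℕ)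
    (he : ∀ s ∈ range R₁ ×ˢ range R, e s ∈ range R₁ ×ˢ (range R ×ˢ range R))
    (hinj : ∀ s ∈ range R₁ ×ˢ range R, ∀ t ∈ range R₁ ×ˢ range R,
      a * (((e s).1 : ℤ) + q * (e s).2.1) + b * ((p : ℤ) * ((e s).2.2 + 1) - (e s).1) =
      a * (((e t).1 : ℤ) + q * (e t).2.1) + b * ((p : ℤ) * ((e t).2.2 + 1) - (e t).1) → s = t) :
    R₁ * R ≤ ((Xi p q R₁ R).image (fun s => a * s.1 + b * s.2)).card := by
  have h1 : (range R₁ ×ˢ range R).card = R₁ * R := by
    rw [card_product, card_range, card_range]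
  rw [← h1]
  apply card_le_card_of_injOn
    (fun s => a * (((e s).1 : ℤ) + q * (e s).2.1) + b * ((p : ℤ) * ((e s).2.2 + 1) - (e s).1))
  · intro s hs
    have hs' := he s (by simpa using hs)
    rw [mem_coe, mem_image]
    refine ⟨(((e s).1 : ℤ) + q * (e s).2.1, (p : ℤ) * ((e s).2.2 + 1) - (e s).1), ?_, rfl⟩
    unfold Xi
    rw [mem_image]
    exact ⟨e s, hs', rfl⟩
  · intro s hs t ht hst
    exact hinj s (by simpa using hs) t (by simpa using ht) hst

theorem val_coprime (p q R₁ R : ℕ) (hp : p.Prime) (hq : q.Prime) (hpq : p ≠ q) (hRp : R₁ ≤ p)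
    (hRq : R₁ ≤ q) (hRR : R₁ ≤ R) (a b g : ℤ) (hg : g ≠ 0) (hab : IsCoprime a b) :
    R₁ * R ≤ ((Xi p q R₁ R).image (fun s => (a * g) * s.1 + (b * g) * s.2)).card := by
  have hpZ : Prime (p : ℤ) := Nat.prime_iff_prime_int.mp hp
  have hqZ : Prime (q : ℤ) := Nat.prime_iff_prime_int.mp hq
  have hp0 : (p : ℤ) ≠ 0 := hpZ.ne_zero
  have hq0 : (q : ℤ) ≠ 0 := hqZ.ne_zero
  have key1 : a ≠ 0 → ¬ (q : ℤ) ∣ a - b →
      R₁ * R ≤ ((Xi p q R₁ R).image (fun s => (a * g) * s.1 + (b * g) * s.2)).card := by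
    intro ha hqab
    apply val_core p q R₁ R (a * g) (b * g) (fun s => (s.1, s.2, 0))
    · rintro ⟨s1, s2⟩ hs
      simp only [mem_product, mem_range] at hs ⊢
      omega
    · rintro ⟨s1, s2⟩ hs ⟨t1, t2⟩ ht h
      simp only [mem_product, mem_range] at hs ht
      simp only at h
      have h1 : g * ((a - b) * ((s1 : ℤ) - t1) + a * q * ((s2 : ℤ) - t2)) = 0 := by
        linear_combination h
      have h2 := (mul_eq_zero.mp h1).resolve_left hg
      have h3 : (q : ℤ) ∣ (a - b) * ((s1 : ℤ) - t1) := ⟨-(a * ((s2 : ℤ) - t2)), by linarith⟩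
      have h4 := (hqZ.dvd_or_dvd h3).resolve_left hqab
      have h5 := eq_of_dvd_sub (lt_of_lt_of_le hs.1 hRq) (lt_of_lt_of_le ht.1 hRq) h4
      subst h5
      rw [sub_self, mul_zero, zero_add] at h2
      have h6 := (mul_eq_zero.mp h2).resolve_left (mul_ne_zero ha hq0)
      have h7 : s2 = t2 := by omega
      rw [h7]
  have key2 : b ≠ 0 → ¬ (p : ℤ) ∣ a - b →
      R₁ * R ≤ ((Xi p q R₁ R).image (fun s => (a * g) * s.1 + (b * g) * s.2)).card := by
    intro hb hpab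
    apply val_core p q R₁ R (a * g) (b * g) (fun s => (s.1, 0, s.2))
    · rintro ⟨s1, s2⟩ hs
      simp only [mem_product, mem_range] at hs ⊢
      omega
    · rintro ⟨s1, s2⟩ hs ⟨t1, t2⟩ ht h
      simp only [mem_product, mem_range] at hs ht
      simp only at h
      have h1 : g * ((a - b) * ((s1 : ℤ) - t1) + b * p * ((s2 : ℤ) - t2)) = 0 := by
        linear_combination h
      have h2 := (mul_eq_zero.mp h1).resolve_left hg
      have h3 : (p : ℤ) ∣ (a - b) * ((s1 : ℤ) - t1) := ⟨-(b * ((s2 : ℤ) - t2)), by linarith⟩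
      have h4 := (hpZ.dvd_or_dvd h3).resolve_left hpab
      have h5 := eq_of_dvd_sub (lt_of_lt_of_le hs.1 hRp) (lt_of_lt_of_le ht.1 hRp) h4
      subst h5
      rw [sub_self, mul_zero, zero_add] at h2
      have h6 := (mul_eq_zero.mp h2).resolve_left (mul_ne_zero hb hp0)
      have h7 : s2 = t2 := by omega
      rw [h7]
  by_cases ha : a = 0
  · have hb : IsUnit b := by rwa [ha, isCoprime_zero_left] at hab
    apply key2 hb.ne_zero
    intro hc
    rw [ha, zero_sub, dvd_neg] at hc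
    exact hpZ.not_isUnit (isUnit_of_dvd_unit hc hb)
  by_cases hb : b = 0
  · have ha' : IsUnit a := by rwa [hb, isCoprime_zero_right] at hab
    apply key1 ha
    intro hc
    rw [hb, sub_zero] at hc
    exact hqZ.not_isUnit (isUnit_of_dvd_unit hc ha')
  by_cases hqab : (q : ℤ) ∣ a - b
  swap
  · exact key1 ha hqab
  by_cases hpab : (p : ℤ) ∣ a - b
  swap
  · exact key2 hb hpab
  -- both divide
  have hpa : ¬ (p : ℤ) ∣ a := by
    intro hc
    have h1 : (p : ℤ) ∣ b := (dvd_sub_right hc).mp hpab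
    exact hpZ.not_isUnit (hab.isUnit_of_dvd' hc h1)
  have hpq' : ¬ (p : ℤ) ∣ (q : ℤ) := by
    intro hc
    have h1 : p ∣ q := by exact_mod_cast hc
    exact hpq ((Nat.prime_dvd_prime_iff_eq hp hq).mp h1)
  apply val_core p q R₁ R (a * g) (b * g) (fun s => (0, s.1, s.2))
  · rintro ⟨s1, s2⟩ hs
    simp only [mem_product, mem_range] at hs ⊢
    omega
  · rintro ⟨s1, s2⟩ hs ⟨t1, t2⟩ ht h
    simp only [mem_product, mem_range] at hs ht
    simp only at h
    have h1 : g * (a * q * ((s1 : ℤ) - t1) + b * p * ((s2 : ℤ) - t2)) = 0 := by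
      push_cast at h
      linear_combination h
    have h2 := (mul_eq_zero.mp h1).resolve_left hg
    have h3 : (p : ℤ) ∣ (a * q) * ((s1 : ℤ) - t1) := ⟨-(b * ((s2 : ℤ) - t2)), by linarith⟩
    have h4 : ¬ (p : ℤ) ∣ a * q := fun hc => by
      rcases hpZ.dvd_or_dvd hc with h5 | h5
      · exact hpa h5
      · exact hpq' h5
    have h4 := (hpZ.dvd_or_dvd h3).resolve_left h4
    have h5 := eq_of_dvd_sub (lt_of_lt_of_le hs.1 hRp) (lt_of_lt_of_le ht.1 hRp) h4
    subst h5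
    rw [sub_self, mul_zero, zero_add] at h2
    have h6 := (mul_eq_zero.mp h2).resolve_left (mul_ne_zero hb hp0)
    have h7 : s2 = t2 := by omega
    rw [h7]

theorem val : Stmt_Val := by
  intro p q R₁ R hp hq hpq hRp hRq hRR
  refine ⟨xi_card p q R₁ R hp hq hRq, ?_⟩
  intro a b hab
  have hg : 0 < Int.gcd a b := by
    rcases hab with h | h
    · exact Int.gcd_pos_of_ne_zero_left _ h
    · exact Int.gcd_pos_of_ne_zero_right _ h
  obtain ⟨a', b', h1, ha, hb⟩ := Int.exists_gcd_one hg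
  have hg' : ((Int.gcd a b : ℕ) : ℤ) ≠ 0 := by exact_mod_cast hg.ne'
  have hfin := val_coprime p q R₁ R hp hq hpq hRp hRq hRR a' b' _ hg'
    (Int.isCoprime_iff_gcd_eq_one.mpr h1)
  rw [← ha, ← hb] at hfin
  exact hfin

end Pool.Agent.Work.MP_2738db_nt_Y.helper63
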