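import Pool.Agent.Work.MP_2738db_nt_Y.Interface5

/-!
Theorem Y, phase 5, block A3: `x ^ n` is not much larger than `x ^ n - y ^ n = c ^ k`.
-/

set_option autoImplicit false
set_option linter.unusedSectionVars false

namespace Pool.Agent.Work.MP_2738db_nt_Y.helper63

open Finset NumberField
open Pool.Agent.Work.MP_2738db_nt_A (HB)
open Pool.Agent.Work.MP_2738db_nt_Y

/-! ### Roots of unity -/

theorem norm_one_of_pow {ω : ℂ} {m : ℕ} (hm : 1 ≤ m) (h : ω ^ m = 1) : ‖ω‖ = 1 := by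
  have h1 : ‖ω‖ ^ m = 1 := by rw [← norm_pow, h, norm_one]
  exact (pow_eq_one_iff_of_nonneg (norm_nonneg _) (by omega)).mp h1

theorem pow_diff {a b : ℂ} (ha : ‖a‖ = 1) (hb : ‖b‖ = 1) (N : ℕ) :
    ‖a ^ N - b ^ N‖ ≤ N * ‖a - b‖ := by
  induction N with
  | zero => simp
  | succ N ih =>
    have e : a ^ (N + 1) - b ^ (N + 1) = a ^ N * (a - b) + (a ^ N - b ^ N) * b := by ring
    rw [e]
    refine le_trans (norm_add_le _ _) ?_
    rw [norm_mul, norm_mul, norm_pow, ha, hb, one_pow, one_mul, mul_one]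
    push_cast
    linarith

theorem root_bound {ω : ℂ} {m : ℕ} (hm : 1 ≤ m) (h : ω ^ m = 1) (hne : ω ≠ 1) :
    1 ≤ (m : ℝ) * ‖1 - ω‖ := by
  have hn : ‖ω‖ = 1 := norm_one_of_pow hm h
  have hg : ∑ j ∈ Finset.range m, ω ^ j = 0 := by
    have h1 := geom_sum_mul ω m
    rw [h, sub_self] at h1
    rcases mul_eq_zero.mp h1 with h2 | h2
    · exact h2
    · exact absurd (sub_eq_zero.mp h2) hne
  have h2 : (m : ℂ) = ∑ j ∈ Finset.range m, (1 - ω ^ j) := by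
    rw [Finset.sum_sub_distrib, hg, sub_zero]
    simp
  have h3 : (m : ℝ) ≤ ∑ j ∈ Finset.range m, ‖(1 : ℂ) - ω ^ j‖ := by
    have h4 : ‖(m : ℂ)‖ = (m : ℝ) := by simp
    rw [← h4, h2]
    exact norm_sum_le _ _
  have h5 : ∀ j ∈ Finset.range m, ‖(1 : ℂ) - ω ^ j‖ ≤ (m : ℝ) * ‖1 - ω‖ := by
    intro j hj
    have h6 := pow_diff (a := 1) (b := ω) norm_one hn j
    rw [one_pow] at h6
    refine le_trans h6 (mul_le_mul_of_nonneg_right ?_ (norm_nonneg _))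
    exact_mod_cast (Finset.mem_range.mp hj).le
  have h7 := Finset.sum_le_sum h5
  rw [Finset.sum_const, Finset.card_range, nsmul_eq_mul] at h7
  have hm0 : (0 : ℝ) < m := by exact_mod_cast hm
  have h8 : (m : ℝ) * 1 ≤ (m : ℝ) * ((m : ℝ) * ‖1 - ω‖) := by linarith
  exact le_of_mul_le_mul_left h8 hm0

/-! ### Norm of an algebraic integer all of whose conjugates are at most two -/

theorem norm_lower {K : Type} [Field K] [NumberField K] (φ : K →+* ℂ) (θ : K) (n : ℕ)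
    (hint : IsIntegral ℤ θ) (hne : θ ≠ 0) (hb : ∀ σ : K →+* ℂ, ‖σ θ‖ ≤ 2)
    (hn : Module.finrank ℚ K ≤ n) : 1 ≤ ‖φ θ‖ * 2 ^ n := by
  classical
  have h1 : algebraMap ℚ ℂ (Algebra.norm ℚ θ) = ∏ σ : K →ₐ[ℚ] ℂ, σ θ :=
    Algebra.norm_eq_prod_embeddings ℚ ℂ θ
  have h2 : (1 : ℝ) ≤ ‖algebraMap ℚ ℂ (Algebra.norm ℚ θ)‖ := by
    have hI : IsIntegral ℤ (Algebra.norm ℚ θ) := Algebra.isIntegral_norm ℚ hint
    obtain ⟨z, hz⟩ := IsIntegrallyClosed.isIntegral_iff.mp hI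
    have hz0 : z ≠ 0 := by
      intro h
      rw [h, map_zero] at hz
      exact hne (Algebra.norm_eq_zero_iff.mp hz.symm)
    rw [← hz]
    have h3 : (1 : ℝ) ≤ |(z : ℝ)| := by exact_mod_cast Int.one_le_abs hz0
    simpa using h3
  have h4 : ‖∏ σ : K →ₐ[ℚ] ℂ, σ θ‖ = ∏ σ : K →ₐ[ℚ] ℂ, ‖σ θ‖ := norm_prod _ _
  set φ' : K →ₐ[ℚ] ℂ := φ.toRatAlgHom with hφ'
  have h5 : ∏ σ : K →ₐ[ℚ] ℂ, ‖σ θ‖ = ‖φ' θ‖ * ∏ σ ∈ Finset.univ.erase φ', ‖σ θ‖ :=
    (Finset.mul_prod_erase Finset.univ (fun σ : K →ₐ[ℚ] ℂ => ‖σ θ‖) (Finset.mem_univ φ')).symm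
  have h6 : ∏ σ ∈ Finset.univ.erase φ', ‖σ θ‖ ≤ 2 ^ n := by
    have h7 : ∏ σ ∈ Finset.univ.erase φ', ‖σ θ‖ ≤ ∏ _σ ∈ Finset.univ.erase φ', (2 : ℝ) :=
      Finset.prod_le_prod (fun σ _ => norm_nonneg _) (fun σ _ => hb σ.toRingHom)
    rw [Finset.prod_const] at h7
    refine le_trans h7 (pow_le_pow_right₀ (by norm_num) ?_)
    refine le_trans (Finset.card_le_univ _) ?_
    rw [AlgHom.card]
    exact hn
  have h8 : φ' θ = φ θ := rfl
  rw [h1, h4, h5, h8] at h2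
  exact le_trans h2 (mul_le_mul_of_nonneg_left h6 (norm_nonneg _))

/-! ### The quotient `(x - w y) / (x - conj w y)` -/

theorem conj_mul_self {w : ℂ} (hw : ‖w‖ = 1) : w * starRingEnd ℂ w = 1 := by
  rw [Complex.mul_conj, Complex.normSq_eq_norm_sq, hw]
  norm_num

theorem close {w : ℂ} {n : ℕ} (hn : 1 ≤ n) (hw : w ^ n = 1) (hw1 : w ≠ 1) {x y : ℝ}
    (hy : 0 < y) (hxy : y < x) :
    0 < ‖(x : ℂ) - w * y‖ ∧ ‖(x : ℂ) - starRingEnd ℂ w * y‖ = ‖(x : ℂ) - w * y‖ ∧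
    ((x : ℂ) - w * y) + w * ((x : ℂ) - starRingEnd ℂ w * y) = ((x - y : ℝ) : ℂ) * (1 + w) ∧
    ‖((x : ℂ) - w * y) / ((x : ℂ) - starRingEnd ℂ w * y) + w‖ * x ≤ 4 * n * (x - y) := by
  have hw0 : ‖w‖ = 1 := norm_one_of_pow hn hw
  have hc : w * starRingEnd ℂ w = 1 := conj_mul_self hw0
  have hx : 0 < x := hy.trans hxy
  have hxn : ‖(x : ℂ)‖ = x := by rw [Complex.norm_real, Real.norm_eq_abs, abs_of_pos hx]
  have hyn : ‖w * (y : ℂ)‖ = y := by
    rw [norm_mul, hw0, one_mul, Complex.norm_real, Real.norm_eq_abs, abs_of_pos hy]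
  have h1 : x - y ≤ ‖(x : ℂ) - w * y‖ := by
    have := norm_sub_norm_le (x : ℂ) (w * y)
    rwa [hxn, hyn] at this
  have hpos : 0 < ‖(x : ℂ) - w * y‖ := by linarith
  have h2 : ‖(x : ℂ) - starRingEnd ℂ w * y‖ = ‖(x : ℂ) - w * y‖ := by
    have e : (x : ℂ) - starRingEnd ℂ w * y = starRingEnd ℂ ((x : ℂ) - w * y) := by
      rw [map_sub, map_mul, Complex.conj_ofReal, Complex.conj_ofReal]
    rw [e, Complex.norm_conj]
  have h3 : ((x : ℂ) - w * y) + w * ((x : ℂ) - starRingEnd ℂ w * y)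
      = ((x - y : ℝ) : ℂ) * (1 + w) := by
    have e : ((x : ℂ) - w * y) + w * ((x : ℂ) - starRingEnd ℂ w * y)
        = (x : ℂ) - w * y + w * x - (w * starRingEnd ℂ w) * y := by ring
    rw [e, hc]
    push_cast
    ring
  refine ⟨hpos, h2, h3, ?_⟩
  set Z : ℂ := (x : ℂ) - w * y with hZ
  set Zc : ℂ := (x : ℂ) - starRingEnd ℂ w * y with hZc
  have hZc0 : Zc ≠ 0 := by
    intro h
    rw [h, norm_zero] at h2
    linarith
  have h4 : ‖Z / Zc + w‖ * ‖Z‖ ≤ 2 * (x - y) := by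
    have e : (Z / Zc + w) * Zc = ((x - y : ℝ) : ℂ) * (1 + w) := by
      rw [add_mul, div_mul_cancel₀ _ hZc0, ← h3]
    rw [← h2, ← norm_mul, e, norm_mul, Complex.norm_real, Real.norm_eq_abs,
      abs_of_pos (by linarith : 0 < x - y), mul_comm]
    refine mul_le_mul_of_nonneg_right ?_ (by linarith)
    refine le_trans (norm_add_le _ _) ?_
    rw [norm_one, hw0]
    norm_num
  have h5 : ‖1 - w‖ * x ≤ 2 * ‖Z‖ := by
    have e : ((1 : ℂ) - w) * x = Z + w * ((y : ℂ) - x) := by rw [hZ]; ring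
    have h6 : ‖((1 : ℂ) - w) * x‖ ≤ ‖Z‖ + ‖w * ((y : ℂ) - x)‖ := by
      rw [e]; exact norm_add_le _ _
    have h7 : ‖w * ((y : ℂ) - x)‖ = x - y := by
      rw [norm_mul, hw0, one_mul, ← Complex.ofReal_sub, Complex.norm_real, Real.norm_eq_abs,
        abs_of_neg (by linarith)]
      ring
    rw [norm_mul, hxn, h7] at h6
    linarith
  have h6 := root_bound hn hw hw1
  have hn0 : (0 : ℝ) < n := by exact_mod_cast hn
  have h7 : x ≤ 2 * n * ‖Z‖ := by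
    have : x ≤ ((n : ℝ) * ‖1 - w‖) * x := by nlinarith
    nlinarith
  calc ‖Z / Zc + w‖ * x ≤ ‖Z / Zc + w‖ * (2 * n * ‖Z‖) :=
        mul_le_mul_of_nonneg_left h7 (norm_nonneg _)
    _ = 2 * n * (‖Z / Zc + w‖ * ‖Z‖) := by ring
    _ ≤ 2 * n * (2 * (x - y)) := mul_le_mul_of_nonneg_left h4 (by positivity)
    _ = 4 * n * (x - y) := by ring

/-! ### The numerical part -/

theorem num_T {n : ℕ} (hn : 3 ≤ n) {C₁ C₂ : ℝ} (h1 : 1 ≤ C₁) (h2 : 1 ≤ C₂) :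
    2 * (8 * (n : ℝ) ^ 2 + (n : ℝ) ^ C₁) + 4 * (n : ℝ) ^ 2 * ((n : ℝ) ^ C₂ * Real.exp ((n : ℝ) ^ C₁))
      ≤ Real.exp ((n : ℝ) ^ (C₁ + C₂ + 5)) := by
  have hn3 : (3 : ℝ) ≤ n := by exact_mod_cast hn
  have hn0 : (0 : ℝ) < n := by linarith
  have hX : 1 ≤ (n : ℝ) ^ C₁ := Real.one_le_rpow (by linarith) (by linarith)
  have hY : 1 ≤ (n : ℝ) ^ C₂ := Real.one_le_rpow (by linarith) (by linarith)
  have hsplit : (n : ℝ) ^ (C₁ + C₂ + 5) = (n : ℝ) ^ C₁ * (n : ℝ) ^ C₂ * (n : ℝ) ^ 5 := by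
    rw [Real.rpow_add hn0, Real.rpow_add hn0]
    congr 1
    have : (5 : ℝ) = ((5 : ℕ) : ℝ) := by norm_num
    rw [this, Real.rpow_natCast]
  rw [hsplit]
  set X := (n : ℝ) ^ C₁ with hXd
  set Y := (n : ℝ) ^ C₂ with hYd
  have hS : 1 ≤ Real.exp X := by
    have := Real.add_one_le_exp X
    linarith
  have hXS : X ≤ Real.exp X := by
    have := Real.add_one_le_exp X
    linarith
  have hYS : Y ≤ Real.exp Y := by
    have := Real.add_one_le_exp Y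
    linarith
  have hnn : 22 * (n : ℝ) ^ 2 ≤ Real.exp (22 * (n : ℝ) ^ 2) := by
    have := Real.add_one_le_exp (22 * (n : ℝ) ^ 2)
    linarith
  have hn9 : 9 ≤ (n : ℝ) ^ 2 := by nlinarith
  have hA : 2 * (8 * (n : ℝ) ^ 2 + X) + 4 * (n : ℝ) ^ 2 * (Y * Real.exp X)
      ≤ 22 * (n : ℝ) ^ 2 * (Y * Real.exp X) := by
    have hYX : 1 ≤ Y * Real.exp X := by nlinarith
    have hXY : X ≤ Y * Real.exp X := by nlinarith
    nlinarith
  have hB : 22 * (n : ℝ) ^ 2 * (Y * Real.exp X) ≤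
      Real.exp (22 * (n : ℝ) ^ 2) * (Real.exp Y * Real.exp X) := by
    refine mul_le_mul hnn ?_ (by positivity) (Real.exp_pos _).le
    exact mul_le_mul_of_nonneg_right hYS (Real.exp_pos _).le
  refine le_trans hA (le_trans hB ?_)
  rw [← Real.exp_add, ← Real.exp_add]
  refine Real.exp_le_exp.mpr ?_
  have h27 : 27 * (n : ℝ) ^ 2 ≤ (n : ℝ) ^ 5 := by
    have h3 : 27 ≤ (n : ℝ) ^ 3 := by nlinarith [mul_nonneg (sub_nonneg.2 hn3) (sub_nonneg.2 hn9)]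
    nlinarith [mul_nonneg (sub_nonneg.2 h3) (sq_nonneg (n : ℝ))]
  have hXY1 : 1 ≤ X * Y := by nlinarith
  have h5 : X * Y * (27 * (n : ℝ) ^ 2) ≤ X * Y * (n : ℝ) ^ 5 :=
    mul_le_mul_of_nonneg_left h27 (by linarith)
  have h6 : 22 * (n : ℝ) ^ 2 ≤ X * Y * (22 * (n : ℝ) ^ 2) := by nlinarith
  have h7 : X + Y ≤ X * Y * (5 * (n : ℝ) ^ 2) := by nlinarith
  nlinarith

theorem exp_two (n : ℕ) : (2 : ℝ) ^ n ≤ Real.exp n := by
  have h := Real.add_one_le_exp (1 : ℝ)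
  have h2 : (2 : ℝ) ≤ Real.exp 1 := by linarith
  calc (2 : ℝ) ^ n ≤ (Real.exp 1) ^ n := pow_le_pow_left₀ (by norm_num) h2 n
    _ = Real.exp n := by rw [← Real.exp_nat_mul, mul_one]

theorem num_log {n k : ℕ} (hn : 3 ≤ n) (hk : 1 ≤ k) :
    (1 + Real.log ((2 * n * k : ℕ) : ℝ)) ^ 2 ≤ 4 * (n : ℝ) ^ 2 * (1 + Real.log k) ^ 2 := by
  have hn3 : (3 : ℝ) ≤ n := by exact_mod_cast hn
  have hk1 : (1 : ℝ) ≤ k := by exact_mod_cast hk
  have hlk : 0 ≤ Real.log k := Real.log_nonneg hk1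
  have h1 : Real.log ((2 * n * k : ℕ) : ℝ) = Real.log (2 * n) + Real.log k := by
    push_cast
    rw [Real.log_mul (by positivity) (by positivity)]
  have h2 : Real.log (2 * (n : ℝ)) ≤ 2 * n - 1 := Real.log_le_sub_one_of_pos (by positivity)
  have h0 : 0 ≤ Real.log (2 * (n : ℝ)) := Real.log_nonneg (by linarith)
  rw [h1]
  have h3 : 1 + (Real.log (2 * n) + Real.log k) ≤ 2 * n * (1 + Real.log k) := by nlinarith
  have h4 : 0 ≤ 1 + (Real.log (2 * n) + Real.log k) := by linarith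
  calc (1 + (Real.log (2 * n) + Real.log k)) ^ 2 ≤ (2 * n * (1 + Real.log k)) ^ 2 :=
        pow_le_pow_left₀ h4 h3 2
    _ = 4 * (n : ℝ) ^ 2 * (1 + Real.log k) ^ 2 := by ring

/-! ### Number field part -/

section
variable {K : Type} [Field K] [NumberField K]

theorem not_isUnit_nat {r : ℕ} (hr : 2 ≤ r) : ¬ IsUnit ((r : ℕ) : 𝓞 K) := by
  intro h
  have h1 : IsUnit (Algebra.norm ℤ ((r : ℕ) : 𝓞 K)) := h.map _
  have h2 : ((r : ℕ) : 𝓞 K) = algebraMap ℤ (𝓞 K) (r : ℤ) := by simp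
  rw [h2, Algebra.norm_algebraMap] at h1
  have h3 : 0 < Module.finrank ℤ (𝓞 K) := Module.finrank_pos
  have h4 : IsUnit ((r : ℤ)) := (isUnit_pow_iff h3.ne').mp h1
  rcases Int.isUnit_iff.mp h4 with h5 | h5 <;> omega

theorem ne_zero_of_primes {n : ℕ} (hn : 2 ≤ n) {α : 𝓞 K}
    (h : ∀ P : Ideal (𝓞 K), P.IsPrime → α ∈ P → ((n : ℕ) : 𝓞 K) ∉ P) : α ≠ 0 := by
  intro h0
  have h1 : Ideal.span {((n : ℕ) : 𝓞 K)} ≠ ⊤ := by
    intro h
    exact not_isUnit_nat hn (Ideal.span_singleton_eq_top.mp h)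
  obtain ⟨P, hP, hle⟩ := Ideal.exists_le_maximal _ h1
  have hmem : ((n : ℕ) : 𝓞 K) ∈ P := hle (Ideal.subset_span (Set.mem_singleton _))
  exact h P hP.isPrime (h0 ▸ P.zero_mem) hmem

/-- The two cases: a lower bound for the distance of the quotient to `-w`. -/
theorem core {C₂ : ℝ}
    (hArk : ∀ (K : Type) [Field K] [NumberField K] (φ : K →+* ℂ) (β₁ β₂ : 𝓞 K) (n : ℕ)
      (A H : ℝ), β₁ ≠ 0 → β₂ ≠ 0 → 1 ≤ n → 1 ≤ A → 2 ≤ H → (Module.finrank ℚ K : ℝ) ≤ H →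
      HB K β₁ A → HB K β₂ A → ‖φ (β₁ : K)‖ = ‖φ (β₂ : K)‖ → (∀ j : ℕ, 1 ≤ j → β₁ ^ j ≠ β₂ ^ j) →
      Real.exp (-(H ^ C₂ * A * (1 + Real.log n) ^ 2)) ≤ ‖(φ (β₁ : K) / φ (β₂ : K)) ^ n - 1‖)
    {n : ℕ} (hn : 3 ≤ n) {ζ : 𝓞 K} (hζ : IsPrimitiveRoot ζ n) {τ : 𝓞 K ≃+* 𝓞 K}
    (hτ : IsConjugation K τ) (hfin : Module.finrank ℚ K ≤ n) (φ : K →+* ℂ)
    {x y k s : ℕ} (hy : 1 ≤ y) (hxy : y < x) (hk : 1 ≤ k) (hs : 1 ≤ s) {α : 𝓞 K} (hα : α ≠ 0)
    {A : ℝ} (hA : 1 ≤ A) (hB1 : HB K α A) (hB2 : HB K (τ α) A)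
    (hrel : ((x : 𝓞 K) - ζ * (y : 𝓞 K)) ^ s * (τ α) ^ k =
      ((x : 𝓞 K) - τ ζ * (y : 𝓞 K)) ^ s * α ^ k) :
    (x : ℝ) ≤ ((x : ℝ) - y) * (8 * (n : ℝ) ^ 2 * s *
      Real.exp ((n : ℝ) ^ C₂ * A * (1 + Real.log ((2 * n * k : ℕ) : ℝ)) ^ 2)) ∨
    (x : ℝ) ≤ ((x : ℝ) - y) * (4 * (n : ℝ) * 2 ^ n) := by
  have hn1 : 1 ≤ n := by omega
  have hn0 : (0 : ℝ) < n := by exact_mod_cast hn1
  set w : ℂ := φ (ζ : K) with hw
  have hwn : w ^ n = 1 := by
    rw [hw, ← map_pow]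
    have : ((ζ : K)) ^ n = ((ζ ^ n : 𝓞 K) : K) := by simp
    rw [this, hζ.pow_eq_one]
    simp
  have hinj : Function.Injective (fun z : 𝓞 K => φ (z : K)) :=
    φ.injective.comp RingOfIntegers.coe_injective
  have hw1 : w ≠ 1 := by
    intro h
    have h1 : ζ = 1 := hinj (by simpa [hw] using h)
    exact hζ.ne_one (by omega) h1
  have hwm : w ≠ -1 := by
    intro h
    have h1 : ζ = -1 := hinj (by simpa [hw] using h)
    have h2 : ζ ^ 2 = 1 := by rw [h1]; ring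
    have h3 := hζ.dvd_of_pow_eq_one 2 h2
    have h4 := Nat.le_of_dvd (by norm_num) h3
    omega
  have hwnorm : ‖w‖ = 1 := norm_one_of_pow hn1 hwn
  have hcw : φ ((τ ζ : 𝓞 K) : K) = starRingEnd ℂ w := hτ φ ζ
  have hyR : (0 : ℝ) < (y : ℝ) := by exact_mod_cast hy
  have hxyR : (y : ℝ) < (x : ℝ) := by exact_mod_cast hxy
  have hxR : (0 : ℝ) < (x : ℝ) := hyR.trans hxyR
  obtain ⟨hZpos, hZn, hZid, hclose⟩ := close hn1 hwn hw1 hyR hxyR
  set Z : ℂ := ((x : ℝ) : ℂ) - w * ((y : ℝ) : ℂ) with hZ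
  set Zc : ℂ := ((x : ℝ) : ℂ) - starRingEnd ℂ w * ((y : ℝ) : ℂ) with hZc
  have hZ0 : Z ≠ 0 := norm_pos_iff.mp hZpos
  have hZc0 : Zc ≠ 0 := by
    rw [← norm_pos_iff, hZn]; exact hZpos
  have e1 : φ (((x : 𝓞 K) - ζ * (y : 𝓞 K) : 𝓞 K) : K) = Z := by
    rw [hZ, hw]
    simp
  have e2 : φ (((x : 𝓞 K) - τ ζ * (y : 𝓞 K) : 𝓞 K) : K) = Zc := by
    rw [hZc, ← hcw]
    simp
  set a : ℂ := φ (α : K) with ha
  set b : ℂ := φ ((τ α : 𝓞 K) : K) with hb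
  have hba : b = starRingEnd ℂ a := hτ φ α
  have ha0 : a ≠ 0 := by
    intro h
    apply hα
    apply hinj
    show φ (α : K) = φ ((0 : 𝓞 K) : K)
    rw [← ha, h]
    simp
  have hb0 : b ≠ 0 := by
    rw [hba]
    intro h
    exact ha0 ((map_eq_zero (starRingEnd ℂ)).mp h)
  have hnab : ‖a‖ = ‖b‖ := by rw [hba, Complex.norm_conj]
  have hrelC : Z ^ s * b ^ k = Zc ^ s * a ^ k := by
    have h := congrArg (fun z : 𝓞 K => φ (z : K)) hrel
    simp only [map_mul, map_pow] at h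
    rw [e1, e2] at h
    exact h
  have hv : (Z / Zc) ^ s = (a / b) ^ k := by
    rw [div_pow, div_pow, div_eq_div_iff (pow_ne_zero _ hZc0) (pow_ne_zero _ hb0), hrelC]
    ring
  have hvn : ‖Z / Zc‖ = 1 := by
    rw [norm_div, hZn, div_self hZpos.ne']
  by_cases hcase : ∀ j : ℕ, 1 ≤ j → α ^ j ≠ (τ α) ^ j
  · left
    have hτα : τ α ≠ 0 := by
      intro h
      apply hα
      exact (map_eq_zero_iff τ τ.injective).mp h
    have h1 := hArk K φ α (τ α) (2 * n * k) A n hα hτα (by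
      have : 0 < 2 * n * k := by positivity
      omega) hA (by exact_mod_cast (by omega : 2 ≤ n)) (by exact_mod_cast hfin) hB1 hB2 hnab hcase
    rw [← ha, ← hb] at h1
    have h2 : (a / b) ^ (2 * n * k) = (Z / Zc) ^ (2 * n * s) := by
      have e : (a / b) ^ (2 * n * k) = ((a / b) ^ k) ^ (2 * n) := by
        rw [← pow_mul]; congr 1; ring
      have e' : (Z / Zc) ^ (2 * n * s) = ((Z / Zc) ^ s) ^ (2 * n) := by
        rw [← pow_mul]; congr 1; ring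
      rw [e, e', hv]
    have h3 : (-w) ^ (2 * n * s) = 1 := by
      have e : 2 * n * s = n * (2 * s) := by ring
      have e3 : (-w) ^ (2 * n * s) = w ^ (2 * n * s) :=
        Even.neg_pow ⟨n * s, by ring⟩ w
      rw [e3, e, pow_mul, hwn, one_pow]
    have h4 : ‖(Z / Zc) ^ (2 * n * s) - 1‖ ≤ ((2 * n * s : ℕ) : ℝ) * ‖Z / Zc + w‖ := by
      have h5 := pow_diff hvn (b := -w) (by rw [norm_neg]; exact hwnorm) (2 * n * s)
      rw [h3, sub_neg_eq_add] at h5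
      exact h5
    rw [h2] at h1
    set E : ℝ := (n : ℝ) ^ C₂ * A * (1 + Real.log ((2 * n * k : ℕ) : ℝ)) ^ 2 with hE
    have h5 : Real.exp (-E) * x ≤ 8 * (n : ℝ) ^ 2 * s * ((x : ℝ) - y) := by
      have h6 : Real.exp (-E) ≤ ((2 * n * s : ℕ) : ℝ) * ‖Z / Zc + w‖ := le_trans h1 h4
      have h7 : Real.exp (-E) * x ≤ ((2 * n * s : ℕ) : ℝ) * ‖Z / Zc + w‖ * x :=
        mul_le_mul_of_nonneg_right h6 hxR.le
      refine le_trans h7 ?_
      rw [mul_assoc]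
      refine le_trans (mul_le_mul_of_nonneg_left hclose (Nat.cast_nonneg _)) (le_of_eq ?_)
      push_cast
      ring
    have h6 : (x : ℝ) = Real.exp E * (Real.exp (-E) * x) := by
      rw [← mul_assoc, ← Real.exp_add, add_neg_cancel, Real.exp_zero, one_mul]
    calc (x : ℝ) = Real.exp E * (Real.exp (-E) * x) := h6
      _ ≤ Real.exp E * (8 * (n : ℝ) ^ 2 * s * ((x : ℝ) - y)) :=
          mul_le_mul_of_nonneg_left h5 (Real.exp_pos _).le
      _ = ((x : ℝ) - y) * (8 * (n : ℝ) ^ 2 * s * Real.exp E) := by ring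
  · right
    push Not at hcase
    obtain ⟨j, hj, hje⟩ := hcase
    -- the quotient is a root of unity
    set zK : K := (((x : 𝓞 K) - ζ * (y : 𝓞 K) : 𝓞 K) : K) with hzK
    set zcK : K := (((x : 𝓞 K) - τ ζ * (y : 𝓞 K) : 𝓞 K) : K) with hzcK
    have hzc0 : zcK ≠ 0 := by
      intro h
      rw [h, map_zero] at e2
      exact hZc0 e2.symm
    have hz0 : zK ≠ 0 := by
      intro h
      rw [h, map_zero] at e1
      exact hZ0 e1.symm
    have hαK : (α : K) ≠ 0 := by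
      intro h
      exact hα (RingOfIntegers.coe_injective (by simpa using h))
    have hrelK : zK ^ s * ((τ α : 𝓞 K) : K) ^ k = zcK ^ s * (α : K) ^ k := by
      have h := congrArg (fun z : 𝓞 K => (z : K)) hrel
      simp only [map_mul, map_pow] at h
      exact h
    have hjK : (α : K) ^ j = ((τ α : 𝓞 K) : K) ^ j := by
      have h := congrArg (fun z : 𝓞 K => (z : K)) hje
      simp only [map_pow] at h
      exact h
    have hroot : (zK / zcK) ^ (s * j) = 1 := by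
      have h1 : zK ^ (s * j) * (α : K) ^ (j * k) = zcK ^ (s * j) * (α : K) ^ (j * k) := by
        have h2 : (zK ^ s * ((τ α : 𝓞 K) : K) ^ k) ^ j = (zcK ^ s * (α : K) ^ k) ^ j := by
          rw [hrelK]
        rw [mul_pow, mul_pow, ← pow_mul, ← pow_mul, ← pow_mul, ← pow_mul] at h2
        rw [mul_comm k j, pow_mul (((τ α : 𝓞 K) : K)), ← hjK, ← pow_mul] at h2
        exact h2
      have h3 := mul_right_cancel₀ (pow_ne_zero _ hαK) h1
      rw [div_pow, h3, div_self (pow_ne_zero _ hzc0)]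
    have hsj : 1 ≤ s * j := Nat.mul_pos hs hj
    set θ : K := zK / zcK + (ζ : K) with hθ
    have hint : IsIntegral ℤ θ := by
      refine IsIntegral.add ?_ (RingOfIntegers.isIntegral_coe ζ)
      refine IsIntegral.of_pow hsj ?_
      rw [hroot]
      exact isIntegral_one
    have hφθ : φ θ = Z / Zc + w := by
      rw [hθ, map_add, map_div₀, e1, e2]
    have hθ0 : θ ≠ 0 := by
      intro h
      rw [h, map_zero] at hφθ
      have h1 : Z + w * Zc = 0 := by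
        have h2 : (Z / Zc + w) * Zc = 0 := by rw [← hφθ, zero_mul]
        rw [add_mul, div_mul_cancel₀ _ hZc0] at h2
        exact h2
      rw [hZid] at h1
      rcases mul_eq_zero.mp h1 with h3 | h3
      · have h4 : (x : ℝ) - y = 0 := by exact_mod_cast h3
        linarith
      · exact hwm (eq_neg_of_add_eq_zero_right h3)
    have hbd : ∀ σ : K →+* ℂ, ‖σ θ‖ ≤ 2 := by
      intro σ
      have h1 : ‖σ (zK / zcK)‖ = 1 := by
        refine norm_one_of_pow hsj ?_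
        rw [← map_pow, hroot, map_one]
      have h2 : ‖σ (ζ : K)‖ = 1 := by
        refine norm_one_of_pow hn1 ?_
        rw [← map_pow]
        have : ((ζ : K)) ^ n = ((ζ ^ n : 𝓞 K) : K) := by simp
        rw [this, hζ.pow_eq_one]
        simp
      rw [hθ, map_add]
      refine le_trans (norm_add_le _ _) ?_
      rw [h1, h2]
      norm_num
    have h1 := norm_lower φ θ n hint hθ0 hbd hfin
    rw [hφθ] at h1
    have h2 : (x : ℝ) * 1 ≤ x * (‖Z / Zc + w‖ * 2 ^ n) := mul_le_mul_of_nonneg_left h1 hxR.le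
    calc (x : ℝ) ≤ (‖Z / Zc + w‖ * x) * 2 ^ n := by linarith
      _ ≤ (4 * n * ((x : ℝ) - y)) * 2 ^ n := mul_le_mul_of_nonneg_right hclose (by positivity)
      _ = ((x : ℝ) - y) * (4 * (n : ℝ) * 2 ^ n) := by ring

end

theorem a3 (hCyd : Stmt_Cyd) (hKup : Stmt_Kup) (hArk : Stmt_Ark) : Stmt_A3 := by
  obtain ⟨C₁, hC₁, hKup⟩ := hKup
  obtain ⟨C₂, hC₂, hArk⟩ := hArk
  refine ⟨C₁ + C₂ + 5, by linarith, ?_⟩
  intro n x y c k hn hy hxy hcop hk hc heq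
  have hn3 : 3 ≤ n := by rcases hn with ⟨_, h⟩ | h <;> omega
  have hn3R : (3 : ℝ) ≤ n := by exact_mod_cast hn3
  obtain ⟨K, _, _, ζ, τ, hζ, hτ, hfin, hdisc⟩ := hCyd n (by
    rcases hn with h | h
    · exact Or.inl h
    · exact Or.inr (Or.inl h))
  have heqZ : (x : ℤ) ^ n - (y : ℤ) ^ n = (c : ℤ) ^ k := by
    have : (y : ℤ) ^ n + (c : ℤ) ^ k = (x : ℤ) ^ n := by exact_mod_cast heq
    linarith
  obtain ⟨s, α, hs1, hsS, hB1, hB2, hrel, hP1, -⟩ := hKup K n ζ τ (x : ℤ) (y : ℤ) c k 1 hn hζ hτ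
    hfin hdisc (Nat.isCoprime_iff_coprime.mpr hcop) hc hk (Or.inl heqZ) (Nat.coprime_one_left n)
  rw [pow_one] at hrel
  obtain ⟨φ⟩ : Nonempty (K →+* ℂ) := inferInstance
  have hα : α ≠ 0 := ne_zero_of_primes (by omega : 2 ≤ n) (fun P hP h => (hP1 P hP h).2)
  set S : ℝ := Real.exp ((n : ℝ) ^ C₁) with hS
  set L : ℝ := Real.log c with hL
  have hX1 : 1 ≤ (n : ℝ) ^ C₁ := Real.one_le_rpow (by linarith) (by linarith)
  have hXn : 3 ≤ (n : ℝ) ^ C₁ := by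
    calc (3 : ℝ) ≤ n := hn3R
      _ = (n : ℝ) ^ (1 : ℝ) := (Real.rpow_one _).symm
      _ ≤ (n : ℝ) ^ C₁ := Real.rpow_le_rpow_of_exponent_le (by linarith) hC₁
  have hL2 : 1 / 2 ≤ L := by
    have h1 : Real.log 2 ≤ L := Real.log_le_log (by norm_num) (by exact_mod_cast hc)
    have h2 := Real.log_two_gt_d9
    linarith
  have hS3 : 2 ≤ S := by
    have := Real.add_one_le_exp ((n : ℝ) ^ C₁)
    linarith
  have hA : 1 ≤ S * L := by nlinarith
  have hcore := core hArk hn3 hζ hτ (by exact_mod_cast hfin) φ hy hxy hk hs1 hα hA hB1 hB2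
    (by simpa using hrel)
  set G : ℝ := (1 + Real.log k) ^ 2 with hG
  have hlk : 0 ≤ Real.log k := Real.log_nonneg (by exact_mod_cast hk)
  have hG1 : 1 ≤ G := by rw [hG]; nlinarith
  have hLG : 1 ≤ 2 * (L * G) := by nlinarith
  have hyR : (0 : ℝ) < (y : ℝ) := by exact_mod_cast hy
  have hxyR : (y : ℝ) < (x : ℝ) := by exact_mod_cast hxy
  have hxR : (0 : ℝ) < (x : ℝ) := hyR.trans hxyR
  have hnum := num_T hn3 hC₁ hC₂
  set T : ℝ := 2 * (8 * (n : ℝ) ^ 2 + (n : ℝ) ^ C₁) +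
    4 * (n : ℝ) ^ 2 * ((n : ℝ) ^ C₂ * Real.exp ((n : ℝ) ^ C₁)) with hT
  have hTLG : T * (L * G) ≤ Real.exp ((n : ℝ) ^ (C₁ + C₂ + 5)) * (L * G) :=
    mul_le_mul_of_nonneg_right hnum (by linarith)
  have hY0 : 0 ≤ (n : ℝ) ^ C₂ := (Real.rpow_pos_of_pos (by linarith) _).le
  have hmain : (x : ℝ) ≤ ((x : ℝ) - y) * Real.exp (T * (L * G)) := by
    rcases hcore with h | h
    · refine le_trans h (mul_le_mul_of_nonneg_left ?_ (by linarith))
      have h1 : 8 * (n : ℝ) ^ 2 * s ≤ Real.exp ((8 * (n : ℝ) ^ 2 + (n : ℝ) ^ C₁) * (2 * (L * G))) := by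
        have h2 : 8 * (n : ℝ) ^ 2 ≤ Real.exp (8 * (n : ℝ) ^ 2) := by
          have := Real.add_one_le_exp (8 * (n : ℝ) ^ 2)
          linarith
        calc 8 * (n : ℝ) ^ 2 * s ≤ Real.exp (8 * (n : ℝ) ^ 2) * S :=
              mul_le_mul h2 hsS (Nat.cast_nonneg _) (Real.exp_pos _).le
          _ = Real.exp (8 * (n : ℝ) ^ 2 + (n : ℝ) ^ C₁) := by rw [hS, ← Real.exp_add]
          _ ≤ Real.exp ((8 * (n : ℝ) ^ 2 + (n : ℝ) ^ C₁) * (2 * (L * G))) := by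
              refine Real.exp_le_exp.mpr ?_
              have h3 : 0 ≤ 8 * (n : ℝ) ^ 2 + (n : ℝ) ^ C₁ := by positivity
              nlinarith
      have h2 : (n : ℝ) ^ C₂ * (S * L) * (1 + Real.log ((2 * n * k : ℕ) : ℝ)) ^ 2 ≤
          4 * (n : ℝ) ^ 2 * ((n : ℝ) ^ C₂ * S) * (L * G) := by
        have h3 := num_log hn3 hk
        have h4 : 0 ≤ (n : ℝ) ^ C₂ * (S * L) := mul_nonneg hY0 (by linarith)
        calc (n : ℝ) ^ C₂ * (S * L) * (1 + Real.log ((2 * n * k : ℕ) : ℝ)) ^ 2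
            ≤ (n : ℝ) ^ C₂ * (S * L) * (4 * (n : ℝ) ^ 2 * (1 + Real.log k) ^ 2) :=
              mul_le_mul_of_nonneg_left h3 h4
          _ = 4 * (n : ℝ) ^ 2 * ((n : ℝ) ^ C₂ * S) * (L * G) := by rw [hG]; ring
      calc 8 * (n : ℝ) ^ 2 * s *
          Real.exp ((n : ℝ) ^ C₂ * (S * L) * (1 + Real.log ((2 * n * k : ℕ) : ℝ)) ^ 2)
          ≤ Real.exp ((8 * (n : ℝ) ^ 2 + (n : ℝ) ^ C₁) * (2 * (L * G))) *
            Real.exp (4 * (n : ℝ) ^ 2 * ((n : ℝ) ^ C₂ * S) * (L * G)) :=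
            mul_le_mul h1 (Real.exp_le_exp.mpr h2) (Real.exp_pos _).le (Real.exp_pos _).le
        _ = Real.exp (T * (L * G)) := by
            rw [← Real.exp_add, hT]
            congr 1
            ring
    · refine le_trans h (mul_le_mul_of_nonneg_left ?_ (by linarith))
      have h2 : 4 * (n : ℝ) ≤ Real.exp (4 * (n : ℝ)) := by
        have := Real.add_one_le_exp (4 * (n : ℝ))
        linarith
      calc 4 * (n : ℝ) * 2 ^ n ≤ Real.exp (4 * (n : ℝ)) * Real.exp n :=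
            mul_le_mul h2 (exp_two n) (by positivity) (Real.exp_pos _).le
        _ = Real.exp (5 * (n : ℝ)) := by rw [← Real.exp_add]; congr 1; ring
        _ ≤ Real.exp (T * (L * G)) := by
            refine Real.exp_le_exp.mpr ?_
            have h3 : 10 * (n : ℝ) ≤ T := by
              rw [hT]
              have h4 : 0 ≤ 4 * (n : ℝ) ^ 2 * ((n : ℝ) ^ C₂ * Real.exp ((n : ℝ) ^ C₁)) :=
                mul_nonneg (by positivity) (mul_nonneg hY0 (Real.exp_pos _).le)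
              nlinarith
            nlinarith
  have hlow : ((x : ℝ) - y) * (x : ℝ) ^ (n - 1) ≤ (c : ℝ) ^ k := by
    have h1 : (y : ℝ) ^ n + (c : ℝ) ^ k = (x : ℝ) ^ n := by exact_mod_cast heq
    have h2 : (y : ℝ) ^ n ≤ (y : ℝ) * (x : ℝ) ^ (n - 1) := by
      have e : (y : ℝ) ^ n = (y : ℝ) * (y : ℝ) ^ (n - 1) := by
        rw [← pow_succ']
        congr 1
        omega
      rw [e]
      exact mul_le_mul_of_nonneg_left (pow_le_pow_left₀ hyR.le hxyR.le _) hyR.le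
    have h3 : (x : ℝ) ^ n = (x : ℝ) * (x : ℝ) ^ (n - 1) := by
      rw [← pow_succ']
      congr 1
      omega
    nlinarith
  have hxn : (x : ℝ) ^ n = (x : ℝ) ^ (n - 1) * x := by
    rw [← pow_succ]
    congr 1
    omega
  have hEE : Real.exp (T * (L * G)) ≤
      Real.exp (Real.exp ((n : ℝ) ^ (C₁ + C₂ + 5)) * Real.log c * (1 + Real.log k) ^ 2) := by
    refine Real.exp_le_exp.mpr (le_trans hTLG (le_of_eq ?_))
    rw [hG, hL]
    ring
  calc (x : ℝ) ^ n = (x : ℝ) ^ (n - 1) * x := hxn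
    _ ≤ (x : ℝ) ^ (n - 1) * (((x : ℝ) - y) * Real.exp (T * (L * G))) :=
        mul_le_mul_of_nonneg_left hmain (by positivity)
    _ = (((x : ℝ) - y) * (x : ℝ) ^ (n - 1)) * Real.exp (T * (L * G)) := by ring
    _ ≤ (c : ℝ) ^ k * Real.exp (T * (L * G)) :=
        mul_le_mul_of_nonneg_right hlow (Real.exp_pos _).le
    _ ≤ (c : ℝ) ^ k *
      Real.exp (Real.exp ((n : ℝ) ^ (C₁ + C₂ + 5)) * Real.log c * (1 + Real.log k) ^ 2) :=
        mul_le_mul_of_nonneg_left hEE (by positivity)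

end Pool.Agent.Work.MP_2738db_nt_Y.helper63
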