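import Pool.Agent.Work.MP_2738db_nt_Y_helper63.Ark2

set_option autoImplicit false

/-!
Theorem Y, phase 5, block ARK: Archimedean lower bound for `|β ^ n - 1|`, `|β| = 1`, over a number
field.
-/

namespace Pool.Agent.Work.MP_2738db_nt_Y.helper63

open Finset BigOperators NumberField
open Pool.Agent.Work.MP_2738db_nt_A (HB)

/-- the real numbers of the reduction -/
lemma ark_final {A μ T s d : ℝ} (hA : 1 ≤ A) (hT : 1 ≤ T) (hμ : 1 ≤ μ)
    (hd : Real.exp (-(10 ^ 8 * A * T * μ ^ 2)) ≤ d) (hs : 2 / Real.pi * d ≤ s) :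
    Real.exp (-(10 ^ 9 * A * T * μ ^ 2)) ≤ s := by
  have hpi := Real.pi_lt_d2
  have hpi0 := Real.pi_pos
  have hAν : 1 ≤ A * T * μ ^ 2 :=
    one_le_mul_of_one_le_of_one_le (one_le_mul_of_one_le_of_one_le hA hT) (one_le_pow₀ hμ)
  have h1 : Real.exp (-(10 ^ 9 * A * T * μ ^ 2)) ≤
      Real.exp (-(10 ^ 8 * A * T * μ ^ 2)) * Real.exp (-(16 : ℝ)) := by
    rw [← Real.exp_add]
    apply Real.exp_le_exp.mpr
    have h2 : 10 ^ 9 * A * T * μ ^ 2 = 10 ^ 9 * (A * T * μ ^ 2) := by ring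
    have h3 : 10 ^ 8 * A * T * μ ^ 2 = 10 ^ 8 * (A * T * μ ^ 2) := by ring
    rw [h2, h3]
    linarith
  have h2 : Real.exp (-(16 : ℝ)) ≤ 1 / 16 := by
    rw [Real.exp_neg, ← one_div]
    apply one_div_le_one_div_of_le (by norm_num)
    have := Real.add_one_le_exp (16 : ℝ)
    linarith
  have h3 : Real.exp (-(10 ^ 8 * A * T * μ ^ 2)) * Real.exp (-(16 : ℝ)) ≤
      Real.exp (-(10 ^ 8 * A * T * μ ^ 2)) * (1 / 16) :=
    mul_le_mul_of_nonneg_left h2 (Real.exp_pos _).le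
  have hE := Real.exp_pos (-(10 ^ 8 * A * T * μ ^ 2))
  set E := Real.exp (-(10 ^ 8 * A * T * μ ^ 2)) with hEdef
  have h4 : 1 / 2 ≤ 2 / Real.pi := by
    rw [div_le_div_iff₀ (by norm_num) hpi0]
    linarith
  have hd0 : 0 ≤ d := by linarith
  have h5 : 1 / 2 * d ≤ 2 / Real.pi * d := mul_le_mul_of_nonneg_right h4 hd0
  linarith

theorem ark_main {K : Type} [Field K] [NumberField K] (φ : K →+* ℂ) (β₁ β₂ : 𝓞 K) (n : ℕ)
    (A T : ℝ) (hβ₁ : β₁ ≠ 0) (hβ₂ : β₂ ≠ 0) (hn : 1 ≤ n) (hA1 : 1 ≤ A)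
    (hT : (Module.finrank ℚ K : ℝ) + 1 ≤ T) (hh₁ : HB K β₁ A) (hh₂ : HB K β₂ A)
    (hnorm : ‖φ (β₁ : K)‖ = ‖φ (β₂ : K)‖) (hrt : ∀ j : ℕ, 1 ≤ j → β₁ ^ j ≠ β₂ ^ j) :
    Real.exp (-(10 ^ 9 * A * T * (T * (1 + Real.log n)) ^ 2)) ≤
      ‖(φ (β₁ : K) / φ (β₂ : K)) ^ n - 1‖ := by
  set a : ℂ := φ (β₁ : K) with ha
  set c : ℂ := φ (β₂ : K) with hc
  set ν : ℝ := 1 + Real.log n with hνdef
  have hn1 : (1 : ℝ) ≤ n := by exact_mod_cast hn
  have hnpos : (0 : ℝ) < n := by linarith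
  have hν1 : 1 ≤ ν := by have := Real.log_nonneg hn1; linarith
  have hD0 : (0 : ℝ) ≤ (Module.finrank ℚ K : ℝ) := Nat.cast_nonneg _
  have hT1 : 1 ≤ T := by linarith
  have hinj : Function.Injective φ := φ.injective
  have ha0 : a ≠ 0 := by
    rw [ha, Ne, map_eq_zero]
    intro h0
    exact hβ₁ ((NumberField.RingOfIntegers.coe_eq_zero_iff).mp h0)
  have hc0 : c ≠ 0 := by
    rw [hc, Ne, map_eq_zero]
    intro h0
    exact hβ₂ ((NumberField.RingOfIntegers.coe_eq_zero_iff).mp h0)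
  have hcpos : 0 < ‖c‖ := norm_pos_iff.mpr hc0
  have hxn : ‖a / c‖ = 1 := by
    rw [norm_div, hnorm, div_self hcpos.ne']
  set ψ : ℝ := Complex.arg (a / c) with hψ
  have hx : a / c = Complex.exp ((ψ : ℂ) * Complex.I) := by
    have h1 := Complex.norm_mul_exp_arg_mul_I (a / c)
    rw [hxn, Complex.ofReal_one, one_mul] at h1
    exact h1.symm
  have hrootpow : ∀ m : ℕ, 1 ≤ m → (a / c) ^ m ≠ 1 := by
    intro m hm h1
    rw [div_pow, div_eq_one_iff_eq (pow_ne_zero _ hc0)] at h1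
    apply hrt m hm
    apply RingOfIntegers.coe_injective
    apply hinj
    rw [map_pow, map_pow, map_pow, map_pow]
    exact h1
  have hx0 : a / c ≠ 0 := div_ne_zero ha0 hc0
  have hroot : ∀ m n : ℕ, (a / c) ^ m = (a / c) ^ n → m = n := by
    have key : ∀ m n : ℕ, m < n → (a / c) ^ m ≠ (a / c) ^ n := by
      intro m n hmn he
      obtain ⟨d, rfl⟩ : ∃ d, n = m + (d + 1) := ⟨n - m - 1, by omega⟩
      rw [pow_add] at he
      have h1 : (a / c) ^ (d + 1) = 1 := by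
        have h2 := pow_ne_zero m hx0
        have h3 : (a / c) ^ m * (a / c) ^ (d + 1) = (a / c) ^ m * 1 := by
          rw [mul_one]; exact he.symm
        exact mul_left_cancel₀ h2 h3
      exact hrootpow _ (by omega) h1
    intro m n h
    rcases lt_trichotomy m n with h1 | h1 | h1
    · exact absurd h (key m n h1)
    · exact h1
    · exact absurd h.symm (key n m h1)
  -- the nearest multiple of 2π
  have hpi0 := Real.pi_pos
  set j : ℤ := round (n * ψ / (2 * Real.pi)) with hj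
  set δ : ℝ := n * ψ - j * (2 * Real.pi) with hδ
  have hδ2 : |δ| ≤ Real.pi := by
    have h1 := abs_sub_round (n * ψ / (2 * Real.pi))
    rw [← hj] at h1
    have h2 : δ = (n * ψ / (2 * Real.pi) - j) * (2 * Real.pi) := by rw [hδ]; field_simp
    rw [h2, abs_mul, abs_of_pos (show (0 : ℝ) < 2 * Real.pi by positivity)]
    calc |n * ψ / (2 * Real.pi) - j| * (2 * Real.pi) ≤ 1 / 2 * (2 * Real.pi) :=
          mul_le_mul_of_nonneg_right h1 (by positivity)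
      _ = _ := by ring
  have hxδ : (a / c) ^ n = Complex.exp (Complex.I * (δ : ℂ)) := by
    rw [hx, ← Complex.exp_nat_mul]
    have h1 : (n : ℂ) * ((ψ : ℂ) * Complex.I) = Complex.I * (δ : ℂ) +
        j * (2 * Real.pi * Complex.I) := by
      rw [hδ]
      push_cast
      ring
    rw [h1]
    exact Complex.exp_periodic.int_mul j _
  have hsin : 2 / Real.pi * |δ| ≤ ‖(a / c) ^ n - 1‖ := by
    rw [hxδ, Complex.norm_exp_I_mul_ofReal_sub_one, norm_mul, Real.norm_eq_abs, Real.norm_eq_abs,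
      abs_of_pos (show (0 : ℝ) < 2 by norm_num)]
    have h1 : |δ / 2| ≤ Real.pi / 2 := by
      rw [abs_div, abs_of_pos (show (0 : ℝ) < 2 by norm_num)]
      linarith
    have h2 := Real.mul_abs_le_abs_sin h1
    rw [abs_div, abs_of_pos (show (0 : ℝ) < 2 by norm_num)] at h2
    have h3 : 2 / Real.pi * |δ| = 2 * (2 / Real.pi * (|δ| / 2)) := by ring
    rw [h3]
    exact mul_le_mul_of_nonneg_left h2 (by norm_num)
  have hTν : 1 ≤ T * ν := one_le_mul_of_one_le_of_one_le hT1 hν1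
  refine ark_final hA1 hT1 hTν ?_ hsin
  -- lowest terms
  set g : ℕ := Int.gcd j n with hg
  have hgpos : 0 < g := Int.gcd_pos_of_ne_zero_right _ (by exact_mod_cast (by omega : n ≠ 0))
  obtain ⟨ℓ', hℓ'⟩ : ∃ ℓ' : ℕ, n = g * ℓ' := by
    have h1 : (g : ℤ) ∣ (n : ℤ) := Int.gcd_dvd_right _ _
    exact_mod_cast h1
  obtain ⟨k₁, hk₁⟩ : ∃ k₁ : ℤ, j = g * k₁ := Int.gcd_dvd_left _ _
  have hℓ1 : 1 ≤ ℓ' := by
    rcases Nat.eq_zero_or_pos ℓ' with h0 | h0
    · rw [h0, mul_zero] at hℓ'; omega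
    · exact h0
  have hcop1 : Int.gcd k₁ ℓ' = 1 := by
    have h1 : Int.gcd j n = g * Int.gcd k₁ ℓ' := by
      rw [hk₁, hℓ']
      push_cast
      rw [Int.gcd_mul_left]
      simp
    rw [← hg] at h1
    have h2 : g * Int.gcd k₁ ℓ' = g * 1 := by rw [mul_one]; exact h1.symm
    exact Nat.eq_of_mul_eq_mul_left hgpos h2
  set lm : ℝ := δ / n with hlm
  have hgr : (0 : ℝ) < g := by exact_mod_cast hgpos
  have hℓr : (1 : ℝ) ≤ ℓ' := by exact_mod_cast hℓ1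
  have hℓpos : (0 : ℝ) < ℓ' := by linarith
  have hkr : (n : ℝ) = g * ℓ' := by exact_mod_cast hℓ'
  have hk₁r : (j : ℝ) = g * k₁ := by exact_mod_cast hk₁
  have hψ2 : ψ = k₁ * (2 * Real.pi / ℓ') + lm := by
    have h1 : ψ = (δ + j * (2 * Real.pi)) / n := by rw [hδ]; field_simp; ring
    rw [hlm, h1, hk₁r, hkr]
    field_simp
    ring
  have hlmδ : |lm| ≤ |δ| := by
    rw [hlm, abs_div, abs_of_pos hnpos]
    exact div_le_self (by positivity) hn1
  have hℓn : (ℓ' : ℝ) ≤ n := by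
    rw [hkr]
    have : (1 : ℝ) ≤ g := by exact_mod_cast hgpos
    exact le_mul_of_one_le_left hℓpos.le this
  by_cases hcase : 10 ^ 4 * (T * ν) ≤ ℓ'
  · -- the determinant bound
    have hmod : (0 : ℤ) < (ℓ' : ℤ) := by omega
    set k₀ : ℕ := (k₁ % (ℓ' : ℤ)).toNat with hk₀
    have hk₀z : (k₀ : ℤ) = k₁ % (ℓ' : ℤ) := by
      rw [hk₀, Int.toNat_of_nonneg (Int.emod_nonneg _ hmod.ne')]
    have hk₀lt : k₀ ≤ ℓ' := by
      have h1 := Int.emod_lt_of_pos k₁ hmod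
      omega
    have hdiv := Int.emod_add_mul_ediv k₁ (ℓ' : ℤ)
    set q : ℤ := k₁ / (ℓ' : ℤ) with hq
    have hk₁eq : k₁ = k₀ + ℓ' * q := by rw [hk₀z]; linarith
    have hcop2 : Nat.Coprime ℓ' k₀ := by
      rw [Nat.coprime_comm]
      have h1 : Int.gcd ((k₀ : ℤ) + ℓ' * q) ℓ' = Int.gcd (k₀ : ℤ) ℓ' :=
        Int.gcd_add_mul_left_left _ _ _
      rw [← hk₁eq, hcop1] at h1
      have h3 : Int.gcd (k₀ : ℤ) (ℓ' : ℤ) = Nat.gcd k₀ ℓ' := Int.gcd_natCast_natCast _ _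
      rw [h3] at h1
      exact h1.symm
    have hxk : a / c = Complex.exp (((k₀ * (2 * Real.pi / ℓ') + lm : ℝ) : ℂ) * Complex.I) := by
      rw [hx]
      have h1 : ψ = (k₀ * (2 * Real.pi / ℓ') + lm) + q * (2 * Real.pi) := by
        rw [hψ2, hk₁eq]
        push_cast
        field_simp
        ring
      rw [h1]
      have h2 : ((((k₀ * (2 * Real.pi / ℓ') + lm) + q * (2 * Real.pi) : ℝ)) : ℂ) * Complex.I =
          (((k₀ * (2 * Real.pi / ℓ') + lm : ℝ)) : ℂ) * Complex.I + q * (2 * Real.pi * Complex.I) := by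
        push_cast
        ring
      rw [h2]
      exact Complex.exp_periodic.int_mul q _
    have hlogk : 1 + Real.log ℓ' ≤ ν := by
      rw [hνdef]
      have := Real.log_le_log hℓpos hℓn
      linarith
    exact (arkLog φ β₁ β₂ hβ₁ hβ₂ hroot A T ν lm hcop2 hℓ1 hk₀lt hA1 hh₁ hh₂ hT hlogk hcase
      hxk).trans hlmδ
  · -- Liouville
    rw [not_le] at hcase
    have hne := hrt ℓ' hℓ1
    have hdiff : β₁ ^ ℓ' - β₂ ^ ℓ' ≠ 0 := sub_ne_zero.mpr hne
    have hco : ∀ σ : K →+* ℂ, σ ((β₁ ^ ℓ' - β₂ ^ ℓ' : 𝓞 K) : K) =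
        σ (β₁ : K) ^ ℓ' - σ (β₂ : K) ^ ℓ' := by
      intro σ
      simp only [map_sub, map_pow]
    have hσ : ∀ σ : K →+* ℂ, ‖σ ((β₁ ^ ℓ' - β₂ ^ ℓ' : 𝓞 K) : K)‖ ≤ Real.exp (1 + ℓ' * A) := by
      intro σ
      have e1 := HB_embed hh₁ σ
      have e2 := HB_embed hh₂ σ
      rw [hco σ]
      have e3 : ‖σ (β₁ : K)‖ ^ ℓ' ≤ Real.exp (ℓ' * A) := by
        rw [Real.exp_nat_mul]
        exact pow_le_pow_left₀ (norm_nonneg _) e1 _
      have e4 : ‖σ (β₂ : K)‖ ^ ℓ' ≤ Real.exp (ℓ' * A) := by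
        rw [Real.exp_nat_mul]
        exact pow_le_pow_left₀ (norm_nonneg _) e2 _
      have e5 : (2 : ℝ) ≤ Real.exp 1 := by
        have := Real.add_one_le_exp (1 : ℝ)
        linarith
      have e6 := Real.exp_pos (ℓ' * A)
      rw [Real.exp_add]
      refine (norm_sub_le _ _).trans ?_
      rw [norm_pow, norm_pow]
      have e7 : 2 * Real.exp (ℓ' * A) ≤ Real.exp 1 * Real.exp (ℓ' * A) :=
        mul_le_mul_of_nonneg_right e5 e6.le
      linarith
    have hℓA0 : 0 ≤ ℓ' * A := by positivity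
    have hone := ark_liouville φ hdiff (Real.one_le_exp (by linarith)) hσ
    rw [hco φ, ← ha, ← hc] at hone
    have h1 : a ^ ℓ' - c ^ ℓ' = c ^ ℓ' * ((a / c) ^ ℓ' - 1) := by
      rw [mul_sub, mul_one, div_pow, mul_div_cancel₀ _ (pow_ne_zero _ hc0)]
    have h2 : (a / c) ^ ℓ' = Complex.exp (Complex.I * ((ℓ' * lm : ℝ) : ℂ)) := by
      rw [hx, ← Complex.exp_nat_mul, hψ2]
      have h3 : (ℓ' : ℂ) * ((((k₁ * (2 * Real.pi / ℓ') + lm : ℝ)) : ℂ) * Complex.I) =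
          Complex.I * ((ℓ' * lm : ℝ) : ℂ) + k₁ * (2 * Real.pi * Complex.I) := by
        have hℓc : (ℓ' : ℂ) ≠ 0 := by exact_mod_cast hℓpos.ne'
        push_cast
        field_simp
        ring
      rw [h3]
      exact Complex.exp_periodic.int_mul k₁ _
    have h4 : ‖Complex.exp (Complex.I * ((ℓ' * lm : ℝ) : ℂ)) - 1‖ ≤ |δ| := by
      have h5 := Real.norm_exp_I_mul_ofReal_sub_one_le (x := (ℓ' * lm : ℝ))
      rw [Real.norm_eq_abs, abs_mul, abs_of_pos hℓpos] at h5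
      refine h5.trans ?_
      rw [hlm, abs_div, abs_of_pos hnpos, mul_div_assoc', div_le_iff₀ hnpos, mul_comm]
      exact mul_le_mul_of_nonneg_left hℓn (abs_nonneg _)
    have h5 : ‖a ^ ℓ' - c ^ ℓ'‖ ≤ Real.exp (1 + ℓ' * A) * |δ| := by
      rw [h1, norm_mul, norm_pow, h2]
      apply mul_le_mul _ h4 (norm_nonneg _) (Real.exp_pos _).le
      have e2 := HB_embed hh₂ φ
      rw [← hc] at e2
      calc ‖c‖ ^ ℓ' ≤ (Real.exp A) ^ ℓ' := pow_le_pow_left₀ (norm_nonneg _) e2 _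
        _ = Real.exp (ℓ' * A) := by rw [← Real.exp_nat_mul]
        _ ≤ _ := Real.exp_le_exp.mpr (by linarith)
    have h6 : 1 ≤ Real.exp (T * (1 + ℓ' * A)) * |δ| := by
      refine hone.trans ?_
      have e1 : Real.exp (1 + ℓ' * A) ^ (Module.finrank ℚ K) =
          Real.exp ((Module.finrank ℚ K : ℝ) * (1 + ℓ' * A)) := by rw [← Real.exp_nat_mul]
      rw [e1]
      calc ‖a ^ ℓ' - c ^ ℓ'‖ * Real.exp ((Module.finrank ℚ K : ℝ) * (1 + ℓ' * A))
          ≤ (Real.exp (1 + ℓ' * A) * |δ|) * Real.exp ((Module.finrank ℚ K : ℝ) * (1 + ℓ' * A)) :=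
            mul_le_mul_of_nonneg_right h5 (Real.exp_pos _).le
        _ = Real.exp (((Module.finrank ℚ K : ℝ) + 1) * (1 + ℓ' * A)) * |δ| := by
            generalize 1 + (ℓ' : ℝ) * A = w
            rw [add_mul, one_mul, Real.exp_add]
            ring
        _ ≤ _ := by
            apply mul_le_mul_of_nonneg_right _ (abs_nonneg _)
            apply Real.exp_le_exp.mpr
            exact mul_le_mul_of_nonneg_right hT (by linarith)
    have h8 : T * (1 + ℓ' * A) ≤ 10 ^ 8 * A * T * (T * ν) ^ 2 := by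
      obtain ⟨μ, hμ⟩ : ∃ μ : ℝ, μ = T * ν := ⟨_, rfl⟩
      rw [← hμ] at hcase hTν ⊢
      have e1 : (ℓ' : ℝ) * A ≤ 10 ^ 4 * μ * A := mul_le_mul_of_nonneg_right hcase.le (by linarith)
      have e2 : μ * A ≤ μ ^ 2 * A := by
        apply mul_le_mul_of_nonneg_right _ (by linarith)
        rw [sq]
        exact le_mul_of_one_le_left (by linarith) hTν
      have e3 : 1 ≤ μ ^ 2 * A := one_le_mul_of_one_le_of_one_le (one_le_pow₀ hTν) hA1
      have e4 : 1 + ℓ' * A ≤ 10 ^ 8 * (μ ^ 2 * A) := by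
        have : 10 ^ 4 * μ * A = 10 ^ 4 * (μ * A) := by ring
        rw [this] at e1
        linarith
      calc T * (1 + ℓ' * A) ≤ T * (10 ^ 8 * (μ ^ 2 * A)) :=
            mul_le_mul_of_nonneg_left e4 (by linarith)
        _ = _ := by ring
    rw [Real.exp_neg, inv_le_iff_one_le_mul₀ (Real.exp_pos _), mul_comm]
    calc 1 ≤ Real.exp (T * (1 + ℓ' * A)) * |δ| := h6
      _ ≤ Real.exp (10 ^ 8 * A * T * (T * ν) ^ 2) * |δ| :=
          mul_le_mul_of_nonneg_right (Real.exp_le_exp.mpr h8) (abs_nonneg _)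

/-- **ARK** -/
theorem ark : Stmt_Ark := by
  refine ⟨(36 : ℕ), by norm_num, ?_⟩
  intro K _ _ φ β₁ β₂ n A H hβ₁ hβ₂ hn hA hH hD hh₁ hh₂ hnorm hrt
  have hT : (Module.finrank ℚ K : ℝ) + 1 ≤ 2 * H := by linarith
  refine le_trans ?_ (ark_main φ β₁ β₂ n A (2 * H) hβ₁ hβ₂ hn hA hT hh₁ hh₂ hnorm hrt)
  apply Real.exp_le_exp.mpr
  rw [neg_le_neg_iff, Real.rpow_natCast]
  have hn1 : (1 : ℝ) ≤ n := by exact_mod_cast hn
  have hν1 : 0 ≤ Real.log n := Real.log_nonneg hn1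
  have h1 : (2 : ℝ) ^ 33 ≤ H ^ 33 := pow_le_pow_left₀ (by norm_num) hH 33
  have h2 : 10 ^ 9 * 8 * H ^ 3 ≤ H ^ 36 := by
    have h3 : H ^ 36 = H ^ 33 * H ^ 3 := by ring
    rw [h3]
    apply mul_le_mul_of_nonneg_right _ (by positivity)
    refine le_trans ?_ h1
    norm_num
  have h4 : 10 ^ 9 * A * (2 * H) * (2 * H * (1 + Real.log n)) ^ 2 =
      (10 ^ 9 * 8 * H ^ 3) * (A * (1 + Real.log n) ^ 2) := by ring
  rw [h4]
  calc (10 ^ 9 * 8 * H ^ 3) * (A * (1 + Real.log n) ^ 2) ≤ H ^ 36 * (A * (1 + Real.log n) ^ 2) :=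
        mul_le_mul_of_nonneg_right h2 (by positivity)
    _ = _ := by ring

end Pool.Agent.Work.MP_2738db_nt_Y.helper63
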