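import Pool.Agent.Work.MP_2738db_nt_Y_helper63.ArkCore

set_option autoImplicit false

/-!
Two logarithms over a number field (block ARK of theorem Y), following
`MP_2738db_nt_Y_helper93/ARG.lean`.
-/

namespace Pool.Agent.Work.MP_2738db_nt_Y.helper63

open Finset BigOperators NumberField
open Pool.Agent.Work.MP_2738db_nt_A (HB)
open Pool.Agent.Work.MP_2738db_nt_W (choose_bound)

theorem log_le_two_sqrt {M T : ℝ} (hT : 1 ≤ T) (hM : 400 * T ^ 2 ≤ M) :
    T * Real.log M ≤ M / 10 := by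
  have hM0 : 0 < M := by nlinarith
  have h1 : Real.log M = 2 * Real.log (Real.sqrt M) := by
    rw [Real.log_sqrt hM0.le]; ring
  have h2 : Real.log (Real.sqrt M) ≤ Real.sqrt M := by
    have := Real.log_le_sub_one_of_pos (Real.sqrt_pos.mpr hM0)
    linarith
  have h3 : 20 * T ≤ Real.sqrt M := by
    apply Real.le_sqrt_of_sq_le
    nlinarith
  have h4 : Real.sqrt M * Real.sqrt M = M := Real.mul_self_sqrt hM0.le
  have h5 : T * Real.log M ≤ T * (2 * Real.sqrt M) := by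
    apply mul_le_mul_of_nonneg_left _ (by linarith)
    rw [h1]; linarith
  have h6 : 20 * T * Real.sqrt M ≤ Real.sqrt M * Real.sqrt M :=
    mul_le_mul_of_nonneg_right h3 (Real.sqrt_nonneg _)
  nlinarith

/-- the lower bound for the distance of `β₁ / β₂` to a root of unity -/
theorem arkLog {F : Type} [Field F] [NumberField F] (φ : F →+* ℂ)
    (β₁ β₂ : 𝓞 F) (hβ₁ : β₁ ≠ 0) (hβ₂ : β₂ ≠ 0)
    (hroot : ∀ a b : ℕ, (φ (β₁ : F) / φ (β₂ : F)) ^ a = (φ (β₁ : F) / φ (β₂ : F)) ^ b →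
      a = b)
    {k₀ ℓ : ℕ} (A T ν lm : ℝ) (hcop : Nat.Coprime ℓ k₀) (hℓ : 1 ≤ ℓ) (hk : k₀ ≤ ℓ)
    (hA : 1 ≤ A) (hh₁ : HB F β₁ A) (hh₂ : HB F β₂ A)
    (hT : (Module.finrank ℚ F : ℝ) + 1 ≤ T)
    (hν : 1 + Real.log ℓ ≤ ν) (hℓν : 10 ^ 4 * (T * ν) ≤ ℓ)
    (hlmx : φ (β₁ : F) / φ (β₂ : F) =
      Complex.exp (((k₀ * (2 * Real.pi / ℓ) + lm : ℝ) : ℂ) * Complex.I)) :
    Real.exp (-(10 ^ 8 * A * T * (T * ν) ^ 2)) ≤ |lm| := by
  by_contra hcon
  rw [not_le] at hcon
  have hℓ1 : (1 : ℝ) ≤ ℓ := by exact_mod_cast hℓ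
  have hν1 : 1 ≤ ν := by have := Real.log_nonneg hℓ1; linarith
  have hD0 : (0 : ℝ) ≤ (Module.finrank ℚ F : ℝ) := Nat.cast_nonneg _
  have hT1 : 1 ≤ T := by linarith
  obtain ⟨μ, hμ⟩ : ∃ μ : ℝ, μ = T * ν := ⟨_, rfl⟩
  rw [← hμ] at hcon hℓν
  have hTμ : T ≤ μ := by rw [hμ]; exact le_mul_of_one_le_right (by linarith) hν1
  have hμ1 : 1 ≤ μ := by linarith
  set L : ℕ := ⌈60 * μ⌉₊ with hLdef
  have hL1 : 60 * μ ≤ L := Nat.le_ceil _
  have hL2 : (L : ℝ) ≤ 61 * μ := by
    have := Nat.ceil_lt_add_one (show 0 ≤ 60 * μ by linarith)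
    rw [← hLdef] at this
    linarith
  have hL60 : (60 : ℝ) ≤ L := by linarith
  obtain ⟨A', hA'⟩ : ∃ A' : ℝ, A' = A * T := ⟨_, rfl⟩
  have hA'1 : 1 ≤ A' := by rw [hA']; exact one_le_mul_of_one_le_of_one_le hA hT1
  have hcon' : |lm| < Real.exp (-(10 ^ 8 * A' * μ ^ 2)) := by
    have e : 10 ^ 8 * A' * μ ^ 2 = 10 ^ 8 * A * T * μ ^ 2 := by rw [hA']; ring
    rw [e]
    exact hcon
  set K : ℕ := ⌈10 ^ 4 * L * A'⌉₊ with hKdef
  have hA0 : 0 ≤ A' := by linarith
  have hLnn : (0 : ℝ) ≤ L := Nat.cast_nonneg _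
  have hK1 : 10 ^ 4 * L * A' ≤ K := Nat.le_ceil _
  have hK2 : (K : ℝ) ≤ 10 ^ 4 * L * A' + 1 := by
    have := Nat.ceil_lt_add_one (show 0 ≤ 10 ^ 4 * L * A' by positivity)
    rw [← hKdef] at this
    linarith
  set R : ℕ := 100 * L with hRdef
  have hRr : (R : ℝ) = 100 * L := by rw [hRdef]; push_cast; ring
  set S : ℕ := ⌈110 * L * A'⌉₊ with hSdef
  have hS1 : 110 * L * A' ≤ S := Nat.le_ceil _
  have hS2 : (S : ℝ) ≤ 110 * L * A' + 1 := by
    have := Nat.ceil_lt_add_one (show 0 ≤ 110 * L * A' by positivity)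
    rw [← hSdef] at this
    linarith
  set q : ℝ := L * A' with hq
  have hLq : (L : ℝ) ≤ q := by rw [hq]; exact le_mul_of_one_le_right hLnn hA'1
  have hq60 : 60 ≤ q := by linarith
  have hKq : 10 ^ 4 * q ≤ K := by rw [hq]; linarith [hK1]
  have hSq : (S : ℝ) ≤ 110 * q + 1 := by rw [hq]; linarith [hS2]
  have hK0 : 1 ≤ K := by
    have : (1 : ℝ) ≤ K := by linarith
    exact_mod_cast this
  have hL0 : 1 ≤ L := by
    have : (1 : ℝ) ≤ L := by linarith
    exact_mod_cast this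
  have hRℓ : R ≤ ℓ := by
    have h1 : (R : ℝ) ≤ ℓ := by
      rw [hRr]
      linarith
    exact_mod_cast h1
  have hKLab : (K : ℝ) * L ≤ (10 ^ 4 * L * A' + 1) * L := mul_le_mul_of_nonneg_right hK2 hLnn
  have hKL : K * L ≤ R * S := by
    have h1 : (K : ℝ) * L ≤ R * S := by
      refine hKLab.trans ?_
      have h2 : (100 * L : ℝ) * (110 * L * A') ≤ R * S := by
        rw [hRr]
        exact mul_le_mul_of_nonneg_left hS1 (by positivity)
      refine le_trans ?_ h2
      have h4 : (L : ℝ) * 1 ≤ L * q := mul_le_mul_of_nonneg_left (by linarith) hLnn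
      have h5 : (10 ^ 4 * L * A' + 1) * L = 10 ^ 4 * (L * q) + L := by rw [hq]; ring
      have h6 : (100 * L : ℝ) * (110 * L * A') = 11000 * (L * q) := by rw [hq]; ring
      rw [h5, h6]
      have h7 : 0 ≤ (L : ℝ) * q := by positivity
      linarith
    exact_mod_cast h1
  have hkr : (k₀ : ℝ) ≤ ℓ := by exact_mod_cast hk
  have hZ1 : ((R : ℝ) + L) * k₀ + S * ℓ ≤ (101 * L + S) * ℓ := by
    have h2 : ((R : ℝ) + L) * k₀ ≤ (101 * L) * ℓ := by
      rw [hRr]
      have h3 : (100 * (L : ℝ) + L) = 101 * L := by ring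
      rw [h3]
      exact mul_le_mul_of_nonneg_left hkr (by positivity)
    rw [add_mul]
    linarith
  have hZ : (R + L) * k₀ + S * ℓ ≤ K * ℓ := by
    have h1 : ((R : ℝ) + L) * k₀ + S * ℓ ≤ K * ℓ := by
      refine hZ1.trans ?_
      apply mul_le_mul_of_nonneg_right _ (by linarith)
      linarith
    exact_mod_cast h1
  have hKL' : (K : ℝ) * L ≤ 4 * 10 ^ 7 * A' * μ ^ 2 := by
    have h1 : (10 ^ 4 * L * A' + 1) * L ≤ (10 ^ 4 + 1) * L ^ 2 * A' := by
      have h2 : (10 ^ 4 + 1) * (L : ℝ) ^ 2 * A' =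
          (10 ^ 4 * L * A') * L + L * (L * A') := by ring
      have h3 : (L : ℝ) * 1 ≤ L * (L * A') :=
        mul_le_mul_of_nonneg_left (by linarith) hLnn
      rw [h2, add_mul]
      linarith
    have h4 : (L : ℝ) ^ 2 ≤ (61 * μ) ^ 2 := pow_le_pow_left₀ hLnn hL2 2
    have h5 : (10 ^ 4 + 1) * (L : ℝ) ^ 2 * A' ≤ (10 ^ 4 + 1) * (61 * μ) ^ 2 * A' :=
      mul_le_mul_of_nonneg_right (mul_le_mul_of_nonneg_left h4 (by norm_num)) (by linarith)
    have h6 : (10 ^ 4 + 1) * (61 * μ) ^ 2 * A' = 37213721 * (A' * μ ^ 2) := by ring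
    have h7 : 4 * 10 ^ 7 * A' * μ ^ 2 = 40000000 * (A' * μ ^ 2) := by ring
    have h8 : 0 ≤ A' * μ ^ 2 := by positivity
    rw [h7]
    linarith
  have hK0' : (0 : ℝ) < K := by exact_mod_cast hK0
  have hL0' : (0 : ℝ) < L := by exact_mod_cast hL0
  set Q : ℝ := (K * L) ^ 2 with hQ
  have hKL100 : (36 * 10 ^ 6 : ℝ) ≤ K * L := by
    calc (36 * 10 ^ 6 : ℝ) = (10 ^ 4 * 60) * 60 := by norm_num
      _ ≤ K * L := by
        apply mul_le_mul _ hL60 (by norm_num) hK0'.le
        linarith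
  have hQ100 : (10 ^ 6 : ℝ) ≤ Q := by
    rw [hQ, sq]
    have := mul_le_mul hKL100 hKL100 (by norm_num) (by positivity)
    linarith
  have hℓpos : (0 : ℝ) < ℓ := by linarith
  have hlmsmall : |lm| < Real.exp (-(5 / 2 * (K * L))) := by
    refine (hcon'.trans_le ?_)
    apply Real.exp_le_exp.mpr
    have h2 : 5 / 2 * ((K : ℝ) * L) ≤ 5 / 2 * (4 * 10 ^ 7 * A' * μ ^ 2) :=
      mul_le_mul_of_nonneg_left hKL' (by norm_num)
    have h3 : 5 / 2 * (4 * 10 ^ 7 * A' * μ ^ 2) = 10 ^ 8 * A' * μ ^ 2 := by ring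
    linarith
  have hKL1 : (1 : ℝ) ≤ K * L := by linarith
  have hpow2 : (2 : ℝ) ^ (K * L + 1) ≤ 2 * Real.exp (7 / 10 * (K * L)) := by
    have h1 : (2 : ℝ) ^ (K * L) = Real.exp ((K * L : ℕ) * Real.log 2) := by
      rw [Real.exp_nat_mul, Real.exp_log (by norm_num)]
    rw [pow_succ, mul_comm, h1]
    apply mul_le_mul_of_nonneg_left _ (by norm_num)
    apply Real.exp_le_exp.mpr
    push_cast
    have h2 := Real.log_two_lt_d9
    have h3 : (K : ℝ) * L * Real.log 2 ≤ K * L * (7 / 10) :=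
      mul_le_mul_of_nonneg_left (by linarith) (by positivity)
    linarith
  have hδ : |lm| * ((L : ℝ) * (R + L)) * 2 ^ (K * L + 1) ≤ 1 := by
    have h1 : (L : ℝ) * (R + L) ≤ K * L := by
      calc (L : ℝ) * (R + L) ≤ L * K := mul_le_mul_of_nonneg_left (by linarith) (by positivity)
        _ = _ := by ring
    have h2 : (K : ℝ) * L ≤ Real.exp (K * L) := by
      have := Real.add_one_le_exp ((K : ℝ) * L)
      linarith
    have h3 : |lm| * ((L : ℝ) * (R + L)) ≤ Real.exp (-(5 / 2 * (K * L))) * Real.exp (K * L) :=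
      mul_le_mul hlmsmall.le (h1.trans h2) (by positivity) (Real.exp_pos _).le
    have h4 : |lm| * ((L : ℝ) * (R + L)) * 2 ^ (K * L + 1) ≤
        (Real.exp (-(5 / 2 * (K * L))) * Real.exp (K * L)) * (2 * Real.exp (7 / 10 * (K * L))) :=
      mul_le_mul h3 hpow2 (by positivity) (by positivity)
    refine h4.trans ?_
    have h5 : (Real.exp (-(5 / 2 * (K * L))) * Real.exp (K * L)) * (2 * Real.exp (7 / 10 * (K * L)))
        = 2 * Real.exp (-(8 / 10 * ((K : ℝ) * L))) := by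
      have h6 : Real.exp (-(8 / 10 * ((K : ℝ) * L))) =
          Real.exp (-(5 / 2 * (K * L))) * Real.exp (K * L) * Real.exp (7 / 10 * (K * L)) := by
        rw [← Real.exp_add, ← Real.exp_add]
        congr 1
        ring
      rw [h6]
      ring
    rw [h5, Real.exp_neg, ← div_eq_mul_inv, div_le_one (Real.exp_pos _)]
    have h7 := Real.add_one_le_exp (8 / 10 * ((K : ℝ) * L))
    linarith
  -- the exponent part
  have hpi := Real.pi_lt_d2
  have hpi0 := Real.pi_pos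
  have hW : ((((R + L) * k₀ + S * ℓ : ℕ) : ℝ)) * (2 * Real.pi / ℓ) ≤ K * (140 / 1000) := by
    push_cast
    have h1 : ((R : ℝ) + L) * k₀ + S * ℓ ≤ (101 * L + S) * ℓ := hZ1
    have h2 : (((R : ℝ) + L) * k₀ + S * ℓ) * (2 * Real.pi / ℓ) ≤
        ((101 * L + S) * ℓ) * (2 * Real.pi / ℓ) :=
      mul_le_mul_of_nonneg_right h1 (by positivity)
    have h3 : ((101 * (L : ℝ) + S) * ℓ) * (2 * Real.pi / ℓ) = (101 * L + S) * (2 * Real.pi) := by
      field_simp
    rw [h3] at h2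
    have h4 : (101 * (L : ℝ) + S) * (2 * Real.pi) ≤ (101 * L + S) * (6300 / 1000) :=
      mul_le_mul_of_nonneg_left (by linarith) (by positivity)
    have h5 : (101 * (L : ℝ) + S) ≤ 212 * q := by linarith
    have h6 : (101 * (L : ℝ) + S) * (6300 / 1000) ≤ 212 * q * (6300 / 1000) :=
      mul_le_mul_of_nonneg_right h5 (by norm_num)
    linarith
  have hcore := coreK φ β₁ β₂ hβ₁ hβ₂ (fun a _ b _ h => hroot a b h) hcop hℓ hRℓ hKL hK0 hL0 le_rfl
    (Real.exp K * (ℓ : ℝ) ^ K)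
    (fun k hk z hz => choose_bound hK0 hℓ hk (hz.trans hZ)) lm (2 * Real.pi / ℓ)
    (K * (140 / 1000)) A rfl hlmx hδ hW (by linarith) hh₁ hh₂
  set G : ℕ := ∑ l ∈ range L, l with hG
  have hG2 : (G : ℝ) * 2 = L * (L - 1) := by
    have h1 := Finset.sum_range_id_mul_two L
    rw [← hG] at h1
    have h2 : ((G * 2 : ℕ) : ℝ) = ((L * (L - 1) : ℕ) : ℝ) := by rw [h1]
    push_cast [Nat.cast_sub hL0] at h2
    exact h2
  have hG3 : (49 / 100 : ℝ) * L ^ 2 ≤ G := by
    have h1 : (60 : ℝ) * L ≤ L * L := mul_le_mul_of_nonneg_right hL60 hLnn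
    have h2 : (L : ℝ) ^ 2 = L * L := sq _
    have h3 : (L : ℝ) * (L - 1) = L * L - L := by ring
    rw [h3] at hG2
    rw [h2]
    linarith
  have hG0 : (0 : ℝ) ≤ G := by positivity
  -- the factor F
  obtain ⟨lF, hlF⟩ : ∃ lF : ℝ, lF =
      Real.log (((K * L).factorial : ℝ) * (Real.exp K * (ℓ : ℝ) ^ K) ^ (K * L)) := ⟨_, rfl⟩
  have hlF0 : 0 ≤ lF := by
    rw [hlF]
    apply Real.log_nonneg
    apply one_le_mul_of_one_le_of_one_le
    · exact_mod_cast Nat.one_le_iff_ne_zero.mpr (Nat.factorial_ne_zero _)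
    · apply one_le_pow₀
      exact one_le_mul_of_one_le_of_one_le (Real.one_le_exp (by positivity)) (one_le_pow₀ hℓ1)
  have hF : T * lF ≤ 7 / 60 * Q := by
    have e1 : lF = Real.log ((K * L).factorial : ℝ) + ((K * L : ℕ) : ℝ) * (K + K * Real.log ℓ) := by
      rw [hlF, Real.log_mul (by positivity) (by positivity), Real.log_pow,
        Real.log_mul (Real.exp_pos _).ne' (by positivity), Real.log_exp, Real.log_pow]
    have hfac : Real.log ((K * L).factorial : ℝ) ≤ (K * L : ℝ) * Real.log (K * L) := by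
      have h1 : (((K * L).factorial : ℕ) : ℝ) ≤ ((K * L : ℕ) : ℝ) ^ (K * L) := by
        exact_mod_cast Nat.factorial_le_pow (K * L)
      have h2 := Real.log_le_log (by positivity) h1
      rw [Real.log_pow] at h2
      push_cast at h2
      exact h2
    have hmid : T * (((K * L : ℕ) : ℝ) * (K + K * Real.log ℓ)) ≤ Q / 60 := by
      have h1 : (K : ℝ) + K * Real.log ℓ ≤ K * ν := by
        have h0 : (K : ℝ) + K * Real.log ℓ = K * (1 + Real.log ℓ) := by ring
        rw [h0]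
        exact mul_le_mul_of_nonneg_left hν hK0'.le
      push_cast
      have h2 : μ ≤ L / 60 := by linarith
      calc T * ((K : ℝ) * L * (K + K * Real.log ℓ)) ≤ T * ((K : ℝ) * L * (K * ν)) :=
            mul_le_mul_of_nonneg_left (mul_le_mul_of_nonneg_left h1 (by positivity)) (by linarith)
        _ = (K * K * L) * μ := by rw [hμ]; ring
        _ ≤ (K * K * L) * (L / 60) := mul_le_mul_of_nonneg_left h2 (by positivity)
        _ = _ := by rw [hQ]; ring
    have hfac2 : T * ((K * L : ℝ) * Real.log (K * L)) ≤ Q / 10 := by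
      have h2 : T * Real.log ((K : ℝ) * L) ≤ (K * L) / 10 := by
        apply log_le_two_sqrt hT1
        have e2 : (L : ℝ) * 1 ≤ L * A' := mul_le_mul_of_nonneg_left hA'1 hLnn
        have e3 : T ≤ K := by linarith
        have e4 : 400 * T ≤ 10 ^ 4 * q := by linarith
        calc 400 * T ^ 2 = (400 * T) * T := by ring
          _ ≤ K * L := by
            apply mul_le_mul (by linarith) (by linarith) (by linarith) hK0'.le
      calc T * ((K * L : ℝ) * Real.log (K * L)) = (K * L : ℝ) * (T * Real.log (K * L)) := by ring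
        _ ≤ (K * L : ℝ) * ((K * L) / 10) := mul_le_mul_of_nonneg_left h2 (by positivity)
        _ = _ := by rw [hQ]; ring
    have hfac3 : T * Real.log ((K * L).factorial : ℝ) ≤ T * ((K * L : ℝ) * Real.log (K * L)) :=
      mul_le_mul_of_nonneg_left hfac (by linarith)
    rw [e1, mul_add]
    linarith
  have hKKG1 : (49 / 100) * Q ≤ (K : ℝ) * K * G := by
    rw [hQ]
    calc (49 / 100 : ℝ) * ((K : ℝ) * L) ^ 2 = (K : ℝ) * K * ((49 / 100) * L ^ 2) := by ring
      _ ≤ (K : ℝ) * K * G := mul_le_mul_of_nonneg_left hG3 (by positivity)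
  -- logarithms
  have hFpos : (0 : ℝ) < ((K * L).factorial : ℝ) * (Real.exp K * (ℓ : ℝ) ^ K) ^ (K * L) := by
    positivity
  have hlog := Real.log_le_log (by positivity) hcore
  rw [Real.log_mul (by positivity) (Real.exp_pos _).ne', Real.log_exp,
    Real.log_mul (by positivity) (by positivity), Real.log_pow, Real.log_pow, Real.log_pow,
    Real.log_mul hFpos.ne' (Real.exp_pos _).ne', Real.log_exp, ← hlF] at hlog
  push_cast at hlog
  have hl2 := Real.log_two_gt_d9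
  have hl2' := Real.log_two_lt_d9
  have hg1 : (K : ℝ) * K * G * (69 / 100) ≤ (K * K * G) * Real.log 2 :=
    mul_le_mul_of_nonneg_left (by linarith) (by positivity)
  have hg2 : (K : ℝ) * L * Real.log 2 ≤ 1 / 100 * Q := by
    have h3 : (K : ℝ) * L * Real.log 2 ≤ K * L * 1 :=
      mul_le_mul_of_nonneg_left (by linarith) (by positivity)
    have h4 : (K : ℝ) * L * 100 ≤ K * L * (K * L) :=
      mul_le_mul_of_nonneg_left (by linarith) (by positivity)
    have h5 : Q = K * L * (K * L) := by rw [hQ]; ring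
    rw [h5]
    linarith
  have hg3 : ((Module.finrank ℚ F : ℝ) + 1) * (lF + K * G * ((R + L) * A)) ≤
      7 / 60 * Q + K * K * G * (12 / 1000) := by
    have h1 : ((Module.finrank ℚ F : ℝ) + 1) * (lF + K * G * ((R + L) * A)) ≤
        T * (lF + K * G * ((R + L) * A)) :=
      mul_le_mul_of_nonneg_right hT (by positivity)
    have h2 : T * (lF + K * G * ((R + L) * A)) = T * lF + K * G * ((R + L) * A * T) := by ring
    have h3 : ((R : ℝ) + L) * A * T = 101 * q := by rw [hRr, hq, hA']; ring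
    have h4 : (K : ℝ) * G * (101 * q) ≤ K * G * (K * (12 / 1000)) :=
      mul_le_mul_of_nonneg_left (by linarith) (by positivity)
    rw [h3] at h2
    have h5 : (K : ℝ) * G * (K * (12 / 1000)) = K * K * G * (12 / 1000) := by ring
    linarith
  have hg4 : (K : ℝ) * G * (2 * (K * (140 / 1000))) = K * K * G * (280 / 1000) := by ring
  linarith

end Pool.Agent.Work.MP_2738db_nt_Y.helper63
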