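import Pool.Agent.Work.MP_2738db_nt_Y_helper93.DetC
import Pool.Agent.Work.MP_2738db_nt_Y.Interface5

set_option autoImplicit false

/-!
The determinant inequality for `β₁ / β₂` over a number field (block ARK of theorem Y), following
`MP_2738db_nt_Y_helper93/CoreC.lean`.
-/

namespace Pool.Agent.Work.MP_2738db_nt_Y.helper63

open Finset BigOperators NumberField
open Pool.Agent.Work.MP_2738db_nt_A (HB)
open Pool.Agent.Work.MP_2738db_nt_Y.helper93 (norm_det_le pert_det_leC exists_minor zero_est_tr)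

/-- product formula: an algebraic integer is not small if its conjugates are bounded -/
theorem ark_liouville {K : Type} [Field K] [NumberField K] (φ : K →+* ℂ) {x : 𝓞 K} (hx : x ≠ 0)
    {B : ℝ} (hB : 1 ≤ B) (h : ∀ σ : K →+* ℂ, ‖σ (x : K)‖ ≤ B) :
    1 ≤ ‖φ (x : K)‖ * B ^ (Module.finrank ℚ K) := by
  classical
  have hx' : (x : K) ≠ 0 := by
    intro h0
    exact hx ((NumberField.RingOfIntegers.coe_eq_zero_iff).mp h0)
  have h0 : 1 ≤ ∏ σ : K →+* ℂ, ‖σ (x : K)‖ := by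
    have h1 : algebraMap ℚ ℂ (Algebra.norm ℚ (x : K)) = ∏ σ : K →ₐ[ℚ] ℂ, σ (x : K) :=
      Algebra.norm_eq_prod_embeddings ℚ ℂ (x : K)
    have h2 : (1 : ℝ) ≤ ‖algebraMap ℚ ℂ (Algebra.norm ℚ (x : K))‖ := by
      have hI : IsIntegral ℤ (Algebra.norm ℚ (x : K)) :=
        Algebra.isIntegral_norm ℚ (RingOfIntegers.isIntegral_coe x)
      obtain ⟨z, hz⟩ := IsIntegrallyClosed.isIntegral_iff.mp hI
      have hz0 : z ≠ 0 := by
        intro h
        rw [h, map_zero] at hz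
        exact hx' (Algebra.norm_eq_zero_iff.mp hz.symm)
      rw [← hz]
      have h3 : (1 : ℝ) ≤ |(z : ℝ)| := by exact_mod_cast Int.one_le_abs hz0
      simpa using h3
    rw [h1, norm_prod] at h2
    refine h2.trans (le_of_eq ?_)
    exact Fintype.prod_equiv (RingHom.equivRatAlgHom (R := K) (S := ℂ)).symm _ _ (fun σ => rfl)
  rw [← Finset.mul_prod_erase Finset.univ _ (Finset.mem_univ φ)] at h0
  refine h0.trans (mul_le_mul_of_nonneg_left ?_ (norm_nonneg _))
  calc ∏ ψ ∈ Finset.univ.erase φ, ‖ψ (x : K)‖ ≤ ∏ ψ ∈ Finset.univ.erase φ, B :=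
        Finset.prod_le_prod (fun _ _ => norm_nonneg _) (fun ψ _ => h ψ)
    _ = B ^ (Finset.univ.erase φ).card := by rw [Finset.prod_const]
    _ ≤ B ^ (Module.finrank ℚ K) := by
        apply pow_le_pow_right₀ hB
        rw [Finset.card_erase_of_mem (Finset.mem_univ _), Finset.card_univ,
          NumberField.Embeddings.card K ℂ]
        omega

theorem HB_embed {K : Type} [Field K] [NumberField K] {β : 𝓞 K} {h : ℝ} (hβ : HB K β h)
    (σ : K →+* ℂ) : ‖σ (β : K)‖ ≤ Real.exp h := by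
  have h1 := hβ (InfinitePlace.mk σ)
  rwa [InfinitePlace.apply] at h1

/-- the determinant inequality -/
theorem coreK {F : Type} [Field F] [NumberField F] (φ : F →+* ℂ) {k₀ ℓ K L R S Z : ℕ}
    (β₁ β₂ : 𝓞 F) (hβ₁ : β₁ ≠ 0) (hβ₂ : β₂ ≠ 0)
    (hroot : ∀ a < L, ∀ b < L, (φ (β₁ : F) / φ (β₂ : F)) ^ a = (φ (β₁ : F) / φ (β₂ : F)) ^ b →
      a = b)
    (hcop : Nat.Coprime ℓ k₀) (hℓ : 1 ≤ ℓ)
    (hR : R ≤ ℓ) (hKL : K * L ≤ R * S) (hK : 1 ≤ K) (hL : 1 ≤ L)
    (hZ : (R + L) * k₀ + S * ℓ ≤ Z) (B : ℝ) (hB : ∀ k < K, ∀ z ≤ Z, (Nat.choose z k : ℝ) ≤ B)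
    (lam w W h : ℝ) (hw : w = 2 * Real.pi / ℓ)
    (hlam : φ (β₁ : F) / φ (β₂ : F) = Complex.exp (((k₀ * w + lam : ℝ) : ℂ) * Complex.I))
    (hsm : |lam| * (L * (R + L)) * 2 ^ (K * L + 1) ≤ 1) (hW : Z * w ≤ W) (hh0 : 0 ≤ h)
    (hh₁ : HB F β₁ h) (hh₂ : HB F β₂ h) :
    2 ^ (K * K * ∑ l ∈ range L, l) ≤ 2 ^ (K * L) * (((K * L).factorial * B ^ (K * L)) *
      Real.exp ((K * ∑ l ∈ range L, l : ℕ) * ((R + L) * h))) ^ (Module.finrank ℚ F + 1) *
      Real.exp ((K * ∑ l ∈ range L, l : ℕ) * (2 * W)) := by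
  classical
  have hℓpos : (0 : ℝ) < ℓ := by exact_mod_cast hℓ
  have hw0 : 0 ≤ w := by
    rw [hw]
    have := Real.pi_pos
    positivity
  have hYw : (1 : ℂ) = Complex.exp (((ℓ * w : ℝ) : ℂ) * Complex.I) := by
    have h1 : (ℓ : ℝ) * w = 2 * Real.pi := by rw [hw]; field_simp
    rw [h1]
    push_cast
    rw [Complex.exp_two_pi_mul_I]
  have hW0 : 0 ≤ W := le_trans (by positivity) hW
  set b : ℂ := φ (β₁ : F) with hb
  set c : ℂ := φ (β₂ : F) with hc
  have hinj : Function.Injective φ := φ.injective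
  have hb0 : b ≠ 0 := by
    rw [hb, Ne, map_eq_zero]
    intro h0
    exact hβ₁ ((NumberField.RingOfIntegers.coe_eq_zero_iff).mp h0)
  have hc0 : c ≠ 0 := by
    rw [hc, Ne, map_eq_zero]
    intro h0
    exact hβ₂ ((NumberField.RingOfIntegers.coe_eq_zero_iff).mp h0)
  set x : ℂ := b / c with hx
  have hx0 : x ≠ 0 := div_ne_zero hb0 hc0
  let zz : Fin (R + L) × Fin S → ℕ := fun t => (t.1 : ℕ) * k₀ + (t.2 : ℕ) * ℓ
  have hzz : ∀ t, zz t ≤ Z := by
    intro t
    have h1 : (t.1 : ℕ) * k₀ ≤ (R + L) * k₀ := Nat.mul_le_mul_right _ t.1.2.le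
    have h2 : (t.2 : ℕ) * ℓ ≤ S * ℓ := Nat.mul_le_mul_right _ t.2.2.le
    simp only [zz]; omega
  let AC : Matrix (Fin K × Fin L) (Fin (R + L) × Fin S) ℂ := Matrix.of fun i t =>
    (Nat.choose (zz t) i.1 : ℂ) * (x ^ (t.1 : ℕ) * (1 : ℂ) ^ (t.2 : ℕ)) ^ (i.2 : ℕ)
  obtain ⟨g, hg⟩ := exists_minor AC (by
    intro c hc
    apply zero_est_tr x 1 k₀ ℓ hx0 one_ne_zero hroot hcop hR hKL hK hL c
    intro r hr t ht
    have := hc (⟨r, hr⟩, ⟨t, ht⟩)
    rw [← this]
    apply Finset.sum_congr rfl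
    intro i _
    simp [AC, zz])
  -- the integral matrix
  let A : Matrix (Fin K × Fin L) (Fin K × Fin L) (𝓞 F) := Matrix.of fun i j =>
    (Nat.choose (zz (g j)) i.1 : 𝓞 F) *
      (β₁ ^ ((g j).1 : ℕ) * β₂ ^ (R + L - (g j).1 : ℕ)) ^ (i.2 : ℕ)
  have hAσ : ∀ (σ : F →+* ℂ) i j, σ ((A i j : 𝓞 F) : F) = (Nat.choose (zz (g j)) i.1 : ℂ) *
      (σ (β₁ : F) ^ ((g j).1 : ℕ) * σ (β₂ : F) ^ (R + L - (g j).1 : ℕ)) ^ (i.2 : ℕ) := by
    intro σ i j
    simp only [A, Matrix.of_apply, map_mul, map_pow, map_natCast]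
  have hdetσ : ∀ σ : F →+* ℂ, σ ((A.det : 𝓞 F) : F) =
      (Matrix.of fun i j => σ ((A i j : 𝓞 F) : F)).det := by
    intro σ
    have h1 : σ ((A.det : 𝓞 F) : F) = (σ.comp (algebraMap (𝓞 F) F)) A.det := rfl
    rw [h1, RingHom.map_det]
    rfl
  have hA : ∀ i j, φ ((A i j : 𝓞 F) : F) = (c ^ (R + L)) ^ (i.2 : ℕ) * AC i (g j) := by
    intro i j
    rw [hAσ]
    simp only [AC, Matrix.of_apply]
    rw [← hb, ← hc]
    have h2 : b ^ ((g j).1 : ℕ) * c ^ (R + L - (g j).1 : ℕ) = c ^ (R + L) * x ^ ((g j).1 : ℕ) := by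
      have h3 : c ^ (R + L) = c ^ (R + L - (g j).1 : ℕ) * c ^ ((g j).1 : ℕ) := by
        rw [← pow_add]; congr 1
        have := (g j).1.2
        omega
      rw [h3, hx, div_pow]
      field_simp
    rw [h2, mul_pow, one_pow, mul_one]
    ring
  have hdetA : φ ((A.det : 𝓞 F) : F) =
      (∏ i : Fin K × Fin L, (c ^ (R + L)) ^ (i.2 : ℕ)) * (AC.submatrix id g).det := by
    rw [hdetσ]
    have h1 : (Matrix.of fun i j => φ ((A i j : 𝓞 F) : F)) = Matrix.of fun i j =>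
        (c ^ (R + L)) ^ (i.2 : ℕ) * (AC.submatrix id g) i j := by
      funext i j
      simp only [Matrix.of_apply, Matrix.submatrix_apply, id_eq]
      exact hA i j
    rw [h1, Matrix.det_mul_column]
  have hAne : A.det ≠ 0 := by
    intro h0
    rw [h0] at hdetA
    have h1 : φ (((0 : 𝓞 F)) : F) = 0 := by
      simp
    rw [h1] at hdetA
    refine (mul_ne_zero ?_ hg) hdetA.symm
    exact Finset.prod_ne_zero_iff.mpr fun i _ => pow_ne_zero _ (pow_ne_zero _ hc0)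
  have hsumG : ∑ i : Fin K × Fin L, ((i.2 : ℕ) : ℕ) = K * ∑ l ∈ range L, l := by
    rw [Fintype.sum_prod_type]
    simp only [Finset.sum_const, Finset.card_univ, Fintype.card_fin, smul_eq_mul]
    rw [Fin.sum_univ_eq_sum_range (fun k => k) L]
  have hprodexp : ∀ c : ℝ, ∏ i : Fin K × Fin L, Real.exp ((i.2 : ℕ) * c)
      = Real.exp ((K * ∑ l ∈ range L, l : ℕ) * c) := by
    intro c
    rw [← Real.exp_sum, ← Finset.sum_mul]
    congr 2
    rw [← hsumG]
    push_cast; rfl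
  have hcard : Fintype.card (Fin K × Fin L) = K * L := by simp
  have hB1 : 1 ≤ B := by
    have h1 := hB 0 (by omega) 0 (by omega)
    simpa using h1
  have hBnn : 0 ≤ B := by linarith
  obtain ⟨E, hEdef⟩ : ∃ E : ℝ, E = Real.exp ((K * ∑ l ∈ range L, l : ℕ) * ((R + L) * h)) :=
    ⟨_, rfl⟩
  have hE1 : 1 ≤ E := by
    rw [hEdef]
    exact Real.one_le_exp (by positivity)
  obtain ⟨X, hXdef⟩ : ∃ X : ℝ, X = (((K * L).factorial : ℝ) * B ^ (K * L)) * E := ⟨_, rfl⟩
  have hfac1 : (1 : ℝ) ≤ ((K * L).factorial : ℝ) := by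
    exact_mod_cast Nat.one_le_iff_ne_zero.mpr (Nat.factorial_ne_zero _)
  have hX1 : 1 ≤ X := by
    rw [hXdef]
    exact one_le_mul_of_one_le_of_one_le
      (one_le_mul_of_one_le_of_one_le hfac1 (one_le_pow₀ hB1)) hE1
  -- bound at all the embeddings
  have hσ : ∀ σ : F →+* ℂ, ‖σ ((A.det : 𝓞 F) : F)‖ ≤ X := by
    intro σ
    rw [hdetσ]
    have h1 := norm_det_le (Matrix.of fun i j => σ ((A i j : 𝓞 F) : F))
      (fun i : Fin K × Fin L => B * Real.exp ((i.2 : ℕ) * ((R + L) * h))) (by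
        intro i j
        rw [Matrix.of_apply, hAσ, norm_mul, Complex.norm_natCast]
        apply mul_le_mul (hB _ i.1.2 _ (hzz (g j))) _ (norm_nonneg _) hBnn
        rw [norm_pow, norm_mul, norm_pow, norm_pow]
        have e1 := HB_embed hh₁ σ
        have e2 := HB_embed hh₂ σ
        have e3 : ‖σ (β₁ : F)‖ ^ ((g j).1 : ℕ) * ‖σ (β₂ : F)‖ ^ (R + L - (g j).1 : ℕ) ≤
            Real.exp ((R + L) * h) := by
          calc ‖σ (β₁ : F)‖ ^ ((g j).1 : ℕ) * ‖σ (β₂ : F)‖ ^ (R + L - (g j).1 : ℕ)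
              ≤ (Real.exp h) ^ ((g j).1 : ℕ) * (Real.exp h) ^ (R + L - (g j).1 : ℕ) := by
                apply mul_le_mul (pow_le_pow_left₀ (norm_nonneg _) e1 _)
                  (pow_le_pow_left₀ (norm_nonneg _) e2 _) (by positivity) (by positivity)
            _ = (Real.exp h) ^ (R + L) := by
                rw [← pow_add]; congr 1
                have := (g j).1.2
                omega
            _ = Real.exp ((R + L) * h) := by
                rw [← Real.exp_nat_mul]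
                push_cast
                rfl
        calc (‖σ (β₁ : F)‖ ^ ((g j).1 : ℕ) * ‖σ (β₂ : F)‖ ^ (R + L - (g j).1 : ℕ)) ^ (i.2 : ℕ)
            ≤ (Real.exp ((R + L) * h)) ^ (i.2 : ℕ) := pow_le_pow_left₀ (by positivity) e3 _
          _ = _ := by rw [← Real.exp_nat_mul])
    rw [Finset.prod_mul_distrib, hprodexp, Finset.prod_const, Finset.card_univ, hcard,
      ← hEdef] at h1
    rw [hXdef]
    refine h1.trans (le_of_eq ?_)
    ring
  have hone := ark_liouville φ hAne hX1 hσ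
  rw [hdetA, norm_mul, norm_prod] at hone
  have hcpos : 0 < ‖c‖ := norm_pos_iff.mpr hc0
  have hprodb : ∏ i : Fin K × Fin L, ‖(c ^ (R + L)) ^ (i.2 : ℕ)‖ ≤ E := by
    rw [hEdef, ← hprodexp]
    apply Finset.prod_le_prod
    · intro i _; exact norm_nonneg _
    · intro i _
      have e2 := HB_embed hh₂ φ
      rw [← hc] at e2
      rw [norm_pow, norm_pow]
      calc (‖c‖ ^ (R + L)) ^ (i.2 : ℕ) ≤ ((Real.exp h) ^ (R + L)) ^ (i.2 : ℕ) :=
            pow_le_pow_left₀ (by positivity) (pow_le_pow_left₀ (norm_nonneg _) e2 _) _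
        _ = _ := by
            rw [← Real.exp_nat_mul, ← Real.exp_nat_mul]
            push_cast
            rfl
  -- the main matrix
  let u : Fin K × Fin L → ℂ := fun i => Complex.exp ((((i.2 : ℕ) * w : ℝ) : ℂ) * Complex.I)
  have hu1 : ∀ i, ‖u i‖ = 1 := fun i => Complex.norm_exp_ofReal_mul_I _
  have hum : ∀ i, ‖u i - 1‖ ≤ (i.2 : ℕ) * w := by
    intro i
    have h1 : ‖u i - 1‖ ≤ ‖((i.2 : ℕ) * w : ℝ)‖ := by
      have h2 := Real.norm_exp_I_mul_ofReal_sub_one_le (x := ((i.2 : ℕ) * w : ℝ))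
      simp only [u]
      rw [mul_comm (((((i.2 : ℕ) * w : ℝ)) : ℂ)) Complex.I]
      exact h2
    rwa [Real.norm_of_nonneg (by positivity)] at h1
  let Mn : Matrix (Fin K × Fin L) (Fin K × Fin L) ℂ := Matrix.of fun i j =>
    (Nat.choose (zz (g j)) (i.1 : ℕ) : ℂ) * u i ^ (zz (g j))
  have hentry : ∀ i j, AC i (g j) = Mn i j *
      Complex.exp ((((i.2 : ℕ) * ((g j).1 : ℕ) * lam : ℝ) : ℂ) * Complex.I) := by
    intro i j
    simp only [AC, Mn, Matrix.of_apply, u]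
    rw [mul_assoc, ← Complex.exp_nat_mul, ← Complex.exp_add]
    congr 1
    have h1 : x ^ ((g j).1 : ℕ) * (1 : ℂ) ^ ((g j).2 : ℕ) =
        Complex.exp (((((g j).1 : ℕ) * (k₀ * w + lam) + ((g j).2 : ℕ) * (ℓ * w) : ℝ) : ℂ) * Complex.I) := by
      have h0 : (1 : ℂ) ^ ((g j).2 : ℕ) =
          Complex.exp (((ℓ * w : ℝ) : ℂ) * Complex.I) ^ ((g j).2 : ℕ) := by rw [← hYw]
      rw [h0, hlam]
      rw [← Complex.exp_nat_mul, ← Complex.exp_nat_mul, ← Complex.exp_add]
      congr 1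
      push_cast
      ring
    rw [h1, ← Complex.exp_nat_mul]
    congr 1
    simp only [zz]
    push_cast
    ring
  have hLR0 : (0 : ℝ) ≤ |lam| * (L * (R + L)) := by positivity
  have hMn : ∀ i j, ‖Mn i j‖ ≤ B := by
    intro i j
    simp only [Mn, Matrix.of_apply]
    rw [norm_mul, norm_pow, hu1, one_pow, mul_one, Complex.norm_natCast]
    exact hB _ i.1.2 _ (hzz (g j))
  have hE : ∀ i j, ‖Mn i j * (Complex.exp ((((i.2 : ℕ) * ((g j).1 : ℕ) * lam : ℝ) : ℂ) * Complex.I) - 1)‖ ≤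
      B * (|lam| * (L * (R + L))) := by
    intro i j
    rw [norm_mul]
    apply mul_le_mul (hMn i j) _ (norm_nonneg _) hBnn
    rw [mul_comm ((((i.2 : ℕ) * ((g j).1 : ℕ) * lam : ℝ) : ℂ)) Complex.I]
    refine (Real.norm_exp_I_mul_ofReal_sub_one_le).trans ?_
    rw [Real.norm_eq_abs, abs_mul, mul_comm]
    apply mul_le_mul_of_nonneg_left _ (abs_nonneg _)
    rw [abs_of_nonneg (by positivity)]
    have h1 : (((g j).1 : ℕ) : ℝ) ≤ R + L := by exact_mod_cast (g j).1.2.le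
    have h2 : ((i.2 : ℕ) : ℝ) ≤ L := by exact_mod_cast i.2.2.le
    exact mul_le_mul h2 h1 (by positivity) (by positivity)
  have hARdet : (AC.submatrix id g).det = (Matrix.of fun i j => (Nat.choose (zz (g j)) (i.1 : ℕ) : ℂ) * u i ^ (zz (g j)) +
      Mn i j * (Complex.exp ((((i.2 : ℕ) * ((g j).1 : ℕ) * lam : ℝ) : ℂ) * Complex.I) - 1)).det := by
    congr 1
    funext i j
    rw [Matrix.submatrix_apply, id_eq, hentry i j]
    simp only [Mn, Matrix.of_apply]
    ring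
  have hmain := pert_det_leC Z (K * K * ∑ l ∈ range L, l) (fun i : Fin K × Fin L => (i.1 : ℕ)) u
      (fun j => zz (g j)) (fun j => hzz (g j)) hu1 (by
        rw [hcard, Fintype.sum_prod_type]
        simp only [Finset.sum_const, Finset.card_univ, Fintype.card_fin, smul_eq_mul]
        rw [← Finset.mul_sum, Fin.sum_univ_eq_sum_range (fun k => k) K]
        have h1 := Finset.sum_range_id_mul_two L
        have h2 := Finset.sum_range_id_mul_two K
        rw [Nat.le_div_iff_mul_le (by norm_num)]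
        obtain ⟨L', rfl⟩ : ∃ L', L = L' + 1 := ⟨L - 1, by omega⟩
        obtain ⟨K', rfl⟩ : ∃ K', K = K' + 1 := ⟨K - 1, by omega⟩
        simp only [Nat.add_sub_cancel] at h1 h2
        have h3 : (K' + 1) * (L' + 1) - 1 = K' * L' + K' + L' := by
          have : (K' + 1) * (L' + 1) = K' * L' + K' + L' + 1 := by ring
          omega
        rw [h3]
        nlinarith [h1, h2])
      (fun i j => Mn i j * (Complex.exp ((((i.2 : ℕ) * ((g j).1 : ℕ) * lam : ℝ) : ℂ) * Complex.I) - 1))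
      (fun i => B * (|lam| * (L * (R + L)))) hE
  rw [← hARdet, hcard] at hmain
  have h2pos : (0 : ℝ) < 2 ^ (K * K * ∑ l ∈ range L, l) := by positivity
  have hE0 : 0 ≤ E := by linarith
  have hX0 : 0 ≤ X := by linarith
  have h3 : (2 : ℝ) ^ (K * K * ∑ l ∈ range L, l) ≤
      E * X ^ (Module.finrank ℚ F) *
        (‖(AC.submatrix id g).det‖ * 2 ^ (K * K * ∑ l ∈ range L, l)) := by
    have e1 : (1 : ℝ) ≤ E * X ^ (Module.finrank ℚ F) * ‖(AC.submatrix id g).det‖ := by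
      refine hone.trans ?_
      calc (∏ i : Fin K × Fin L, ‖(c ^ (R + L)) ^ (i.2 : ℕ)‖) * ‖(AC.submatrix id g).det‖ *
            X ^ (Module.finrank ℚ F)
          ≤ E * ‖(AC.submatrix id g).det‖ * X ^ (Module.finrank ℚ F) :=
            mul_le_mul_of_nonneg_right (mul_le_mul_of_nonneg_right hprodb (norm_nonneg _))
              (by positivity)
        _ = _ := by ring
    rw [← mul_assoc]
    exact le_mul_of_one_le_left h2pos.le e1
  have hEX0 : 0 ≤ E * X ^ (Module.finrank ℚ F) := by positivity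
  refine h3.trans ((mul_le_mul_of_nonneg_left hmain hEX0).trans ?_)
  have h4 : ∏ i : Fin K × Fin L, ((Nat.choose Z (i.1 : ℕ) : ℝ) * (1 + 2 * ‖u i - 1‖) ^ Z +
      2 ^ (K * L) * (B * (|lam| * (L * (R + L)))))
      ≤ ∏ i : Fin K × Fin L, ((2 * B) * Real.exp ((i.2 : ℕ) * (2 * W))) := by
    apply Finset.prod_le_prod
    · intro i _
      positivity
    · intro i _
      have h5 : (1 + 2 * ‖u i - 1‖) ^ Z ≤ Real.exp ((i.2 : ℕ) * (2 * W)) := by
        calc (1 + 2 * ‖u i - 1‖) ^ Z ≤ (Real.exp (2 * ((i.2 : ℕ) * w))) ^ Z := by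
              apply pow_le_pow_left₀ (by positivity)
              have h6 := Real.add_one_le_exp (2 * ((i.2 : ℕ) * w))
              have h7 := hum i
              linarith
          _ = Real.exp (Z * (2 * ((i.2 : ℕ) * w))) := by rw [← Real.exp_nat_mul]
          _ ≤ Real.exp ((i.2 : ℕ) * (2 * W)) := by
              apply Real.exp_le_exp.mpr
              calc (Z : ℝ) * (2 * ((i.2 : ℕ) * w)) = ((i.2 : ℕ) * 2) * (Z * w) := by ring
                _ ≤ ((i.2 : ℕ) * 2) * W := mul_le_mul_of_nonneg_left hW (by positivity)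
                _ = _ := by ring
      have h6 : (Nat.choose Z (i.1 : ℕ) : ℝ) ≤ B := hB _ i.1.2 Z le_rfl
      have h7 : (2 : ℝ) ^ (K * L) * (B * (|lam| * (L * (R + L)))) ≤ B := by
        have h8 : (2 : ℝ) ^ (K * L) * (B * (|lam| * (L * (R + L)))) ≤
            B * (|lam| * (L * (R + L)) * 2 ^ (K * L + 1)) := by
          rw [pow_succ]
          have h9 : 0 ≤ B * (|lam| * (L * (R + L))) * 2 ^ (K * L) := by positivity
          linarith
        exact h8.trans (mul_le_of_le_one_right hBnn hsm)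
      have h8 : (1 : ℝ) ≤ Real.exp ((i.2 : ℕ) * (2 * W)) := Real.one_le_exp (by positivity)
      have h9 : (Nat.choose Z (i.1 : ℕ) : ℝ) * (1 + 2 * ‖u i - 1‖) ^ Z ≤
          B * Real.exp ((i.2 : ℕ) * (2 * W)) := mul_le_mul h6 h5 (by positivity) hBnn
      have h10 : B * 1 ≤ B * Real.exp ((i.2 : ℕ) * (2 * W)) := mul_le_mul_of_nonneg_left h8 hBnn
      linarith
  have h5 : ∏ i : Fin K × Fin L, ((2 * B) * Real.exp ((i.2 : ℕ) * (2 * W))) =
      (2 * B) ^ (K * L) * Real.exp ((K * ∑ l ∈ range L, l : ℕ) * (2 * W)) := by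
    rw [Finset.prod_mul_distrib, hprodexp, Finset.prod_const, Finset.card_univ, hcard]
  rw [h5] at h4
  rw [← hEdef, ← hXdef]
  calc E * X ^ (Module.finrank ℚ F) * (((K * L).factorial : ℝ) * _)
      ≤ E * X ^ (Module.finrank ℚ F) * (((K * L).factorial : ℝ) *
        ((2 * B) ^ (K * L) * Real.exp ((K * ∑ l ∈ range L, l : ℕ) * (2 * W)))) := by
        apply mul_le_mul_of_nonneg_left _ hEX0
        exact mul_le_mul_of_nonneg_left h4 (by positivity)
    _ = 2 ^ (K * L) * X ^ (Module.finrank ℚ F + 1) *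
        Real.exp ((K * ∑ l ∈ range L, l : ℕ) * (2 * W)) := by
        rw [pow_succ, mul_pow]
        generalize X ^ (Module.finrank ℚ F) = P
        rw [hXdef]
        ring

end Pool.Agent.Work.MP_2738db_nt_Y.helper63
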